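import Pool.Agent.Helper10.Sub.Defs

/-!
# Subspace theorem project: the penultimate minimum theorem
-/

set_option autoImplicit false

namespace Pool.Agent.Helper51.Sub

open Pool.Agent.Helper10.Sub Finset

/-! ### The ring `ℤ[1/P]` and the product formula -/

section PInt

lemma PInt.of_int (P : ℕ) (z : ℤ) : PInt P (z : ℚ) := ⟨0, z, by simp⟩

lemma PInt.add {P : ℕ} {x y : ℚ} (hx : PInt P x) (hy : PInt P y) : PInt P (x + y) := by
  obtain ⟨k, z, hz⟩ := hx
  obtain ⟨l, w, hw⟩ := hy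
  refine ⟨k + l, z * P ^ l + w * P ^ k, ?_⟩
  push_cast
  rw [← hz, ← hw]; ring

lemma PInt.mul {P : ℕ} {x y : ℚ} (hx : PInt P x) (hy : PInt P y) : PInt P (x * y) := by
  obtain ⟨k, z, hz⟩ := hx
  obtain ⟨l, w, hw⟩ := hy
  refine ⟨k + l, z * w, ?_⟩
  push_cast
  rw [← hz, ← hw]; ring

/-- The ring `ℤ[1/P]`. -/
def pring (P : ℕ) : Subring ℚ where
  carrier := {x | PInt P x}
  mul_mem' := PInt.mul
  one_mem' := by simpa using PInt.of_int P 1
  add_mem' := PInt.add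
  zero_mem' := by simpa using PInt.of_int P 0
  neg_mem' := fun {x} hx => by
    have := PInt.mul (PInt.of_int P (-1)) hx
    simpa using this

lemma mem_pring {P : ℕ} {x : ℚ} : x ∈ pring P ↔ PInt P x := Iff.rfl

lemma det_mem_pring {P : ℕ} {κ : Type*} [Fintype κ] [DecidableEq κ] {A : Matrix κ κ ℚ}
    (h : ∀ i j, PInt P (A i j)) : PInt P A.det := by
  rw [← mem_pring, Matrix.det_apply]
  refine (pring P).sum_mem fun σ _ => ?_
  rw [Units.smul_def]
  exact (pring P).zsmul_mem ((pring P).prod_mem fun i _ => h _ _) _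

variable {T : Type*} [Fintype T] {p : T → ℕ} [∀ t, Fact (p t).Prime]

/-- product of all absolute values -/
noncomputable def absS (p : T → ℕ) [∀ t, Fact (p t).Prime] (x : ℚ) : ℝ :=
  |(x : ℝ)| * ∏ t, ‖(x : ℚ_[p t])‖

lemma absS_mul (x y : ℚ) : absS p (x * y) = absS p x * absS p y := by
  unfold absS
  push_cast
  rw [abs_mul]
  simp only [norm_mul]
  rw [prod_mul_distrib]; ring

lemma absS_one : absS p 1 = 1 := by simp [absS]

lemma absS_pow (x : ℚ) (k : ℕ) : absS p (x ^ k) = absS p x ^ k := by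
  induction k with
  | zero => simp [absS_one]
  | succ k ih => rw [pow_succ, pow_succ, absS_mul, ih]

lemma absS_nonneg (x : ℚ) : 0 ≤ absS p x :=
  mul_nonneg (abs_nonneg _) (prod_nonneg fun _ _ => norm_nonneg _)

lemma absS_prime (hp : Function.Injective p) (t : T) : absS p (p t : ℚ) = 1 := by
  classical
  unfold absS
  have h1 : ∏ s, ‖((p t : ℚ) : ℚ_[p s])‖ = ((p t : ℝ))⁻¹ := by
    rw [prod_eq_single t]
    · rw [Rat.cast_natCast]
      exact Padic.norm_p
    · intro s _ hst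
      rw [Rat.cast_natCast]
      rw [Padic.norm_natCast_eq_one_iff]
      have := (Nat.coprime_primes (Fact.out : (p s).Prime) (Fact.out : (p t).Prime)).mpr
        (fun h => hst (hp h))
      exact this
    · intro h; exact absurd (mem_univ t) h
  rw [h1, Rat.cast_natCast, Nat.abs_cast]
  exact mul_inv_cancel₀ (by exact_mod_cast (Fact.out : (p t).Prime).ne_zero)

lemma absS_prod {κ : Type*} (s : Finset κ) (f : κ → ℚ) :
    absS p (∏ i ∈ s, f i) = ∏ i ∈ s, absS p (f i) := by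
  classical
  induction s using Finset.induction_on with
  | empty => simp [absS_one]
  | insert a s ha ih => rw [prod_insert ha, prod_insert ha, absS_mul, ih]

lemma absS_pprod (hp : Function.Injective p) : absS p (pprod p : ℚ) = 1 := by
  unfold pprod
  push_cast
  rw [absS_prod]
  exact prod_eq_one fun t _ => absS_prime hp t

lemma one_le_absS_int (hp : Function.Injective p) {z : ℤ} (hz : z ≠ 0) :
    1 ≤ absS p (z : ℚ) := by
  classical
  have h1 : (∏ t, (p t) ^ (padicValInt (p t) z)) ∣ z.natAbs := by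
    apply Finset.prod_dvd_of_isRelPrime
    · intro s _ t _ hst
      show IsRelPrime _ _
      rw [← Nat.coprime_iff_isRelPrime]
      apply Nat.Coprime.pow
      exact (Nat.coprime_primes (Fact.out : (p s).Prime) (Fact.out : (p t).Prime)).mpr
        (fun h => hst (hp h))
    · intro t _
      have := pow_padicValNat_dvd (p := p t) (n := z.natAbs)
      simpa [padicValInt] using this
  have h2 : (∏ t, (p t) ^ (padicValInt (p t) z)) ≤ z.natAbs :=
    Nat.le_of_dvd (Int.natAbs_pos.mpr hz) h1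
  have h3 : ∀ t, ‖(((z : ℚ)) : ℚ_[p t])‖ = (((p t : ℝ)) ^ (padicValInt (p t) z))⁻¹ := by
    intro t
    rw [Padic.eq_padicNorm, padicNorm.eq_zpow_of_nonzero (by exact_mod_cast hz),
      padicValRat.of_int]
    push_cast
    rw [zpow_neg, zpow_natCast]
  unfold absS
  simp only [h3]
  rw [prod_inv_distrib, ← div_eq_mul_inv, le_div_iff₀, one_mul]
  · have : ((∏ t, (p t) ^ (padicValInt (p t) z) : ℕ) : ℝ) ≤ (z.natAbs : ℝ) := by exact_mod_cast h2
    push_cast at this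
    have h4 : |(((z : ℚ)) : ℝ)| = (z.natAbs : ℝ) := by
      rw [Rat.cast_intCast, ← Int.cast_abs, Int.abs_eq_natAbs, Int.cast_natCast]
    rw [h4]
    exact this
  · exact prod_pos fun t _ => pow_pos (by exact_mod_cast (Fact.out : (p t).Prime).pos) _

lemma one_le_absS (hp : Function.Injective p) {x : ℚ} (hx : PInt (pprod p) x) (h0 : x ≠ 0) :
    1 ≤ absS p x := by
  obtain ⟨k, z, hz⟩ := hx
  have h1 : absS p x = absS p (z : ℚ) := by
    rw [← hz, absS_mul, absS_pow, absS_pprod hp, one_pow, mul_one]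
  rw [h1]
  apply one_le_absS_int hp
  rintro rfl
  have hP : ((pprod p : ℕ) : ℚ) ≠ 0 := by
    unfold pprod
    push_cast
    exact prod_ne_zero_iff.mpr fun t _ => by exact_mod_cast (Fact.out : (p t).Prime).ne_zero
  rw [Int.cast_zero, mul_eq_zero] at hz
  rcases hz with hz | hz
  · exact h0 hz
  · exact pow_ne_zero _ hP hz

end PInt

/-! ### The cofactor vector -/

section cof

variable {ι : Type*} [Fintype ι] [DecidableEq ι] {k : ℕ} (e : Fin (k + 1) ≃ ι)

/-- Determinant of a vector and `k` further ones. -/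
noncomputable def dt {F : Type*} [CommRing F] (x : ι → F) (y : Fin k → ι → F) : F :=
  Matrix.det (Matrix.of fun r c : Fin (k + 1) => (Fin.cons x y : Fin (k + 1) → ι → F) r (e c))

/-- Cofactor vector of `k` vectors. -/
noncomputable def cof {F : Type*} [CommRing F] (y : Fin k → ι → F) (j : ι) : F :=
  dt e (Pi.single j 1) y

/-- minors -/
noncomputable def mn {F : Type*} [CommRing F] (y : Fin k → ι → F) (c : Fin (k + 1)) : F :=
  Matrix.det (Matrix.of fun r c' : Fin k => y r (e (c.succAbove c')))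

lemma dt_eq {F : Type*} [CommRing F] (x : ι → F) (y : Fin k → ι → F) :
    dt e x y = ∑ c : Fin (k + 1), (-1) ^ (c : ℕ) * x (e c) * mn e y c := by
  unfold dt
  rw [Matrix.det_succ_row_zero]
  refine sum_congr rfl fun c _ => ?_
  rw [Matrix.of_apply, Fin.cons_zero]
  congr 1

lemma cof_eq {F : Type*} [CommRing F] (y : Fin k → ι → F) (c : Fin (k + 1)) :
    cof e y (e c) = (-1) ^ (c : ℕ) * mn e y c := by
  unfold cof
  rw [dt_eq, sum_eq_single c]
  · rw [Pi.single_eq_same, mul_one]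
  · intro d _ hd
    rw [Pi.single_eq_of_ne (fun h => hd (e.injective h)), mul_zero, zero_mul]
  · intro h; exact absurd (mem_univ c) h

lemma dt_eq_sum {F : Type*} [CommRing F] (x : ι → F) (y : Fin k → ι → F) :
    dt e x y = ∑ j, x j * cof e y j := by
  rw [dt_eq, ← Equiv.sum_comp e]
  refine sum_congr rfl fun c _ => ?_
  rw [cof_eq]; ring

lemma dt_mulVec {F : Type*} [CommRing F] (A : Matrix ι ι F) (x : ι → F) (y : Fin k → ι → F) :
    dt e (A.mulVec x) (fun r => A.mulVec (y r)) = dt e x y * A.det := by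
  unfold dt
  rw [← Matrix.det_submatrix_equiv_self e A, ← Matrix.det_transpose (A.submatrix e e),
    ← Matrix.det_mul]
  congr 1
  ext r c
  rw [Matrix.of_apply, Matrix.mul_apply]
  have h : (Fin.cons (A.mulVec x) (fun r => A.mulVec (y r)) : Fin (k + 1) → ι → F) r
      = A.mulVec ((Fin.cons x y : Fin (k + 1) → ι → F) r) := by
    refine Fin.cases ?_ (fun r => ?_) r
    · simp
    · simp
  rw [h, Matrix.mulVec, dotProduct, ← Equiv.sum_comp e]
  refine sum_congr rfl fun d _ => ?_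
  rw [Matrix.of_apply, Matrix.transpose_apply, Matrix.submatrix_apply, mul_comm]

lemma map_dt {F G : Type*} [CommRing F] [CommRing G] (f : F →+* G) (x : ι → F)
    (y : Fin k → ι → F) : f (dt e x y) = dt e (fun i => f (x i)) (fun r i => f (y r i)) := by
  unfold dt
  rw [RingHom.map_det]
  congr 1
  ext r c
  rw [RingHom.mapMatrix_apply, Matrix.map_apply, Matrix.of_apply, Matrix.of_apply]
  refine Fin.cases ?_ (fun r => ?_) r
  · simp
  · simp

lemma map_cof {F G : Type*} [CommRing F] [CommRing G] (f : F →+* G)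
    (y : Fin k → ι → F) (j : ι) : f (cof e y j) = cof e (fun r i => f (y r i)) j := by
  unfold cof
  rw [map_dt]
  congr 1
  funext i
  by_cases h : i = j
  · subst h; simp
  · simp [Pi.single_eq_of_ne h]

lemma norm_dt_le {F : Type*} [NormedField F] {a : ι → ℝ} (ha : ∀ i, 0 ≤ a i) {x : ι → F}
    {y : Fin k → ι → F} {bx : ℝ} {b : Fin k → ℝ}
    (hx : ∀ i, ‖x i‖ ≤ a i * bx) (hy : ∀ r i, ‖y r i‖ ≤ a i * b r) :
    ‖dt e x y‖ ≤ ((k + 1).factorial : ℝ) * (∏ i, a i) * (bx * ∏ r, b r) := by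
  unfold dt
  rw [Matrix.det_apply']
  have h : ∀ (r : Fin (k + 1)) (i : ι), ‖(Fin.cons x y : Fin (k + 1) → ι → F) r i‖
      ≤ a i * (Fin.cons bx b : Fin (k + 1) → ℝ) r := by
    intro r i
    refine Fin.cases ?_ (fun r => ?_) r
    · simpa using hx i
    · simpa using hy r i
  calc _ ≤ ∑ σ : Equiv.Perm (Fin (k + 1)), ‖((Equiv.Perm.sign σ : ℤ) : F) *
        ∏ i, (Matrix.of fun r c : Fin (k + 1) =>
          (Fin.cons x y : Fin (k + 1) → ι → F) r (e c)) (σ i) i‖ := norm_sum_le _ _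
    _ ≤ ∑ σ : Equiv.Perm (Fin (k + 1)), (∏ i, a i) * (bx * ∏ r, b r) := by
        refine sum_le_sum fun σ _ => ?_
        have h1 : ‖((Equiv.Perm.sign σ : ℤ) : F)‖ = 1 := by
          rcases Int.units_eq_one_or (Equiv.Perm.sign σ) with h | h <;> simp [h]
        rw [norm_mul, h1, one_mul, norm_prod]
        calc _ ≤ ∏ i : Fin (k + 1), (a (e i) * (Fin.cons bx b : Fin (k + 1) → ℝ) (σ i)) :=
              prod_le_prod (fun _ _ => norm_nonneg _) fun i _ => h _ _
          _ = (∏ i, a i) * (bx * ∏ r, b r) := by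
              rw [prod_mul_distrib, Equiv.prod_comp e, Equiv.prod_comp σ, Fin.prod_univ_succ]
              simp
    _ = _ := by
        rw [sum_const, card_univ, Fintype.card_perm, Fintype.card_fin, nsmul_eq_mul, mul_assoc]

lemma dt_self {F : Type*} [CommRing F] (y : Fin k → ι → F) (r : Fin k) : dt e (y r) y = 0 := by
  unfold dt
  apply Matrix.det_zero_of_row_eq (i := 0) (j := r.succ) (Fin.succ_ne_zero r).symm
  funext c
  simp

end cof

/-! ### The proportionality factor -/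

section lam

variable {ι : Type*} [Fintype ι] [DecidableEq ι] {k : ℕ} (e : Fin (k + 1) ≃ ι)

lemma Prim.ne_zero [Nonempty ι] {m : ι → ℤ} (hm : Prim m) : m ≠ 0 := by
  rintro rfl
  have := hm 0 (fun i => by simp)
  exact not_isUnit_zero this

lemma Prim.bezout {m : ι → ℤ} (hm : Prim m) : ∃ u : ι → ℤ, ∑ i, u i * m i = 1 := by
  have h1 : Ideal.span (Set.range m) = ⊤ := by
    obtain ⟨d, hd⟩ := (IsPrincipalIdealRing.principal (Ideal.span (Set.range m))).principal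
    have hd' : Ideal.span (Set.range m) = Ideal.span {d} := hd
    rw [hd', Ideal.span_singleton_eq_top]
    apply hm
    intro i
    rw [← Ideal.mem_span_singleton, ← hd']
    exact Ideal.subset_span ⟨i, rfl⟩
  have h2 : (1 : ℤ) ∈ Ideal.span (Set.range m) := by rw [h1]; trivial
  rw [Ideal.mem_span_range_iff_exists_fun] at h2
  exact h2

lemma dt_ne_zero {x : ι → ℚ} {y : Fin k → ι → ℚ}
    (h : LinearIndependent ℚ (Fin.cons x y : Fin (k + 1) → ι → ℚ)) : dt e x y ≠ 0 := by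
  unfold dt
  have h1 : LinearIndependent ℚ (Matrix.of fun r c : Fin (k + 1) =>
      (Fin.cons x y : Fin (k + 1) → ι → ℚ) r (e c)).row := by
    have h2 := h.map' (LinearEquiv.funCongrLeft ℚ ℚ e).toLinearMap (LinearEquiv.ker _)
    exact h2
  rw [Matrix.linearIndependent_rows_iff_isUnit] at h1
  rw [Matrix.isUnit_iff_isUnit_det] at h1
  exact h1.ne_zero

lemma prop_of_vanish (e : Fin (k + 1) ≃ ι) {m : ι → ℤ} (hm : Prim m) {y : Fin k → ι → ℚ}
    (hli : LinearIndependent ℚ y) (hy : ∀ j, ∑ i, (m i : ℚ) * y j i = 0) {h : ι → ℚ}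
    (hh : ∀ j, ∑ i, y j i * h i = 0) : ∃ l : ℚ, ∀ i, h i = l * m i := by
  have : Nonempty ι := ⟨e 0⟩
  have hcard : Fintype.card ι = k + 1 := by
    rw [← Fintype.card_congr e, Fintype.card_fin]
  -- the functional `g`
  let g : (ι → ℚ) →ₗ[ℚ] ℚ :=
    { toFun := fun x => ∑ i, (m i : ℚ) * x i
      map_add' := fun x y => by simp [mul_add, sum_add_distrib]
      map_smul' := fun c x => by simp [mul_sum, mul_left_comm] }
  have hg : ∀ x, g x = ∑ i, (m i : ℚ) * x i := fun _ => rfl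
  obtain ⟨i0, hi0⟩ : ∃ i, m i ≠ 0 := Function.ne_iff.mp (Prim.ne_zero hm)
  set x0 : ι → ℚ := Pi.single i0 1 with hx0
  have hgx0 : g x0 = m i0 := by
    rw [hg, sum_eq_single i0]
    · simp [hx0]
    · intro b _ hb; simp [hx0, Pi.single_eq_of_ne hb]
    · intro h; exact absurd (mem_univ _) h
  have hgx0' : g x0 ≠ 0 := by rw [hgx0]; exact_mod_cast hi0
  have hker : Submodule.span ℚ (Set.range y) = LinearMap.ker g := by
    apply Submodule.eq_of_le_of_finrank_eq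
    · rw [Submodule.span_le]
      rintro _ ⟨j, rfl⟩
      exact hy j
    · rw [finrank_span_eq_card hli, Fintype.card_fin]
      have h1 := LinearMap.finrank_range_add_finrank_ker g
      have h2 : LinearMap.range g = ⊤ := by
        rw [LinearMap.range_eq_top]
        intro c
        refine ⟨(c / g x0) • x0, ?_⟩
        rw [map_smul, smul_eq_mul, div_mul_cancel₀ _ hgx0']
      rw [h2, finrank_top, Module.finrank_self, Module.finrank_fintype_fun_eq_card, hcard] at h1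
      omega
  have hf : ∀ x, x ∈ LinearMap.ker g → ∑ i, x i * h i = 0 := by
    intro x hx
    rw [← hker] at hx
    induction hx using Submodule.span_induction with
    | mem x hx => obtain ⟨r, rfl⟩ := hx; exact hh r
    | zero => simp
    | add x z _ _ hx hz =>
      simp only [Pi.add_apply, add_mul, sum_add_distrib, hx, hz, add_zero]
    | smul c x _ hx =>
      simp only [Pi.smul_apply, smul_eq_mul, mul_assoc, ← mul_sum, hx, mul_zero]
  have hsing : ∀ i, ∑ j, (Pi.single i 1 : ι → ℚ) j * h j = h i := by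
    intro i
    rw [sum_eq_single i]
    · simp
    · intro b _ hb; simp [Pi.single_eq_of_ne hb]
    · intro h; exact absurd (mem_univ _) h
  refine ⟨h i0 / g x0, fun i => ?_⟩
  have h1 : (Pi.single i 1 - (g (Pi.single i 1) / g x0) • x0 : ι → ℚ) ∈ LinearMap.ker g := by
    rw [LinearMap.mem_ker, map_sub, map_smul, smul_eq_mul, div_mul_cancel₀ _ hgx0', sub_self]
  have h2 := hf _ h1
  simp only [Pi.sub_apply, Pi.smul_apply, smul_eq_mul, sub_mul, sum_sub_distrib, mul_assoc,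
    ← mul_sum] at h2
  rw [hx0, hsing, hsing] at h2
  have h3 : g (Pi.single i 1) = m i := by
    rw [hg, sum_eq_single i]
    · simp
    · intro b _ hb; simp [Pi.single_eq_of_ne hb]
    · intro h; exact absurd (mem_univ _) h
  rw [← hx0] at h2
  rw [sub_eq_zero.mp h2, h3]
  field_simp

lemma exists_lambda {m : ι → ℤ} (hm : Prim m) {y : Fin k → ι → ℚ} (hli : LinearIndependent ℚ y)
    (hy : ∀ j, ∑ i, (m i : ℚ) * y j i = 0) :
    ∃ l : ℚ, l ≠ 0 ∧ ∀ i, cof e y i = l * m i := by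
  have : Nonempty ι := ⟨e 0⟩
  have hcard : Fintype.card ι = k + 1 := by
    rw [← Fintype.card_congr e, Fintype.card_fin]
  obtain ⟨l, hl⟩ := prop_of_vanish e hm hli hy (h := cof e y) (fun j => by
    rw [← dt_eq_sum]; exact dt_self e y j)
  refine ⟨l, ?_, hl⟩
  rintro rfl
  obtain ⟨x, hx⟩ : ∃ x : ι → ℚ, x ∉ Submodule.span ℚ (Set.range y) := by
    by_contra hcon
    push Not at hcon
    have h1 : Submodule.span ℚ (Set.range y) = ⊤ := by
      rw [eq_top_iff]; exact fun x _ => hcon x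
    have h2 := finrank_span_eq_card hli
    rw [h1, finrank_top, Module.finrank_fintype_fun_eq_card, hcard, Fintype.card_fin] at h2
    omega
  apply dt_ne_zero e (x := x) (y := y)
  · rw [linearIndependent_finCons]
    exact ⟨hli, hx⟩
  · rw [dt_eq_sum]
    simp [hl]

lemma pint_lambda {P : ℕ} {m : ι → ℤ} (hm : Prim m) {y : Fin k → ι → ℚ}
    (hy : ∀ j, PVec P (y j)) {l : ℚ} (hl : ∀ i, cof e y i = l * m i) : PInt P l := by
  obtain ⟨u, hu⟩ := Prim.bezout hm
  have h1 : l = ∑ i, (u i : ℚ) * cof e y i := by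
    calc l = l * ((∑ i, u i * m i : ℤ) : ℚ) := by rw [hu]; simp
      _ = _ := by
        push_cast
        rw [mul_sum]
        refine sum_congr rfl fun i _ => ?_
        rw [hl]; ring
  rw [h1, ← mem_pring]
  refine (pring P).sum_mem fun i _ => (pring P).mul_mem (PInt.of_int P _) ?_
  rw [mem_pring]
  apply det_mem_pring
  intro r c
  rw [Matrix.of_apply]
  refine Fin.cases ?_ (fun r => ?_) r
  · rw [Fin.cons_zero, Pi.single_apply]
    split_ifs
    · simpa using PInt.of_int P 1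
    · simpa using PInt.of_int P 0
  · rw [Fin.cons_succ]; exact hy r (e c)

end lam

/-! ### Forms over a normed field -/

section forms

variable {ι : Type*} [Fintype ι] [DecidableEq ι] {k : ℕ} (e : Fin (k + 1) ≃ ι)
  {F : Type*} [NormedField F] [CharZero F]

/-- values of the forms -/
noncomputable def lf (A : Matrix ι ι F) (x : ι → ℚ) : ι → F := A.mulVec (fun j => (x j : F))

/-- coefficients of the form `m` with respect to the forms of `A` -/
noncomputable def al (A : Matrix ι ι F) (m : ι → ℤ) : ι → F :=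
  Matrix.vecMul (fun j => (m j : F)) A⁻¹

lemma al_vecMul {A : Matrix ι ι F} (hA : A.det ≠ 0) (m : ι → ℤ) :
    Matrix.vecMul (al A m) A = fun j => (m j : F) := by
  unfold al
  rw [Matrix.vecMul_vecMul, Matrix.nonsing_inv_mul _ (isUnit_iff_ne_zero.mpr hA),
    Matrix.vecMul_one]

lemma al_dot {A : Matrix ι ι F} (hA : A.det ≠ 0) (m : ι → ℤ) (x : ι → ℚ) :
    ∑ i, al A m i * lf A x i = ((∑ i, (m i : ℚ) * x i : ℚ) : F) := by
  have h : ∑ i, al A m i * lf A x i = dotProduct (al A m) (A.mulVec (fun j => (x j : F))) := rfl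
  rw [h, Matrix.dotProduct_mulVec, al_vecMul hA]
  push_cast
  rfl

lemma exists_al [Nonempty ι] {A : Matrix ι ι F} (hA : A.det ≠ 0) : ∃ K : ℝ, 0 < K ∧
    ∀ m : ι → ℤ, ∃ i, ∀ j, ‖(m j : F)‖ ≤ K * ‖al A m i‖ := by
  refine ⟨1 + ∑ i, ∑ j, ‖A i j‖, by positivity, fun m => ?_⟩
  obtain ⟨i, hi⟩ := Finite.exists_max (fun i => ‖al A m i‖)
  refine ⟨i, fun j => ?_⟩
  have h1 : (m j : F) = ∑ i, al A m i * A i j := by
    have := congrFun (al_vecMul hA m) j
    rw [← this]; rfl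
  rw [h1]
  calc _ ≤ ∑ i', ‖al A m i' * A i' j‖ := norm_sum_le _ _
    _ ≤ ∑ i', ‖al A m i‖ * ‖A i' j‖ := by
        refine sum_le_sum fun i' _ => ?_
        rw [norm_mul]
        exact mul_le_mul_of_nonneg_right (hi i') (norm_nonneg _)
    _ = (∑ i', ‖A i' j‖) * ‖al A m i‖ := by rw [← mul_sum, mul_comm]
    _ ≤ _ := by
        apply mul_le_mul_of_nonneg_right _ (norm_nonneg _)
        have h2 : ∑ i', ‖A i' j‖ ≤ ∑ i', ∑ j, ‖A i' j‖ :=
          sum_le_sum fun i' _ => single_le_sum (f := fun j => ‖A i' j‖)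
            (fun _ _ => norm_nonneg _) (mem_univ j)
        linarith

lemma main_bound {A : Matrix ι ι F} (hA : A.det ≠ 0) {m : ι → ℤ} {y : Fin k → ι → ℚ} {l : ℚ}
    (hl : ∀ i, cof e y i = l * m i) {a : ι → ℝ} (ha : ∀ i, 0 < a i) {b : Fin k → ℝ}
    (hb : ∀ r i, ‖lf A (y r) i‖ ≤ a i * b r) (i : ι) :
    ‖(l : F)‖ * ‖al A m i‖ * ‖A.det‖ * a i
      ≤ ((k + 1).factorial : ℝ) * (∏ i, a i) * ∏ r, b r := by
  set x : ι → F := A⁻¹.mulVec (Pi.single i 1) with hx
  have h1 : dt e x (fun r j => ((y r j : ℚ) : F)) = (l : F) * al A m i := by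
    rw [dt_eq_sum]
    have h2 : ∀ j, cof e (fun r j => ((y r j : ℚ) : F)) j = (l : F) * (m j : F) := by
      intro j
      have := map_cof e (Rat.castHom F) y j
      rw [hl j] at this
      rw [show (fun r j => ((y r j : ℚ) : F)) = (fun r i => (Rat.castHom F) (y r i)) from rfl,
        ← this]
      simp
    simp only [h2]
    have h3 : al A m i = dotProduct (al A m) (Pi.single i 1) := by
      rw [dotProduct_single, mul_one]
    rw [h3, al, ← Matrix.dotProduct_mulVec, ← hx, dotProduct, mul_sum]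
    exact sum_congr rfl fun j _ => by ring
  have h4 : dt e (Pi.single i 1) (fun r => lf A (y r)) = (l : F) * al A m i * A.det := by
    rw [← h1, ← dt_mulVec]
    congr 1
    rw [hx, Matrix.mulVec_mulVec, Matrix.mul_nonsing_inv _ (isUnit_iff_ne_zero.mpr hA),
      Matrix.one_mulVec]
  have h5 := norm_dt_le e (a := a) (x := Pi.single i 1) (y := fun r => lf A (y r))
    (bx := (a i)⁻¹) (b := b) (fun i => (ha i).le) (by
      intro j
      by_cases hj : j = i
      · subst hj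
        rw [Pi.single_eq_same, norm_one, mul_inv_cancel₀ (ha j).ne']
      · rw [Pi.single_eq_of_ne hj, norm_zero]
        exact mul_nonneg (ha j).le (inv_nonneg.mpr (ha i).le)) (fun r i => hb r i)
  rw [h4, norm_mul, norm_mul] at h5
  have h6 := mul_le_mul_of_nonneg_right h5 (ha i).le
  refine h6.trans (le_of_eq ?_)
  have := (ha i).ne'
  field_simp

lemma dot_bound {A : Matrix ι ι F} (hA : A.det ≠ 0) {m : ι → ℤ} {x : ι → ℚ} {a : ι → ℝ}
    {b M : ℝ} (hb0 : 0 ≤ b)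
    (hb : ∀ i, ‖lf A x i‖ ≤ a i * b) (hM : ∀ i, al A m i ≠ 0 → a i ≤ M) :
    ‖((∑ i, (m i : ℚ) * x i : ℚ) : F)‖ ≤ (∑ i, ‖al A m i‖) * (M * b) := by
  rw [← al_dot hA, sum_mul]
  refine (norm_sum_le _ _).trans (sum_le_sum fun i _ => ?_)
  rw [norm_mul]
  by_cases h : al A m i = 0
  · simp [h]
  · exact mul_le_mul_of_nonneg_left ((hb i).trans (mul_le_mul_of_nonneg_right (hM i h) hb0))
      (norm_nonneg _)

end forms

/-! ### Sizes -/

section sizes

variable {ι : Type*} [Fintype ι] [DecidableEq ι] {T : Type*} [Fintype T] {p : T → ℕ}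
  [∀ t, Fact (p t).Prime]

lemma Ninf_bound (S : Sys ι T p) {a : ι → ℝ} (ha : ∀ i, 0 < a i) (x : ι → ℚ) (i : ι) :
    ‖lf S.A x i‖ ≤ a i * S.Ninf a x := by
  have h1 : ‖S.L x i / a i‖ ≤ S.Ninf a x := norm_le_pi_norm (fun i => S.L x i / a i) i
  rw [norm_div, Real.norm_of_nonneg (ha i).le, div_le_iff₀ (ha i), mul_comm] at h1
  exact h1

lemma Np_bound (S : Sys ι T p) (t : T) {a : ι → ℝ} (ha : ∀ i, 0 < a i) (x : ι → ℚ) (i : ι) :
    ‖lf (S.A' t) x i‖ ≤ a i * S.Np t a x := by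
  have h1 : ‖‖S.L' t x i‖ / a i‖ ≤ S.Np t a x := norm_le_pi_norm (fun i => ‖S.L' t x i‖ / a i) i
  rw [norm_div, Real.norm_of_nonneg (ha i).le, norm_norm, div_le_iff₀ (ha i), mul_comm] at h1
  exact h1

lemma Ninf_nonneg (S : Sys ι T p) (a : ι → ℝ) (x : ι → ℚ) : 0 ≤ S.Ninf a x := norm_nonneg _

lemma Np_nonneg (S : Sys ι T p) (t : T) (a : ι → ℝ) (x : ι → ℚ) : 0 ≤ S.Np t a x :=
  norm_nonneg _

lemma L_smul (S : Sys ι T p) (c : ℚ) (x : ι → ℚ) (i : ι) : S.L (c • x) i = c * S.L x i := by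
  unfold Sys.L
  rw [mul_sum]
  refine sum_congr rfl fun j _ => ?_
  rw [Pi.smul_apply, smul_eq_mul]; push_cast; ring

lemma L'_smul (S : Sys ι T p) (t : T) (c : ℚ) (x : ι → ℚ) (i : ι) :
    S.L' t (c • x) i = c * S.L' t x i := by
  unfold Sys.L'
  rw [mul_sum]
  refine sum_congr rfl fun j _ => ?_
  rw [Pi.smul_apply, smul_eq_mul]; push_cast; ring

lemma Ninf_smul (S : Sys ι T p) (a : ι → ℝ) (c : ℚ) (x : ι → ℚ) :
    S.Ninf a (c • x) = |(c : ℝ)| * S.Ninf a x := by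
  unfold Sys.Ninf
  rw [← Real.norm_eq_abs, ← norm_smul]
  congr 1
  funext i
  rw [L_smul, Pi.smul_apply, smul_eq_mul, mul_div_assoc]

lemma Np_smul (S : Sys ι T p) (t : T) (a : ι → ℝ) (c : ℚ) (x : ι → ℚ) :
    S.Np t a (c • x) = ‖(c : ℚ_[p t])‖ * S.Np t a x := by
  unfold Sys.Np
  have : ‖(c : ℚ_[p t])‖ = ‖(‖(c : ℚ_[p t])‖ : ℝ)‖ := (norm_norm _).symm
  rw [this, ← norm_smul]
  congr 1
  funext i
  rw [L'_smul, Pi.smul_apply, smul_eq_mul, norm_mul, mul_div_assoc]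

lemma N_smul (S : Sys ι T p) (a : ι → ℝ) (a' : T → ι → ℝ) (c : ℚ) (x : ι → ℚ) :
    S.N a a' (c • x) = absS p c * S.N a a' x := by
  unfold Sys.N absS
  simp only [Ninf_smul, Np_smul, prod_mul_distrib]
  ring

lemma lf_ne_zero {F : Type*} [NormedField F] [CharZero F] {A : Matrix ι ι F} (hA : A.det ≠ 0)
    {x : ι → ℚ} (hx : x ≠ 0) : ∃ i, lf A x i ≠ 0 := by
  by_contra hcon
  push Not at hcon
  have h1 : A.mulVec (fun j => (x j : F)) = 0 := funext hcon
  have h2 := Matrix.eq_zero_of_mulVec_eq_zero hA h1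
  apply hx
  funext j
  have := congrFun h2 j
  simpa using this

lemma Np_pos (S : Sys ι T p) (t : T) {a : ι → ℝ} (ha : ∀ i, 0 < a i) {x : ι → ℚ} (hx : x ≠ 0) :
    0 < S.Np t a x := by
  obtain ⟨i, hi⟩ := lf_ne_zero (S.detA' t) hx
  have h1 := Np_bound S t ha x i
  have h2 : 0 < ‖lf (S.A' t) x i‖ := norm_pos_iff.mpr hi
  by_contra hcon
  have h3 : S.Np t a x = 0 := le_antisymm (not_lt.mp hcon) (Np_nonneg S t a x)
  rw [h3, mul_zero] at h1
  linarith

lemma absS_inv (x : ℚ) : absS p x⁻¹ = (absS p x)⁻¹ := by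
  unfold absS
  push_cast
  simp only [abs_inv, norm_inv, prod_inv_distrib, mul_inv]

lemma absS_zpow (x : ℚ) (k : ℤ) : absS p (x ^ k) = absS p x ^ k := by
  cases k with
  | ofNat n => simp [absS_pow]
  | negSucc n => rw [zpow_negSucc, zpow_negSucc, absS_inv, absS_pow]

lemma norm_prod_zpow (hp : Function.Injective p) (k : T → ℤ) (t : T) :
    ‖((∏ s, (p s : ℚ) ^ (k s) : ℚ) : ℚ_[p t])‖ = (p t : ℝ) ^ (-(k t)) := by
  classical
  push_cast
  rw [norm_prod, prod_eq_single t]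
  · rw [norm_zpow, Padic.norm_p, inv_zpow, zpow_neg]
  · intro s _ hst
    rw [norm_zpow]
    have h1 : ‖((p s : ℕ) : ℚ_[p t])‖ = 1 := by
      rw [Padic.norm_natCast_eq_one_iff]
      exact (Nat.coprime_primes (Fact.out : (p t).Prime) (Fact.out : (p s).Prime)).mpr
        (fun h => hst (hp h).symm)
    rw [h1, one_zpow]
  · intro h; exact absurd (mem_univ t) h

lemma pint_prime (t : T) : PInt (pprod p) (p t : ℚ) := by
  have := PInt.of_int (pprod p) (p t : ℤ)
  simpa using this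

lemma pint_inv_prime (t : T) : PInt (pprod p) ((p t : ℚ)⁻¹) := by
  classical
  refine ⟨1, ∏ s ∈ univ.erase t, (p s : ℤ), ?_⟩
  have h0 : (p t : ℚ) ≠ 0 := by exact_mod_cast (Fact.out : (p t).Prime).ne_zero
  unfold pprod
  push_cast
  rw [pow_one, ← mul_prod_erase univ (fun s => (p s : ℚ)) (mem_univ t), ← mul_assoc,
    inv_mul_cancel₀ h0, one_mul]

lemma pint_zpow (t : T) (k : ℤ) : PInt (pprod p) ((p t : ℚ) ^ k) := by
  cases k with
  | ofNat n =>
    have := (pring (pprod p)).pow_mem (pint_prime t) n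
    rw [Int.ofNat_eq_natCast, zpow_natCast]
    exact this
  | negSucc n =>
    rw [zpow_negSucc, ← inv_pow]
    exact (pring (pprod p)).pow_mem (pint_inv_prime t) _

lemma exists_scale (hp : Function.Injective p) (S : Sys ι T p) {a' : T → ι → ℝ}
    (ha : ∀ t i, 0 < a' t i) {x : ι → ℚ} (hx : x ≠ 0) :
    ∃ s : ℚ, s ≠ 0 ∧ PInt (pprod p) s ∧ absS p s = 1 ∧
      ∀ t, ((p t : ℝ))⁻¹ ≤ S.Np t (a' t) (s • x) ∧ S.Np t (a' t) (s • x) ≤ 1 := by
  have h1 : ∀ t, ∃ n : ℤ, S.Np t (a' t) x ∈ Set.Ioc ((p t : ℝ) ^ n) ((p t : ℝ) ^ (n + 1)) :=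
    fun t => exists_mem_Ioc_zpow (Np_pos S t (ha t) hx)
      (by exact_mod_cast (Fact.out : (p t).Prime).one_lt)
  choose n hn using h1
  have hppos : ∀ t, (0 : ℝ) < p t := fun t => by exact_mod_cast (Fact.out : (p t).Prime).pos
  refine ⟨∏ t, (p t : ℚ) ^ (n t + 1), ?_, ?_, ?_, ?_⟩
  · exact prod_ne_zero_iff.mpr fun t _ => zpow_ne_zero _
      (by exact_mod_cast (Fact.out : (p t).Prime).ne_zero)
  · exact (pring (pprod p)).prod_mem fun t _ => pint_zpow t _
  · rw [absS_prod]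
    refine prod_eq_one fun t _ => ?_
    rw [absS_zpow, absS_prime hp, one_zpow]
  · intro t
    rw [Np_smul, norm_prod_zpow hp]
    obtain ⟨h2, h3⟩ := hn t
    have h4 : (0 : ℝ) < (p t : ℝ) ^ (-(n t + 1)) := zpow_pos (hppos t) _
    constructor
    · calc ((p t : ℝ))⁻¹ = (p t : ℝ) ^ (-(n t + 1)) * (p t : ℝ) ^ (n t) := by
            rw [← zpow_add₀ (hppos t).ne', show -(n t + 1) + n t = -1 by ring, zpow_neg_one]
        _ ≤ _ := mul_le_mul_of_nonneg_left h2.le h4.le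
    · calc _ ≤ (p t : ℝ) ^ (-(n t + 1)) * (p t : ℝ) ^ (n t + 1) :=
            mul_le_mul_of_nonneg_left h3 h4.le
        _ = 1 := by
            rw [← zpow_add₀ (hppos t).ne', show -(n t + 1) + (n t + 1) = 0 by ring, zpow_zero]

end sizes

/-! ### Heights -/

section heights

variable {ι : Type*} [Fintype ι]

lemma htv_ge (m : ι → ℤ) (i : ι) : |(m i : ℝ)| ≤ htv m := by
  unfold htv
  rw [← Int.cast_abs, Int.abs_eq_natAbs, Int.cast_natCast]
  exact_mod_cast Finset.le_sup (f := fun i => (m i).natAbs) (mem_univ i)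

lemma htv_le [Nonempty ι] {m : ι → ℤ} {R : ℝ} (h : ∀ i, |(m i : ℝ)| ≤ R) : htv m ≤ R := by
  obtain ⟨i, _, hi⟩ := Finset.exists_mem_eq_sup (univ : Finset ι) univ_nonempty
    (fun i => (m i).natAbs)
  unfold htv
  rw [hi]
  refine le_trans (le_of_eq ?_) (h i)
  rw [← Int.cast_abs, Int.abs_eq_natAbs, Int.cast_natCast]

lemma htv_nonneg (m : ι → ℤ) : 0 ≤ htv m := by unfold htv; positivity

lemma one_le_htv {m : ι → ℤ} (hm : m ≠ 0) : 1 ≤ htv m := by
  obtain ⟨i, hi⟩ := Function.ne_iff.mp hm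
  refine le_trans ?_ (htv_ge m i)
  have : 1 ≤ |m i| := Int.one_le_abs hi
  exact_mod_cast this

lemma finite_box (B : ι → ℤ) : {m : ι → ℤ | ∀ i, |m i| ≤ B i}.Finite := by
  have h := Set.Finite.pi (t := fun i => Set.Icc (-(B i)) (B i))
    (fun i => Set.finite_Icc (-(B i)) (B i))
  refine h.subset fun m hm => ?_
  rw [Set.mem_pi]
  intro i _
  exact abs_le.mp (hm i)

lemma finite_htv (R : ℝ) : {m : ι → ℤ | htv m ≤ R}.Finite := by
  refine (finite_box (fun _ : ι => ⌊R⌋)).subset fun m hm i => ?_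
  rw [Int.le_floor]
  have := (htv_ge m i).trans hm
  push_cast
  exact this

lemma unif_liou {V : Type*} [Finite V] [Nonempty V] (X : V → (ι → ℤ) → ℝ)
    (h : ∀ v, ∃ c C : ℝ, 0 < c ∧ 0 < C ∧ ∀ m : ι → ℤ, m ≠ 0 → X v m ≠ 0 →
      c * htv m ^ (-C) ≤ X v m) :
    ∃ c C : ℝ, 0 < c ∧ 0 < C ∧ ∀ v, ∀ m : ι → ℤ, m ≠ 0 → X v m ≠ 0 →
      c * htv m ^ (-C) ≤ X v m := by
  choose c C hc hC h using h
  obtain ⟨v0, hv0⟩ := Finite.exists_min c
  obtain ⟨v1, hv1⟩ := Finite.exists_max C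
  refine ⟨c v0, C v1, hc _, hC _, fun v m hm hX => le_trans ?_ (h v m hm hX)⟩
  have h1 := one_le_htv hm
  apply mul_le_mul (hv0 v) _ (Real.rpow_nonneg (htv_nonneg m) _) (hc v).le
  exact Real.rpow_le_rpow_of_exponent_le h1 (by linarith [hv1 v])

end heights

/-! ### The product over all places -/

section places

variable {ι : Type*} [Fintype ι] [DecidableEq ι] {T : Type*} [Fintype T] {p : T → ℕ}
  [∀ t, Fact (p t).Prime] {k : ℕ} (e : Fin (k + 1) ≃ ι)

include e in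
lemma prod_bound (hp : Function.Injective p) (S : Sys ι T p) {a : ι → ℝ} {a' : T → ι → ℝ}
    (ha : ∀ i, 0 < a i) (ha' : ∀ t i, 0 < a' t i) {m : ι → ℤ} (hm : Prim m)
    {y : Fin k → ι → ℚ} (hli : LinearIndependent ℚ y) (hy : ∀ j, PVec (pprod p) (y j))
    (horth : ∀ j, ∑ i, (m i : ℚ) * y j i = 0) (i : ι) (l : T → ι) :
    (‖al S.A m i‖ * ∏ t, ‖al (S.A' t) m (l t)‖) * (a i * ∏ t, a' t (l t)) *
      (‖S.A.det‖ * ∏ t, ‖(S.A' t).det‖) ≤
    ((k + 1).factorial : ℝ) ^ (1 + Fintype.card T) * wprod a a' * ∏ r, S.N a a' (y r) := by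
  obtain ⟨g, hg0, hg⟩ := exists_lambda e hm hli horth
  have hgP := pint_lambda e hm hy hg
  have h1 := one_le_absS hp hgP hg0
  have hR := main_bound e S.detA hg ha (b := fun r => S.Ninf a (y r))
    (fun r i => Ninf_bound S ha (y r) i) i
  have hP : ∀ t, _ := fun t => main_bound e (S.detA' t) hg (ha' t)
    (b := fun r => S.Np t (a' t) (y r)) (fun r i => Np_bound S t (ha' t) (y r) i) (l t)
  have h2 := mul_le_mul hR (prod_le_prod (s := univ) (fun t _ => by
      have := (ha' t (l t)).le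
      positivity) fun t _ => hP t) (prod_nonneg fun t _ => by
      have := (ha' t (l t)).le
      positivity) (by
      have h3 : 0 ≤ ∏ i, a i := prod_nonneg fun i _ => (ha i).le
      have h4 : 0 ≤ ∏ r, S.Ninf a (y r) := prod_nonneg fun r _ => Ninf_nonneg _ _ _
      positivity)
  have h5 : 0 ≤ (‖al S.A m i‖ * ∏ t, ‖al (S.A' t) m (l t)‖) * (a i * ∏ t, a' t (l t)) *
      (‖S.A.det‖ * ∏ t, ‖(S.A' t).det‖) := by
    have h3 : 0 ≤ ∏ t, a' t (l t) := prod_nonneg fun t _ => (ha' t _).le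
    have := (ha i).le
    positivity
  calc _ ≤ absS p g * ((‖al S.A m i‖ * ∏ t, ‖al (S.A' t) m (l t)‖) * (a i * ∏ t, a' t (l t)) *
      (‖S.A.det‖ * ∏ t, ‖(S.A' t).det‖)) := le_mul_of_one_le_left h5 h1
    _ = _ := by
        unfold absS
        rw [← Real.norm_eq_abs]
        simp only [← mul_assoc]
        rw [show ∀ (A B C D E F G H : ℝ), A * B * C * D * E * F * G * H
          = (A * C * G * E) * (B * D * H * F) from fun A B C D E F G H => by ring]
        rw [← prod_mul_distrib, ← prod_mul_distrib, ← prod_mul_distrib]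
    _ ≤ _ := h2
    _ = _ := by
        unfold wprod Sys.N
        simp only [prod_mul_distrib, prod_const, card_univ]
        rw [prod_comm (s := (univ : Finset T)) (t := (univ : Finset (Fin k)))]
        rw [pow_add, pow_one]
        ring

lemma exists_unit {m : ι → ℤ} (hm : Prim m) (t : T) :
    ∃ j, ‖(m j : ℚ_[p t])‖ = 1 := by
  by_contra hcon
  push Not at hcon
  have h1 : IsUnit (p t : ℤ) := by
    apply hm
    intro i
    rw [← Padic.norm_intCast_lt_one_iff]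
    exact lt_of_le_of_ne (Padic.norm_int_le_one _) (hcon i)
  have h2 : (p t).Prime := Fact.out
  rw [Int.isUnit_iff] at h1
  have h3 := h2.two_le
  omega

end places

/-! ### The theorem -/

section final

variable {ι : Type} [Fintype ι] [DecidableEq ι] {T : Type} [Fintype T] {p : T → ℕ}
  [∀ t, Fact (p t).Prime]

/-- first inequality, with `wprod ≤ 1` and small sizes -/
lemma step1 (S : Sys ι T p) (hp : Function.Injective p) {k : ℕ} (hk1 : 1 ≤ k)
    (e : Fin (k + 1) ≃ ι) {δ : ℝ} (hδ : 0 < δ) {Q : ℝ} (hQ : 1 ≤ Q)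
    {a : ι → ℝ} {a' : T → ι → ℝ}
    (ha : ∀ i, 0 < a i) (ha' : ∀ t i, 0 < a' t i) {m : ι → ℤ} (hm : Prim m)
    {y : Fin k → ι → ℚ} (hli : LinearIndependent ℚ y) (hy : ∀ j, PVec (pprod p) (y j))
    (horth : ∀ j, ∑ i, (m i : ℚ) * y j i = 0) (hw : wprod a a' ≤ 1)
    (hN : ∀ j, S.N a a' (y j) ≤ Q ^ (-δ)) (i : ι) (l : T → ι) :
    (‖al S.A m i‖ * ∏ t, ‖al (S.A' t) m (l t)‖) * (a i * ∏ t, a' t (l t)) ≤
    (((k + 1).factorial : ℝ) ^ (1 + Fintype.card T) / (‖S.A.det‖ * ∏ t, ‖(S.A' t).det‖)) *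
      Q ^ (-δ) := by
  have hD : 0 < ‖S.A.det‖ * ∏ t, ‖(S.A' t).det‖ :=
    mul_pos (norm_pos_iff.mpr S.detA) (prod_pos fun t _ => norm_pos_iff.mpr (S.detA' t))
  have h1 := prod_bound e hp S ha ha' hm hli hy horth i l
  rw [div_mul_eq_mul_div, le_div_iff₀ hD]
  refine h1.trans ?_
  have h2 : (∏ r, S.N a a' (y r)) ≤ Q ^ (-δ) := by
    have h3 : (∏ r : Fin k, S.N a a' (y r)) ≤ ∏ r : Fin k, Q ^ (-δ) :=
      prod_le_prod (fun r _ => mul_nonneg (Ninf_nonneg _ _ _)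
        (prod_nonneg fun t _ => Np_nonneg _ _ _ _)) fun r _ => hN r
    rw [prod_const, card_univ, Fintype.card_fin] at h3
    refine h3.trans (pow_le_of_le_one (by positivity) ?_ (by omega))
    exact Real.rpow_le_one_of_one_le_of_nonpos hQ (by linarith)
  have h4 : 0 ≤ wprod a a' := mul_nonneg (prod_nonneg fun i _ => (ha i).le)
    (prod_nonneg fun t _ => prod_nonneg fun i _ => (ha' t i).le)
  have h5 : 0 ≤ Q ^ (-δ) := by positivity
  have h6 : 0 ≤ ∏ r, S.N a a' (y r) := prod_nonneg fun r _ => mul_nonneg (Ninf_nonneg _ _ _)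
        (prod_nonneg fun t _ => Np_nonneg _ _ _ _)
  rw [mul_assoc]
  apply mul_le_mul_of_nonneg_left _ (by positivity)
  calc _ ≤ 1 * Q ^ (-δ) := mul_le_mul hw h2 h6 zero_le_one
    _ = _ := one_mul _

/-- height bound -/
lemma step2 [Nonempty ι] (S : Sys ι T p) : ∃ C3 : ℝ, 0 < C3 ∧ ∀ (C2 Q B : ℝ), 1 ≤ Q → 0 ≤ C2 →
    ∀ (a : ι → ℝ) (a' : T → ι → ℝ), (∀ i, Q ^ (-B) ≤ a i) → (∀ t i, Q ^ (-B) ≤ a' t i) →
    ∀ m : ι → ℤ, Prim m → (∀ (i : ι) (l : T → ι),
      (‖al S.A m i‖ * ∏ t, ‖al (S.A' t) m (l t)‖) * (a i * ∏ t, a' t (l t)) ≤ C2) →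
      htv m ≤ C3 * C2 * Q ^ (B * (1 + Fintype.card T)) := by
  obtain ⟨K, hK, hK'⟩ := exists_al S.detA
  have h1 := fun t => exists_al (S.detA' t)
  choose KT hKT hKT' using h1
  refine ⟨K * ∏ t, KT t, mul_pos hK (prod_pos fun t _ => hKT t), ?_⟩
  intro C2 Q B hQ hC2 a a' ha ha' m hm hX
  obtain ⟨i, hi⟩ := hK' m
  have h2 := fun t => hKT' t m
  choose l hl using h2
  have hQ0 : 0 < Q := by linarith
  have h3 : htv m ≤ K * ‖al S.A m i‖ := htv_le fun j => by
    rw [← Real.norm_eq_abs]; exact hi j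
  have h4 : ∀ t, 1 ≤ KT t * ‖al (S.A' t) m (l t)‖ := by
    intro t
    obtain ⟨j, hj⟩ := exists_unit (p := p) hm t
    rw [← hj]; exact hl t j
  have h5 : (1 : ℝ) ≤ ∏ t, (KT t * ‖al (S.A' t) m (l t)‖) := by
    calc (1 : ℝ) = ∏ _t : T, (1 : ℝ) := by simp
      _ ≤ _ := prod_le_prod (fun _ _ => zero_le_one) fun t _ => h4 t
  have h6 : htv m ≤ (K * ∏ t, KT t) * (‖al S.A m i‖ * ∏ t, ‖al (S.A' t) m (l t)‖) := by
    calc htv m ≤ htv m * ∏ t, (KT t * ‖al (S.A' t) m (l t)‖) :=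
          le_mul_of_one_le_right (htv_nonneg m) h5
      _ ≤ (K * ‖al S.A m i‖) * ∏ t, (KT t * ‖al (S.A' t) m (l t)‖) :=
          mul_le_mul_of_nonneg_right h3 (by linarith)
      _ = _ := by rw [prod_mul_distrib]; ring
  have h7 : (Q ^ (B * (1 + Fintype.card T)))⁻¹ ≤ a i * ∏ t, a' t (l t) := by
    calc (Q ^ (B * (1 + Fintype.card T)))⁻¹ = Q ^ (-B) * ∏ _t : T, Q ^ (-B) := by
          rw [prod_const, card_univ, ← Real.rpow_natCast, ← Real.rpow_mul hQ0.le,
            ← Real.rpow_add hQ0, ← Real.rpow_neg hQ0.le]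
          congr 1; ring
      _ ≤ _ := mul_le_mul (ha i) (prod_le_prod (fun _ _ => by positivity) fun t _ => ha' t _)
          (by positivity) ((by positivity : 0 ≤ Q ^ (-B)).trans (ha i))
  set X := ‖al S.A m i‖ * ∏ t, ‖al (S.A' t) m (l t)‖ with hXdef
  have hX0 : 0 ≤ X := by positivity
  have hE : 0 < Q ^ (B * (1 + Fintype.card T)) := by positivity
  have h8 : X ≤ C2 * Q ^ (B * (1 + Fintype.card T)) := by
    have h9 : X * (Q ^ (B * (1 + Fintype.card T)))⁻¹ ≤ C2 :=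
      (mul_le_mul_of_nonneg_left h7 hX0).trans (hX i l)
    rwa [← div_eq_mul_inv, div_le_iff₀ hE] at h9
  calc htv m ≤ (K * ∏ t, KT t) * X := h6
    _ ≤ (K * ∏ t, KT t) * (C2 * Q ^ (B * (1 + Fintype.card T))) :=
        mul_le_mul_of_nonneg_left h8 (mul_pos hK (prod_pos fun t _ => hKT t)).le
    _ = _ := by ring

/-- lower bound by Liouville -/
lemma step3 (S : Sys ι T p) {c Cc δ1 Q : ℝ} (hc : 0 < c) (hCc : 0 < Cc) (hQ : 1 ≤ Q) {m : ι → ℤ}
    (hm0 : m ≠ 0) (hm : htv m ≤ Q ^ δ1)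
    (hR : ∀ i, al S.A m i ≠ 0 → c * htv m ^ (-Cc) ≤ ‖al S.A m i‖)
    (hP : ∀ t i, al (S.A' t) m i ≠ 0 → c * htv m ^ (-Cc) ≤ ‖al (S.A' t) m i‖)
    {i : ι} {l : T → ι} (hi : al S.A m i ≠ 0) (hl : ∀ t, al (S.A' t) m (l t) ≠ 0) :
    c ^ (1 + Fintype.card T) * Q ^ (-(δ1 * Cc * (1 + Fintype.card T))) ≤
      ‖al S.A m i‖ * ∏ t, ‖al (S.A' t) m (l t)‖ := by
  have hQ0 : 0 < Q := by linarith
  have h1 := one_le_htv hm0
  have h2 : c * Q ^ (-(δ1 * Cc)) ≤ c * htv m ^ (-Cc) := by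
    apply mul_le_mul_of_nonneg_left _ hc.le
    rw [← mul_neg, Real.rpow_mul hQ0.le]
    exact Real.rpow_le_rpow_of_nonpos (by linarith) hm (by linarith)
  have h3 : 0 ≤ c * Q ^ (-(δ1 * Cc)) := by positivity
  calc c ^ (1 + Fintype.card T) * Q ^ (-(δ1 * Cc * (1 + Fintype.card T)))
      = (c * Q ^ (-(δ1 * Cc))) * ∏ _t : T, (c * Q ^ (-(δ1 * Cc))) := by
        rw [prod_const, card_univ, ← pow_succ', add_comm 1 (Fintype.card T), mul_pow]
        congr 1
        rw [← Real.rpow_natCast (Q ^ _), ← Real.rpow_mul hQ0.le]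
        congr 1; push_cast; ring
    _ ≤ _ := mul_le_mul (h2.trans (hR i hi)) (prod_le_prod (fun _ _ => h3) fun t _ =>
        h2.trans (hP t _ (hl t))) (prod_nonneg fun _ _ => h3) (norm_nonneg _)

/-- an integral vector with smaller supports is orthogonal to all `y j` -/
lemma step4 (S : Sys ι T p) (hp : Function.Injective p) {a : ι → ℝ} {a' : T → ι → ℝ}
    (ha : ∀ i, 0 < a i) (ha' : ∀ t i, 0 < a' t i) {m m' : ι → ℤ} {Y : ℝ}
    (hmR : ∃ i, al S.A m i ≠ 0) (hmP : ∀ t, ∃ i, al (S.A' t) m i ≠ 0)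
    (hY : ∀ (i : ι) (l : T → ι), al S.A m i ≠ 0 → (∀ t, al (S.A' t) m (l t) ≠ 0) →
      a i * ∏ t, a' t (l t) ≤ Y)
    (hR : ∀ i, al S.A m' i ≠ 0 → al S.A m i ≠ 0)
    (hP : ∀ t i, al (S.A' t) m' i ≠ 0 → al (S.A' t) m i ≠ 0) {y : ι → ℚ}
    (hy : PVec (pprod p) y)
    (hlt : ((∑ i, ‖al S.A m' i‖) * ∏ t, ∑ i, ‖al (S.A' t) m' i‖) * Y * S.N a a' y < 1) :
    ∑ i, y i * (m' i : ℚ) = 0 := by
  classical
  obtain ⟨i, hi, hi'⟩ := Finset.exists_max_image (univ.filter fun i => al S.A m i ≠ 0) a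
    (by obtain ⟨i, hi⟩ := hmR; exact ⟨i, by simp [hi]⟩)
  have h1 : ∀ t, ∃ i ∈ (univ.filter fun i => al (S.A' t) m i ≠ 0),
      ∀ j ∈ (univ.filter fun i => al (S.A' t) m i ≠ 0), a' t j ≤ a' t i := fun t =>
    Finset.exists_max_image _ (a' t) (by obtain ⟨i, hi⟩ := hmP t; exact ⟨i, by simp [hi]⟩)
  choose l hl hl' using h1
  simp only [mem_filter, mem_univ, true_and] at hi hi' hl hl'
  have hYi := hY i l hi hl
  by_contra hne
  have hcomm : ∑ i, y i * (m' i : ℚ) = ∑ i, (m' i : ℚ) * y i :=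
    sum_congr rfl fun i _ => mul_comm _ _
  rw [hcomm] at hne
  have hPI : PInt (pprod p) (∑ i, (m' i : ℚ) * y i) :=
    (pring (pprod p)).sum_mem fun i _ => (pring (pprod p)).mul_mem (PInt.of_int _ _) (hy i)
  have h2 := one_le_absS hp hPI hne
  have hbR := dot_bound S.detA (m := m') (x := y) (a := a) (Ninf_nonneg S a y)
    (Ninf_bound S ha y) (M := a i) (fun j hj => hi' j (hR j hj))
  have hbP := fun t => dot_bound (S.detA' t) (m := m') (x := y) (a := a' t)
    (Np_nonneg S t (a' t) y) (Np_bound S t (ha' t) y) (M := a' t (l t))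
    (fun j hj => hl' t j (hP t j hj))
  have h3 : absS p (∑ i, (m' i : ℚ) * y i) ≤
      ((∑ i, ‖al S.A m' i‖) * ∏ t, ∑ i, ‖al (S.A' t) m' i‖) * (a i * ∏ t, a' t (l t)) *
        S.N a a' y := by
    unfold absS
    rw [← Real.norm_eq_abs]
    calc _ ≤ ((∑ i, ‖al S.A m' i‖) * (a i * S.Ninf a y)) *
          ∏ t, ((∑ i, ‖al (S.A' t) m' i‖) * (a' t (l t) * S.Np t (a' t) y)) := by
            apply mul_le_mul hbR (prod_le_prod (fun _ _ => norm_nonneg _) fun t _ => hbP t)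
              (prod_nonneg fun _ _ => norm_nonneg _)
            have := (ha i).le
            have := Ninf_nonneg S a y
            positivity
      _ = _ := by
            unfold Sys.N
            simp only [prod_mul_distrib]
            ring
  have h4 : 0 ≤ S.N a a' y := mul_nonneg (Ninf_nonneg _ _ _)
    (prod_nonneg fun t _ => Np_nonneg _ _ _ _)
  have h5 : ((∑ i, ‖al S.A m' i‖) * ∏ t, ∑ i, ‖al (S.A' t) m' i‖) * (a i * ∏ t, a' t (l t)) *
        S.N a a' y ≤ ((∑ i, ‖al S.A m' i‖) * ∏ t, ∑ i, ‖al (S.A' t) m' i‖) * Y *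
        S.N a a' y := by
    apply mul_le_mul_of_nonneg_right _ h4
    apply mul_le_mul_of_nonneg_left hYi
    positivity
  linarith


/-- reduction to finitely many systems of exponents -/
lemma step5 [Nonempty ι] (S : Sys ι T p) (hp : Function.Injective p) {δ η B Q : ℝ} (hδ : 0 < δ)
    (hη : 0 < η) (hηδ : η * (1 + Fintype.card T) = δ / 4) (hQ : 1 < Q)
    (hP : ((pprod p : ℕ) : ℝ) ≤ Q ^ (δ / 4)) {a : ι → ℝ} {a' : T → ι → ℝ}
    (haB : ∀ i, Q ^ (-B) ≤ a i ∧ a i ≤ Q ^ B) (haB' : ∀ t i, Q ^ (-B) ≤ a' t i ∧ a' t i ≤ Q ^ B)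
    (hw : wprod a a' ≤ 1) {k : ℕ} {y : Fin k → ι → ℚ} (hli : LinearIndependent ℚ y)
    (hy : ∀ j, PVec (pprod p) (y j)) (hN : ∀ j, S.N a a' (y j) ≤ Q ^ (-δ)) :
    ∃ (z : ι → ℤ) (z' : T → ι → ℤ), (∀ i, z i ∈ Finset.Icc ⌈-B / η⌉ ⌈B / η⌉) ∧
      (∀ t i, z' t i ∈ Finset.Icc ⌈-B / η⌉ ⌈B / η⌉) ∧
      (∑ i, (η * z i - 3 / 4 * δ) + ∑ t, ∑ i, η * z' t i < 0) ∧
      ∃ y' : Fin k → ι → ℚ, LinearIndependent ℚ y' ∧ (∀ j, PVec (pprod p) (y' j)) ∧
        (∀ j, ∃ s : ℚ, y' j = s • y j) ∧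
        (∀ j i, |S.L (y' j) i| ≤ Q ^ (η * z i - 3 / 4 * δ)) ∧
        (∀ t j i, ‖S.L' t (y' j) i‖ ≤ Q ^ (η * z' t i)) := by
  have hQ0 : 0 < Q := by linarith
  have ha : ∀ i, 0 < a i := fun i => (by positivity : 0 < Q ^ (-B)).trans_le (haB i).1
  have ha' : ∀ t i, 0 < a' t i := fun t i => (by positivity : 0 < Q ^ (-B)).trans_le (haB' t i).1
  have hrange : ∀ x : ℝ, 0 < x → Q ^ (-B) ≤ x → x ≤ Q ^ B →
      ⌈Real.logb Q x / η⌉ ∈ Finset.Icc ⌈-B / η⌉ ⌈B / η⌉ := by
    intro x hx h1 h2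
    rw [Finset.mem_Icc]
    constructor
    · apply Int.ceil_mono
      apply div_le_div_of_nonneg_right _ hη.le
      rw [Real.le_logb_iff_rpow_le hQ hx]; exact h1
    · apply Int.ceil_mono
      apply div_le_div_of_nonneg_right _ hη.le
      rw [Real.logb_le_iff_le_rpow hQ hx]; exact h2
  have hup : ∀ x : ℝ, 0 < x → x ≤ Q ^ (η * (⌈Real.logb Q x / η⌉ : ℤ)) := by
    intro x hx
    rw [← Real.logb_le_iff_le_rpow hQ hx, mul_comm, ← div_le_iff₀ hη]
    exact Int.le_ceil _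
  have hlt : ∀ x : ℝ, η * (⌈Real.logb Q x / η⌉ : ℤ) ≤ Real.logb Q x + η := by
    intro x
    have h1 := (Int.ceil_lt_add_one (Real.logb Q x / η)).le
    calc η * (⌈Real.logb Q x / η⌉ : ℤ) ≤ η * (Real.logb Q x / η + 1) :=
          mul_le_mul_of_nonneg_left h1 hη.le
      _ = _ := by field_simp
  refine ⟨fun i => ⌈Real.logb Q (a i) / η⌉, fun t i => ⌈Real.logb Q (a' t i) / η⌉,
    fun i => hrange _ (ha i) (haB i).1 (haB i).2,
    fun t i => hrange _ (ha' t i) (haB' t i).1 (haB' t i).2, ?_, ?_⟩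
  · have h1 : Real.logb Q (wprod a a') = ∑ i, Real.logb Q (a i) + ∑ t, ∑ i, Real.logb Q (a' t i) := by
      unfold wprod
      rw [Real.logb_mul (prod_ne_zero_iff.mpr fun i _ => (ha i).ne')
        (prod_ne_zero_iff.mpr fun t _ => prod_ne_zero_iff.mpr fun i _ => (ha' t i).ne'),
        Real.logb_prod _ _ (fun i _ => (ha i).ne'),
        Real.logb_prod _ _ (fun t _ => prod_ne_zero_iff.mpr fun i _ => (ha' t i).ne')]
      congr 1
      exact sum_congr rfl fun t _ => Real.logb_prod _ _ (fun i _ => (ha' t i).ne')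
    have h2 : Real.logb Q (wprod a a') ≤ 0 := by
      apply Real.logb_nonpos hQ _ hw
      exact mul_nonneg (prod_nonneg fun i _ => (ha i).le)
        (prod_nonneg fun t _ => prod_nonneg fun i _ => (ha' t i).le)
    have h3 : ∑ i, (η * (⌈Real.logb Q (a i) / η⌉ : ℤ) - 3 / 4 * δ) ≤
        ∑ i, (Real.logb Q (a i) + η - 3 / 4 * δ) :=
      sum_le_sum fun i _ => by linarith [hlt (a i)]
    have h4 : ∑ t, ∑ i, η * (⌈Real.logb Q (a' t i) / η⌉ : ℤ) ≤
        ∑ t, ∑ i, (Real.logb Q (a' t i) + η) :=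
      sum_le_sum fun t _ => sum_le_sum fun i _ => hlt (a' t i)
    have hn : (1 : ℝ) ≤ Fintype.card ι := by exact_mod_cast Fintype.card_pos
    simp only [sum_add_distrib, sum_sub_distrib, sum_const, card_univ, nsmul_eq_mul] at h3 h4 ⊢
    have h5 : (Fintype.card ι : ℝ) * η + Fintype.card T * (Fintype.card ι * η) =
        Fintype.card ι * (δ / 4) := by rw [← hηδ]; ring
    nlinarith
  · have hy0 : ∀ j, y j ≠ 0 := fun j => hli.ne_zero j
    have h1 := fun j => exists_scale hp S ha' (hy0 j)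
    choose s hs0 hsP hs1 hsN using h1
    refine ⟨fun j => s j • y j, ?_, ?_, fun j => ⟨s j, rfl⟩, ?_, ?_⟩
    · exact hli.units_smul (fun j => Units.mk0 (s j) (hs0 j))
    · intro j i
      exact PInt.mul (hsP j) (hy j i)
    · intro j i
      have h2 := Ninf_bound S ha (s j • y j) i
      have h3 : S.N a a' (s j • y j) ≤ Q ^ (-δ) := by
        rw [N_smul, hs1, one_mul]; exact hN j
      have hPpos : 0 < ((pprod p : ℕ) : ℝ) := by
        unfold pprod; push_cast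
        exact prod_pos fun t _ => by exact_mod_cast (Fact.out : (p t).Prime).pos
      have h4 : S.Ninf a (s j • y j) * (((pprod p : ℕ) : ℝ))⁻¹ ≤ Q ^ (-δ) := by
        refine le_trans ?_ h3
        unfold Sys.N
        apply mul_le_mul_of_nonneg_left _ (Ninf_nonneg _ _ _)
        unfold pprod; push_cast
        rw [← prod_inv_distrib]
        exact prod_le_prod (fun t _ => by positivity) fun t _ => (hsN j t).1
      rw [← div_eq_mul_inv, div_le_iff₀ hPpos] at h4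
      have h5 : S.Ninf a (s j • y j) ≤ Q ^ (-(3 / 4 * δ)) := by
        calc _ ≤ Q ^ (-δ) * ((pprod p : ℕ) : ℝ) := h4
          _ ≤ Q ^ (-δ) * Q ^ (δ / 4) := mul_le_mul_of_nonneg_left hP (by positivity)
          _ = _ := by rw [← Real.rpow_add hQ0]; congr 1; ring
      rw [show |S.L (s j • y j) i| = ‖lf S.A (s j • y j) i‖ from rfl]
      calc _ ≤ a i * S.Ninf a (s j • y j) := h2
        _ ≤ Q ^ (η * (⌈Real.logb Q (a i) / η⌉ : ℤ)) * Q ^ (-(3 / 4 * δ)) :=
            mul_le_mul (hup _ (ha i)) h5 (Ninf_nonneg _ _ _) (by positivity)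
        _ = _ := by rw [← Real.rpow_add hQ0]; congr 1
    · intro t j i
      have h2 := Np_bound S t (ha' t) (s j • y j) i
      rw [show ‖S.L' t (s j • y j) i‖ = ‖lf (S.A' t) (s j • y j) i‖ from rfl]
      calc _ ≤ a' t i * S.Np t (a' t) (s j • y j) := h2
        _ ≤ a' t i * 1 := mul_le_mul_of_nonneg_left (hsN j t).2 (ha' t i).le
        _ = a' t i := mul_one _
        _ ≤ _ := hup _ (ha' t i)


/-- PENULT, from MACHINE and LIOU -/
theorem penult_of (S : Sys ι T p) (hp : Function.Injective p) (hι : 2 ≤ Fintype.card ι)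
    (hmach : ∀ (c : ι → ℝ) (c' : T → ι → ℝ), ∑ i, c i + ∑ t, ∑ i, c' t i < 0 →
      ∀ δ C1 : ℝ, 0 < δ →
      {m : ι → ℤ | Prim m ∧ ∃ Q : ℝ, 1 ≤ Q ∧ Q ^ δ ≤ htv m ∧ htv m ≤ Q ^ C1 ∧
        ∃ y : Fin (Fintype.card ι - 1) → ι → ℚ, LinearIndependent ℚ y ∧
          (∀ j, PVec (pprod p) (y j)) ∧ (∀ j, ∑ i, (m i : ℚ) * y j i = 0) ∧
          (∀ j i, |S.L (y j) i| ≤ Q ^ (c i)) ∧
          (∀ t j i, ‖S.L' t (y j) i‖ ≤ Q ^ (c' t i))}.Finite)
    (hliouR : ∀ β : ι → ℝ, (∀ i, IsAlgebraic ℚ (β i)) →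
      ∃ c C : ℝ, 0 < c ∧ 0 < C ∧ ∀ m : ι → ℤ, m ≠ 0 → ∑ i, β i * m i ≠ 0 →
        c * htv m ^ (-C) ≤ |∑ i, β i * m i|)
    (hliouP : ∀ (t : T) (β : ι → ℚ_[p t]), (∀ i, IsAlgebraic ℚ (β i)) →
      ∃ c C : ℝ, 0 < c ∧ 0 < C ∧ ∀ m : ι → ℤ, m ≠ 0 → ∑ i, β i * m i ≠ 0 →
        c * htv m ^ (-C) ≤ ‖∑ i, β i * m i‖)
    (δ B : ℝ) (hδ : 0 < δ) :
    {m : ι → ℤ | Prim m ∧ ∃ Q : ℝ, 1 ≤ Q ∧ ∃ (a : ι → ℝ) (a' : T → ι → ℝ),
      (∀ i, Q ^ (-B) ≤ a i ∧ a i ≤ Q ^ B) ∧ (∀ t i, Q ^ (-B) ≤ a' t i ∧ a' t i ≤ Q ^ B) ∧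
      wprod a a' ≤ 1 ∧ ∃ y : Fin (Fintype.card ι - 1) → ι → ℚ, LinearIndependent ℚ y ∧
        (∀ j, PVec (pprod p) (y j)) ∧ (∀ j, ∑ i, (m i : ℚ) * y j i = 0) ∧
        (∀ j, S.N a a' (y j) ≤ Q ^ (-δ))}.Finite := by
  classical
  set k := Fintype.card ι - 1 with hkdef
  have hk : Fintype.card ι = k + 1 := by omega
  have hk1 : 1 ≤ k := by omega
  have e : Fin (k + 1) ≃ ι := (Fintype.equivFinOfCardEq hk).symm
  have : Nonempty ι := ⟨e 0⟩
  set nT : ℝ := (Fintype.card T : ℝ) with hnT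
  have hnT0 : 0 ≤ nT := by positivity
  have hD : 0 < ‖S.A.det‖ * ∏ t, ‖(S.A' t).det‖ :=
    mul_pos (norm_pos_iff.mpr S.detA) (prod_pos fun t _ => norm_pos_iff.mpr (S.detA' t))
  set C2 : ℝ := ((k + 1).factorial : ℝ) ^ (1 + Fintype.card T) /
    (‖S.A.det‖ * ∏ t, ‖(S.A' t).det‖) with hC2def
  have hC2 : 0 < C2 := by positivity
  -- Liouville
  obtain ⟨c, Cc, hc, hCc, hliou⟩ := unif_liou (V := ι ⊕ (T × ι))
    (fun v m => Sum.elim (fun i => ‖al S.A m i‖) (fun q => ‖al (S.A' q.1) m q.2‖) v) (by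
      rintro (i | ⟨t, i⟩)
      · obtain ⟨c, C, hc, hC, h⟩ := hliouR (fun j => S.A⁻¹ j i)
          (fun j => inv_isAlgebraic S.algA j i)
        refine ⟨c, C, hc, hC, fun m hm hX => ?_⟩
        have h1 : al S.A m i = ∑ j, S.A⁻¹ j i * m j :=
          sum_congr rfl fun j _ => mul_comm _ _
        simp only [Sum.elim_inl] at hX ⊢
        rw [h1] at hX ⊢
        rw [Real.norm_eq_abs]
        exact h m hm (norm_ne_zero_iff.mp hX)
      · obtain ⟨c, C, hc, hC, h⟩ := hliouP t (fun j => (S.A' t)⁻¹ j i)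
          (fun j => inv_isAlgebraic (S.algA' t) j i)
        refine ⟨c, C, hc, hC, fun m hm hX => ?_⟩
        have h1 : al (S.A' t) m i = ∑ j, (S.A' t)⁻¹ j i * m j :=
          sum_congr rfl fun j _ => mul_comm _ _
        simp only [Sum.elim_inr] at hX ⊢
        rw [h1] at hX ⊢
        exact h m hm (norm_ne_zero_iff.mp hX))
  have hLR : ∀ m : ι → ℤ, m ≠ 0 → ∀ i, al S.A m i ≠ 0 → c * htv m ^ (-Cc) ≤ ‖al S.A m i‖ :=
    fun m hm i hi => hliou (Sum.inl i) m hm (norm_ne_zero_iff.mpr hi)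
  have hLP : ∀ m : ι → ℤ, m ≠ 0 → ∀ t i, al (S.A' t) m i ≠ 0 →
      c * htv m ^ (-Cc) ≤ ‖al (S.A' t) m i‖ :=
    fun m hm t i hi => hliou (Sum.inr (t, i)) m hm (norm_ne_zero_iff.mpr hi)
  obtain ⟨C3, hC3, hstep2⟩ := step2 S
  set δ1 : ℝ := δ / (2 * Cc * (1 + nT)) with hδ1def
  have hδ1 : 0 < δ1 := by positivity
  have hδ1' : δ1 * Cc * (1 + nT) = δ / 2 := by
    rw [hδ1def]; field_simp
  set C4 : ℝ := C2 / c ^ (1 + Fintype.card T) with hC4def
  have hC4 : 0 < C4 := by positivity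
  set η : ℝ := δ / (4 * (1 + nT)) with hηdef
  have hη : 0 < η := by positivity
  have hηδ : η * (1 + (Fintype.card T : ℝ)) = δ / 4 := by
    rw [hηdef, ← hnT]; field_simp
  -- auxiliary vectors
  let W : Finset ι × (T → Finset ι) → (ι → ℤ) → Prop := fun q m' =>
    m' ≠ 0 ∧ (∀ i, al S.A m' i ≠ 0 → i ∈ q.1) ∧ (∀ t i, al (S.A' t) m' i ≠ 0 → i ∈ q.2 t)
  have hmm : ∀ q, ∃ m' : ι → ℤ, (∃ m'', W q m'') → W q m' := by
    intro q
    by_cases h : ∃ m'', W q m''
    · exact ⟨h.choose, fun _ => h.choose_spec⟩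
    · exact ⟨0, fun h' => absurd h' h⟩
  choose mm hmm using hmm
  let Km : (ι → ℤ) → ℝ := fun m' => (∑ i, ‖al S.A m' i‖) * ∏ t, ∑ i, ‖al (S.A' t) m' i‖
  -- the threshold
  obtain ⟨Q0, hQ0⟩ : ∃ Q0 : ℝ, ∀ Q, Q0 ≤ Q → 2 ≤ Q ∧ C3 * C2 ≤ Q ∧
      ((pprod p : ℕ) : ℝ) ≤ Q ^ (δ / 4) ∧ ∀ q, Km (mm q) * C4 + 1 ≤ Q ^ (δ / 2) := by
    have h1 := tendsto_rpow_atTop (show 0 < δ / 4 by positivity)
    have h2 := tendsto_rpow_atTop (show 0 < δ / 2 by positivity)
    have h3 := (Filter.eventually_ge_atTop (2 : ℝ)).and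
      ((Filter.eventually_ge_atTop (C3 * C2)).and
      ((h1.eventually_ge_atTop ((pprod p : ℕ) : ℝ)).and
      (Filter.eventually_all.mpr fun q => h2.eventually_ge_atTop (Km (mm q) * C4 + 1))))
    exact Filter.eventually_atTop.mp h3
  set E : ℝ := B * (1 + nT) with hEdef
  -- the three finite sets
  have hA1 := finite_htv (ι := ι) (C3 * C2 * (max Q0 1) ^ |E|)
  have hA2 : (⋃ q, {m : ι → ℤ | ∀ i, |m i| ≤ |mm q i|}).Finite :=
    Set.finite_iUnion fun q => finite_box (fun i => |mm q i|)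
  set J := Finset.Icc ⌈-B / η⌉ ⌈B / η⌉ with hJ
  have hA3 : (⋃ q : (ι → J) × (T → ι → J), {m : ι → ℤ |
      (∑ i, (η * ((q.1 i : ℤ) : ℝ) - 3 / 4 * δ) + ∑ t, ∑ i, η * ((q.2 t i : ℤ) : ℝ) < 0) ∧
      Prim m ∧ ∃ Q : ℝ, 1 ≤ Q ∧ Q ^ δ1 ≤ htv m ∧ htv m ≤ Q ^ (E + 1) ∧
        ∃ y : Fin k → ι → ℚ, LinearIndependent ℚ y ∧
          (∀ j, PVec (pprod p) (y j)) ∧ (∀ j, ∑ i, (m i : ℚ) * y j i = 0) ∧
          (∀ j i, |S.L (y j) i| ≤ Q ^ (η * ((q.1 i : ℤ) : ℝ) - 3 / 4 * δ)) ∧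
          (∀ t j i, ‖S.L' t (y j) i‖ ≤ Q ^ (η * ((q.2 t i : ℤ) : ℝ)))}).Finite := by
    refine Set.finite_iUnion fun q => ?_
    by_cases hsum : ∑ i, (η * ((q.1 i : ℤ) : ℝ) - 3 / 4 * δ) +
        ∑ t, ∑ i, η * ((q.2 t i : ℤ) : ℝ) < 0
    · refine (hmach _ _ hsum δ1 (E + 1) hδ1).subset ?_
      rintro m ⟨_, h⟩
      exact h
    · convert Set.finite_empty
      rw [Set.eq_empty_iff_forall_notMem]
      rintro m ⟨h, _⟩
      exact hsum h
  refine ((hA1.union hA2).union hA3).subset ?_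
  rintro m ⟨hm, Q, hQ, a, a', haB, haB', hw, y, hli, hy, horth, hN⟩
  have hQp : 0 < Q := by linarith
  have ha : ∀ i, 0 < a i := fun i => (by positivity : 0 < Q ^ (-B)).trans_le (haB i).1
  have ha' : ∀ t i, 0 < a' t i := fun t i => (by positivity : 0 < Q ^ (-B)).trans_le (haB' t i).1
  have hm0 : m ≠ 0 := Prim.ne_zero hm
  have hs1 := step1 S hp hk1 e hδ hQ ha ha' hm hli hy horth hw hN
  have hQδ : Q ^ (-δ) ≤ 1 := Real.rpow_le_one_of_one_le_of_nonpos hQ (by linarith)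
  have hs2 : htv m ≤ C3 * C2 * Q ^ E := by
    refine hstep2 C2 Q B hQ hC2.le a a' (fun i => (haB i).1) (fun t i => (haB' t i).1) m hm
      fun i l => (hs1 i l).trans ?_
    exact mul_le_of_le_one_right hC2.le hQδ
  by_cases hQQ : Q < Q0
  · left; left
    show htv m ≤ _
    refine hs2.trans (mul_le_mul_of_nonneg_left ?_ (by positivity))
    calc Q ^ E ≤ Q ^ |E| := Real.rpow_le_rpow_of_exponent_le hQ (le_abs_self E)
      _ ≤ (max Q0 1) ^ |E| := Real.rpow_le_rpow hQp.le (hQQ.le.trans (le_max_left _ _))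
          (abs_nonneg _)
  push Not at hQQ
  obtain ⟨hQ2, hQC, hQP, hQK⟩ := hQ0 Q hQQ
  by_cases hsmall : htv m ≤ Q ^ δ1
  · left; right
    -- supports
    let q : Finset ι × (T → Finset ι) :=
      (univ.filter fun i => al S.A m i ≠ 0, fun t => univ.filter fun i => al (S.A' t) m i ≠ 0)
    have hWm : W q m := by
      refine ⟨hm0, fun i hi => ?_, fun t i hi => ?_⟩
      · simp only [q, mem_filter, mem_univ, true_and]; exact hi
      · simp only [q, mem_filter, mem_univ, true_and]; exact hi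
    obtain ⟨hmm0, hmmR, hmmP⟩ := hmm q ⟨m, hWm⟩
    simp only [q, mem_filter, mem_univ, true_and] at hmmR hmmP
    have hRne : ∃ i, al S.A m i ≠ 0 := by
      by_contra hcon
      push Not at hcon
      apply hm0
      funext j
      have h1 := congrFun (al_vecMul S.detA m) j
      rw [show al S.A m = 0 from funext hcon, Matrix.zero_vecMul] at h1
      have h2 : ((m j : ℤ) : ℝ) = 0 := h1.symm
      exact_mod_cast h2
    have hPne : ∀ t, ∃ i, al (S.A' t) m i ≠ 0 := by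
      intro t
      by_contra hcon
      push Not at hcon
      apply hm0
      funext j
      have h1 := congrFun (al_vecMul (S.detA' t) m) j
      rw [show al (S.A' t) m = 0 from funext hcon, Matrix.zero_vecMul] at h1
      have h2 : ((m j : ℤ) : ℚ_[p t]) = 0 := h1.symm
      exact_mod_cast h2
    have hY : ∀ (i : ι) (l : T → ι), al S.A m i ≠ 0 → (∀ t, al (S.A' t) m (l t) ≠ 0) →
        a i * ∏ t, a' t (l t) ≤ C4 * Q ^ (-(δ / 2)) := by
      intro i l hi hl
      have h1 := step3 S hc hCc hQ hm0 hsmall (hLR m hm0) (hLP m hm0) hi hl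
      rw [← hnT, hδ1'] at h1
      have h2 := hs1 i l
      have h3 : 0 < a i * ∏ t, a' t (l t) := mul_pos (ha i) (prod_pos fun t _ => ha' t _)
      have h4 : c ^ (1 + Fintype.card T) * Q ^ (-(δ / 2)) * (a i * ∏ t, a' t (l t)) ≤
          C2 * Q ^ (-δ) := (mul_le_mul_of_nonneg_right h1 h3.le).trans h2
      have h5 : 0 < c ^ (1 + Fintype.card T) * Q ^ (-(δ / 2)) := by positivity
      rw [mul_comm, ← le_div_iff₀ h5] at h4
      refine h4.trans (le_of_eq ?_)
      rw [hC4def, mul_div_mul_comm, ← Real.rpow_sub hQp]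
      congr 2; ring
    have horth' : ∀ j, ∑ i, y j i * (mm q i : ℚ) = 0 := by
      intro j
      refine step4 S hp ha ha' hRne hPne hY hmmR hmmP (hy j) ?_
      have h1 : Km (mm q) * C4 + 1 ≤ Q ^ (δ / 2) := hQK q
      have h2 : 0 ≤ Km (mm q) := by positivity
      have h3 : S.N a a' (y j) ≤ 1 := (hN j).trans hQδ
      have h4 : 0 < Q ^ (-(δ / 2)) := by positivity
      have h5 : Q ^ (δ / 2) * Q ^ (-(δ / 2)) = 1 := by
        rw [← Real.rpow_add hQp, add_neg_cancel, Real.rpow_zero]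
      calc Km (mm q) * (C4 * Q ^ (-(δ / 2))) * S.N a a' (y j)
          ≤ Km (mm q) * (C4 * Q ^ (-(δ / 2))) * 1 :=
            mul_le_mul_of_nonneg_left h3 (by positivity)
        _ = (Km (mm q) * C4) * Q ^ (-(δ / 2)) := by ring
        _ < (Km (mm q) * C4 + 1) * Q ^ (-(δ / 2)) := by
            apply mul_lt_mul_of_pos_right _ h4; linarith
        _ ≤ Q ^ (δ / 2) * Q ^ (-(δ / 2)) := mul_le_mul_of_nonneg_right h1 h4.le
        _ = 1 := h5
    obtain ⟨g, hg⟩ := prop_of_vanish e hm hli horth (h := fun i => (mm q i : ℚ)) horth'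
    obtain ⟨u, hu⟩ := Prim.bezout hm
    have hgi : g = ((∑ i, u i * mm q i : ℤ) : ℚ) := by
      calc g = g * ((∑ i, u i * m i : ℤ) : ℚ) := by rw [hu]; simp
        _ = _ := by
          push_cast
          rw [mul_sum]
          refine sum_congr rfl fun i _ => ?_
          rw [hg]; ring
    set g' : ℤ := ∑ i, u i * mm q i with hg'
    have hg1 : ∀ i, mm q i = g' * m i := by
      intro i
      have := hg i
      rw [hgi] at this
      exact_mod_cast this
    have hg0 : g' ≠ 0 := by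
      rintro h
      apply hmm0
      funext i
      rw [hg1, h, zero_mul]; rfl
    rw [Set.mem_iUnion]
    refine ⟨q, fun i => ?_⟩
    rw [hg1, abs_mul]
    exact le_mul_of_one_le_left (abs_nonneg _) (Int.one_le_abs hg0)
  · right
    push Not at hsmall
    obtain ⟨z, z', hz, hz', hsum, y', hli', hy', hys, hL, hL'⟩ :=
      step5 S hp hδ hη hηδ (by linarith : 1 < Q) hQP haB haB' hw hli hy hN
    rw [Set.mem_iUnion]
    refine ⟨(fun i => ⟨z i, hz i⟩, fun t i => ⟨z' t i, hz' t i⟩), hsum, hm, Q, hQ, hsmall.le, ?_,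
      y', hli', hy', ?_, hL, hL'⟩
    · refine hs2.trans ?_
      calc C3 * C2 * Q ^ E ≤ Q * Q ^ E := mul_le_mul_of_nonneg_right hQC (by positivity)
        _ = Q ^ (E + 1) := by rw [Real.rpow_add_one hQp.ne', mul_comm]
    · intro j
      obtain ⟨s, hs⟩ := hys j
      rw [hs]
      simp only [Pi.smul_apply, smul_eq_mul, mul_left_comm _ s, ← mul_sum]
      rw [horth j, mul_zero]


end final

end Pool.Agent.Helper51.Sub
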