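import Pool.Agent.Helper51.MW2

/-!
# The Mordell–Weil theorem over number fields
-/

open WeierstrassCurve WeierstrassCurve.Affine WeierstrassCurve.Affine.Point

namespace Pool.Agent.Helper51.MW

/-- finitely generated abelian groups are closed under subgroups. -/
lemma fg_of_injective {G H : Type*} [AddCommGroup G] [AddCommGroup H] (f : G →+ H)
    (hf : Function.Injective f) (h : AddGroup.FG H) : AddGroup.FG G := by
  have h1 : Module.Finite ℤ H := Module.Finite.iff_addGroup_fg.mpr h
  have h2 : IsNoetherian ℤ H := inferInstance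
  have h3 : Module.Finite ℤ G := Module.Finite.of_injective f.toIntLinearMap hf
  exact Module.Finite.iff_addGroup_fg.mp h3

/-- **The Mordell–Weil theorem.** -/
theorem mordell_weil {K : Type*} [Field K] [NumberField K] [DecidableEq K]
    (W : WeierstrassCurve.Affine K) [W.IsElliptic] : AddGroup.FG W.Point := by
  classical
  let P : Cubic K := W.twoTorsionPolynomial
  let L := P.toPoly.SplittingField
  have hfin : FiniteDimensional K L := inferInstance
  have hNF : NumberField L := NumberField.of_module_finite K L
  have ha : P.a ≠ 0 := by simp [P, twoTorsionPolynomial]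
  have hs : (P.toPoly.map (algebraMap K L)).Splits := Polynomial.SplittingField.splits P.toPoly
  obtain ⟨x, y, z, h3⟩ := (Cubic.splits_iff_roots_eq_three ha).mp hs
  have hb := Cubic.b_eq_three_roots ha h3
  have hc := Cubic.c_eq_three_roots ha h3
  have hd := Cubic.d_eq_three_roots ha h3
  have h4 : algebraMap K L 4 = 4 := map_ofNat _ 4
  have h2 : algebraMap K L 2 = 2 := map_ofNat _ 2
  simp only [P, twoTorsionPolynomial, map_mul] at hb hc hd
  rw [h4] at hb hc hd
  rw [h2] at hc
  have hfull : Full (W := (W.baseChange L : WeierstrassCurve.Affine L)) ![x, y, z] := by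
    constructor
    · change (W.map (algebraMap K L)).b₂ = _
      rw [map_b₂]
      simp
      linear_combination hb
    · change (W.map (algebraMap K L)).b₄ = _
      rw [map_b₄]
      simp
      linear_combination hc / 2
    · change (W.map (algebraMap K L)).b₆ = _
      rw [map_b₆]
      simp
      linear_combination hd
  have hell : (W.baseChange L).IsElliptic :=
    inferInstanceAs (W.map (algebraMap K L)).IsElliptic
  have hFG : AddGroup.FG (W.baseChange L : WeierstrassCurve.Affine L).Point := fg_full hfull
  have h1 : AddGroup.FG (W.baseChange K : WeierstrassCurve.Affine K).Point :=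
    fg_of_injective (Point.map (W' := W) (Algebra.ofId K L)) (Point.map_injective _) hFG
  exact h1

/-- The torsion subgroup is finite. -/
theorem finite_torsion {K : Type*} [Field K] [NumberField K] [DecidableEq K]
    (W : WeierstrassCurve.Affine K) [W.IsElliptic] :
    Finite (AddCommGroup.torsion W.Point) := by
  obtain ⟨C, hC⟩ := Par.parallelogram W
  have : Northcott (Par.hx (W := W)) := ⟨Par.northcott W⟩
  refine AddCommGroup.finite_torsion_of_descent' (h := Par.hx) (C := C) ?_
  intro P Q
  have := hC P Q
  convert this using 2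
  ring

/-- short Weierstrass curves. -/
lemma isElliptic_short {K : Type*} [Field K] {a b : K} (h : -16 * (4 * a ^ 3 + 27 * b ^ 2) ≠ 0) :
    (⟨0, 0, 0, a, b⟩ : WeierstrassCurve.Affine K).IsElliptic := by
  rw [isElliptic_iff]
  apply IsUnit.mk0
  have : (⟨0, 0, 0, a, b⟩ : WeierstrassCurve.Affine K).Δ = -16 * (4 * a ^ 3 + 27 * b ^ 2) := by
    rw [Δ, b₂, b₄, b₆, b₈]
    ring
  rw [this]
  exact h

/-- **Mordell's theorem** for short Weierstrass curves with integral coefficients. -/
theorem fg_short (a b : ℤ) (h : 4 * a ^ 3 + 27 * b ^ 2 ≠ 0) :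
    AddGroup.FG (WeierstrassCurve.Affine.Point (R := ℚ) ⟨0, 0, 0, a, b⟩) := by
  have : (⟨0, 0, 0, a, b⟩ : WeierstrassCurve.Affine ℚ).IsElliptic := by
    apply isElliptic_short
    have h1 : ((4 * a ^ 3 + 27 * b ^ 2 : ℤ) : ℚ) ≠ 0 := by exact_mod_cast h
    push_cast at h1
    exact mul_ne_zero (by norm_num) h1
  exact mordell_weil _

/-- task T2. -/
theorem fg (a : ℤ) (ha : a ≠ 0) :
    AddGroup.FG (WeierstrassCurve.Affine.Point (R := ℚ) ⟨0, 0, 0, a, 0⟩) := by
  have h := fg_short a 0 (by
    have : a ^ 3 ≠ 0 := pow_ne_zero 3 ha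
    omega)
  rw [Int.cast_zero] at h
  exact h

end Pool.Agent.Helper51.MW
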