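import Pool.Agent.Helper33.UB.PolyTree

/-!
# The tree of discs of a rational map
-/

set_option autoImplicit false

open Polynomial Finset Pool.Agent.Helper33 Pool.Agent.Helper33.UB

namespace Pool.Agent.Helper51.RatTree

variable {K : Type*} [Field K]

open Classical in
/-- order of `y` in the coordinate at the disc of centre `a` and radius `r` -/
noncomputable def nn (v : DV K) (a : K) (r : ℤ) (y : K) : ℤ := if y = a then r else min (v.o (y - a)) r

section nn

variable {v : DV K} {a : K} {r : ℤ}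

lemma nn_le (y : K) : nn v a r y ≤ r := by
  unfold nn
  split_ifs
  · exact le_rfl
  · exact min_le_right _ _

lemma nn_of_mem {y : K} (h : y ∈ ball v a r) : nn v a r y = r := by
  unfold nn
  split_ifs with h1
  · rfl
  · rcases h with h | h
    · exact absurd h h1
    · exact min_eq_right h

lemma nn_of_notMem {y : K} (h : y ∉ ball v a r) : nn v a r y = v.o (y - a) ∧ v.o (y - a) < r := by
  rw [mem_ball, not_or, not_le] at h
  unfold nn
  rw [if_neg h.1]
  exact ⟨min_eq_left h.2.le, h.2⟩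

lemma nn_eq_iff {y : K} : nn v a r y = r ↔ y ∈ ball v a r := by
  refine ⟨fun h => ?_, nn_of_mem⟩
  by_contra h1
  have := nn_of_notMem h1
  omega

lemma ge_nn (y : K) : v.ge (nn v a r y) (y - a) := by
  by_cases h : y ∈ ball v a r
  · rw [nn_of_mem h]
    exact mem_ball_iff_ge.mp h
  · rw [(nn_of_notMem h).1]
    exact DV.ge_self _

lemma nn_recenter {c y : K} (h : c ∈ ball v a r) : nn v c r y = nn v a r y := by
  by_cases hy : y ∈ ball v a r
  · rw [nn_of_mem hy, nn_of_mem (by rw [ball_eq h]; exact hy)]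
  · rw [(nn_of_notMem hy).1, (nn_of_notMem (a := c) (by rw [ball_eq h]; exact hy)).1]
    exact PV.o_of_notMem hy h (mem_ball_self a r)

lemma nn_succ (y : K) : nn v a r y ≤ nn v a (r + 1) y ∧ nn v a (r + 1) y ≤ nn v a r y + 1 := by
  unfold nn
  split_ifs
  · omega
  · omega

/-- ultrametric inequality for the coordinate at infinity -/
lemma gp_nonneg {y z : K} (h : y ≠ z) : nn v a r y + nn v a r z ≤ v.o (y - z) + r := by
  by_cases hy : y ∈ ball v a r
  · rw [nn_of_mem hy]
    by_cases hz : z ∈ ball v a r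
    · rw [nn_of_mem hz]
      have := mem_ball_trans hy (mem_ball_symm hz)
      rcases this with h1 | h1
      · exact absurd h1 h
      · linarith
    · obtain ⟨h1, -⟩ := nn_of_notMem hz
      rw [h1]
      have h2 := PV.o_of_notMem (v := v) hz hy (mem_ball_self a r)
      rw [v.o_sub_comm y z, h2]
      omega
  · obtain ⟨h1, h1'⟩ := nn_of_notMem hy
    rw [h1]
    by_cases hz : z ∈ ball v a r
    · rw [nn_of_mem hz]
      have h2 := PV.o_of_notMem (v := v) hy hz (mem_ball_self a r)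
      rw [h2]
    · obtain ⟨h3, h3'⟩ := nn_of_notMem hz
      rw [h3]
      rw [mem_ball, not_or] at hy hz
      have h4 := v.add (y - a) (a - z) (sub_ne_zero.mpr hy.1) (sub_ne_zero.mpr (Ne.symm hz.1)) (by
        rw [sub_add_sub_cancel]; exact sub_ne_zero.mpr h)
      rw [sub_add_sub_cancel, v.o_sub_comm a z] at h4
      omega

/-- two points are in the same direction if and only if their Gromov product is positive -/
lemma dir_eq_iff_gp {y z : K} (h : y ≠ z) : (PV.mk v a r).dir y = (PV.mk v a r).dir z ↔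
    nn v a r y + nn v a r z + 1 ≤ v.o (y - z) + r := by
  by_cases hy : y ∈ ball v a r
  · rw [PV.dir_eq_iff hy, nn_of_mem hy, mem_ball]
    constructor
    · rintro (h1 | h1)
      · exact absurd h1.symm h
      · have hz : z ∈ ball v a r := mem_ball_trans (ball_mono (by omega) (Or.inr h1)) hy
        rw [nn_of_mem hz, v.o_sub_comm y z]
        omega
    · intro h1
      right
      by_cases hz : z ∈ ball v a r
      · rw [nn_of_mem hz] at h1
        rw [v.o_sub_comm z y]
        omega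
      · exfalso
        obtain ⟨h3, -⟩ := nn_of_notMem hz
        rw [h3] at h1
        have h2 := PV.o_of_notMem (v := v) hz hy (mem_ball_self a r)
        rw [v.o_sub_comm y z, h2] at h1
        omega
  · obtain ⟨h1, h1'⟩ := nn_of_notMem hy
    rw [h1, PV.dir_mk_of_notMem hy]
    by_cases hz : z ∈ ball v a r
    · rw [nn_of_mem hz, PV.o_of_notMem (v := v) hy hz (mem_ball_self a r)]
      constructor
      · intro h2
        exact absurd h2.symm (PV.dir_ne_empty.mpr hz)
      · intro h2; omega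
    · obtain ⟨h3, h3'⟩ := nn_of_notMem hz
      rw [h3, PV.dir_mk_of_notMem hz]
      refine ⟨fun _ => ?_, fun _ => rfl⟩
      rw [mem_ball, not_or] at hy hz
      have h4 := v.add (y - a) (a - z) (sub_ne_zero.mpr hy.1) (sub_ne_zero.mpr (Ne.symm hz.1)) (by
        rw [sub_add_sub_cancel]; exact sub_ne_zero.mpr h)
      rw [sub_add_sub_cancel, v.o_sub_comm a z] at h4
      omega

lemma o_of_dir_ne' {y z : K} (h : (PV.mk v a r).dir y ≠ (PV.mk v a r).dir z) :
    v.o (y - z) + r = nn v a r y + nn v a r z := by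
  have hne : y ≠ z := fun e => h (by rw [e])
  have h1 := gp_nonneg (v := v) (a := a) (r := r) hne
  have h2 := (dir_eq_iff_gp (v := v) (a := a) (r := r) hne).not.mp h
  omega

end nn

section gp

/-- `y` and `z` have Gromov product at least `n` seen from the disc `(a, r)` -/
def GP (v : DV K) (a : K) (r : ℤ) (n : ℤ) (y z : K) : Prop :=
  y = z ∨ n + nn v a r y + nn v a r z ≤ v.o (y - z) + r

variable {v : DV K} {a : K} {r : ℤ}

lemma GP.recenter {c y z : K} {n : ℤ} (hc : c ∈ ball v a r) (h : GP v a r n y z) :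
    GP v c r n y z := by
  unfold GP at h ⊢
  rwa [nn_recenter hc, nn_recenter hc]

lemma GP.up {n : ℤ} {y z : K} (m : ℕ) (h : GP v a r n y z) : GP v a (r + m) (n - m) y z := by
  induction m with
  | zero => simpa using h
  | succ m ih =>
    rcases ih with h1 | h1
    · exact Or.inl h1
    right
    have h2 := nn_succ (v := v) (a := a) (r := r + m) y
    have h3 := nn_succ (v := v) (a := a) (r := r + m) z
    push_cast
    rw [← add_assoc]
    omega

lemma GP.down {n : ℤ} {y z : K} (m : ℕ) (h : GP v a r n y z) : GP v a (r - m) (n - m) y z := by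
  induction m with
  | zero => simpa using h
  | succ m ih =>
    rcases ih with h1 | h1
    · exact Or.inl h1
    right
    have h2 := nn_succ (v := v) (a := a) (r := r - m - 1) y
    have h3 := nn_succ (v := v) (a := a) (r := r - m - 1) z
    rw [sub_add_cancel] at h2 h3
    have e : r - ((m + 1 : ℕ) : ℤ) = r - m - 1 := by push_cast; ring
    rw [e]
    push_cast
    omega

lemma GP.dir_eq {n : ℤ} (hn : 1 ≤ n) {y z : K} (h : GP v a r n y z) :
    (PV.mk v a r).dir y = (PV.mk v a r).dir z := by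
  rcases h with h | h
  · rw [h]
  by_cases hyz : y = z
  · rw [hyz]
  rw [dir_eq_iff_gp hyz]
  omega

lemma GP.of_dir_eq {y z : K} (h : (PV.mk v a r).dir y = (PV.mk v a r).dir z) : GP v a r 1 y z := by
  by_cases hyz : y = z
  · exact Or.inl hyz
  right
  have := (dir_eq_iff_gp hyz).mp h
  omega

end gp

section path

/-- The vertex at distance `ℓ` from `(a, r)` on the way to `y`. -/
noncomputable def way (v : DV K) (a : K) (r : ℤ) (ℓ : ℕ) (y : K) : PV v :=
  if (ℓ : ℤ) ≤ r - nn v a r y then PV.mk v a (r - ℓ) else PV.mk v y (2 * nn v a r y - r + ℓ)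

variable {v : DV K} {a : K} {r : ℤ}

lemma mem_ball_nn (y : K) : y ∈ ball v a (nn v a r y) := by
  rw [mem_ball_iff_ge]
  exact ge_nn y

lemma way_of_le {ℓ : ℕ} {y : K} (h : (ℓ : ℤ) ≤ r - nn v a r y) : way v a r ℓ y = PV.mk v a (r - ℓ) := by
  unfold way
  rw [if_pos h]

lemma way_of_ge {ℓ : ℕ} {y : K} (h : r - nn v a r y ≤ (ℓ : ℤ)) :
    way v a r ℓ y = PV.mk v y (2 * nn v a r y - r + ℓ) := by
  unfold way
  split_ifs with h1
  · have h2 : (ℓ : ℤ) = r - nn v a r y := le_antisymm h1 h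
    rw [h2]
    have h3 : 2 * nn v a r y - r + (r - nn v a r y) = nn v a r y := by ring
    have h4 : r - (r - nn v a r y) = nn v a r y := by ring
    rw [h3, h4]
    exact (PV.mk_eq (mem_ball_nn y)).symm
  · rfl

/-- Gromov products decrease at most by the distance along a path. -/
lemma GP.way {n : ℤ} {y z : K} (h : GP v a r n y z) (ℓ : ℕ) (w : K) (hn : ℓ < n) :
    (RatTree.way v a r ℓ w).dir y = (RatTree.way v a r ℓ w).dir z := by
  have hnn := nn_le (v := v) (a := a) (r := r) w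
  rcases le_total (ℓ : ℤ) (r - nn v a r w) with h1 | h1
  · rw [way_of_le h1]
    exact (h.down ℓ).dir_eq (by omega)
  · rw [way_of_ge h1]
    obtain ⟨u, hu⟩ := Int.eq_ofNat_of_zero_le (a := r - nn v a r w) (by omega)
    obtain ⟨m, hm⟩ := Int.eq_ofNat_of_zero_le (a := ℓ - (r - nn v a r w)) (by omega)
    have h2 := h.down u
    rw [← hu] at h2
    have h3 : r - (r - nn v a r w) = nn v a r w := by ring
    rw [h3] at h2
    have h4 := (GP.recenter (mem_ball_nn w) h2).up m
    rw [← hm] at h4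
    have h5 : nn v a r w + (↑ℓ - (r - nn v a r w)) = 2 * nn v a r w - r + ↑ℓ := by ring
    rw [h5] at h4
    exact h4.dir_eq (by omega)

/-- if `z` is in the direction of `y` at the vertex `way ℓ y` then the Gromov product is large -/
lemma GP.of_way {ℓ : ℕ} {y z : K} (h : (RatTree.way v a r ℓ y).dir z = (RatTree.way v a r ℓ y).dir y) :
    GP v a r (ℓ + 1) y z := by
  by_cases hyz : y = z
  · exact Or.inl hyz
  right
  have hnn := nn_le (v := v) (a := a) (r := r) y
  rcases lt_or_ge (ℓ : ℤ) (r - nn v a r y) with h1 | h1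
  · rw [way_of_le h1.le] at h
    have hy : y ∉ ball v a (r - ℓ) := by
      intro hy
      have h2 : v.ge ((r - ℓ : ℤ) : ℝ) (y - a) := mem_ball_iff_ge.mp hy
      by_cases hya : y = a
      · subst hya
        rw [nn_of_mem (mem_ball_self y r)] at h1
        omega
      · have hyb : y ∉ ball v a r := by
          rw [← nn_eq_iff]; omega
        have h3 := nn_of_notMem hyb
        rcases hy with hy | hy
        · exact hya hy
        · omega
    have hyb : y ∉ ball v a r := fun h2 => hy (ball_mono (by omega) h2)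
    rw [PV.dir_mk_of_notMem hy] at h
    have hz : z ∉ ball v a (r - ℓ) := by
      rw [← PV.dir_ne_empty, not_not]; exact h
    have hzb : z ∉ ball v a r := fun h2 => hz (ball_mono (by omega) h2)
    rw [(nn_of_notMem hyb).1, (nn_of_notMem hzb).1]
    rw [mem_ball, not_or, not_le] at hy hz
    have h4 := v.add (y - a) (a - z) (sub_ne_zero.mpr hy.1) (sub_ne_zero.mpr (Ne.symm hz.1)) (by
      rw [sub_add_sub_cancel]; exact sub_ne_zero.mpr hyz)
    rw [sub_add_sub_cancel, v.o_sub_comm a z] at h4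
    omega
  · rw [way_of_ge h1] at h
    have h2 := (PV.dir_eq_iff (mem_ball_self y _)).mp h.symm
    rcases h2 with h2 | h2
    · exact absurd h2.symm hyz
    have h3 : nn v a r z = nn v a r y := by
      by_cases hy : y ∈ ball v a r
      · rw [nn_of_mem hy] at h2 ⊢
        apply nn_of_mem
        apply mem_ball_trans _ hy
        right; omega
      · obtain ⟨h4, h5⟩ := nn_of_notMem hy
        have hzo : v.o (y - a) < v.o (z - y) := by omega
        rw [mem_ball, not_or] at hy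
        have h6 := DV.ord_add_of_ge (v := v) (x := y - a) (y := z - y) (c := v.o (z - y))
          (sub_ne_zero.mpr hy.1) (DV.ge_self _) (by exact_mod_cast hzo)
        rw [add_comm, sub_add_sub_cancel] at h6
        have hza : z ∉ ball v a r := by
          rintro (h7 | h7)
          · exact h6.1 (by rw [h7, sub_self])
          · omega
        rw [(nn_of_notMem hza).1, h4, h6.2]
    rw [h3, v.o_sub_comm y z]
    omega

lemma nn_eq_of_gp {n : ℤ} {y z : K} (h : GP v a r n y z) (hn : r - nn v a r y < n) :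
    nn v a r z = nn v a r y := by
  have hz := nn_le (v := v) (a := a) (r := r) z
  have hy := nn_le (v := v) (a := a) (r := r) y
  rcases h with h | h
  · rw [h]
  by_cases hyz : y = z
  · rw [hyz]
  by_cases hyb : y ∈ ball v a r
  · rw [nn_of_mem hyb]
    rw [nn_of_mem hyb] at h hn
    by_contra hne
    have hzb : z ∉ ball v a r := fun h1 => hne (nn_of_mem h1)
    obtain ⟨h1, h2⟩ := nn_of_notMem hzb
    have h3 := PV.o_of_notMem (v := v) hzb hyb (mem_ball_self a r)
    rw [v.o_sub_comm y z, h3] at h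
    omega
  · obtain ⟨h1, h2⟩ := nn_of_notMem hyb
    rw [h1] at h hn ⊢
    have hlt : v.o (y - a) < v.o (z - y) := by
      rw [v.o_sub_comm z y]
      by_cases hzb : z ∈ ball v a r
      · rw [nn_of_mem hzb] at h
        omega
      · obtain ⟨h3, h4⟩ := nn_of_notMem hzb
        rw [h3] at h
        -- `n + v(y-a) + v(z-a) ≤ v(y-z) + r`, `r - v(y-a) < n`
        have hyb' := hyb
        rw [mem_ball, not_or] at hyb' hzb
        by_contra hcon
        push Not at hcon
        have h5 : v.o (z - a) < v.o (y - z) := by omega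
        have h6 := DV.ord_add_of_ge (v := v) (x := z - a) (y := y - z) (c := v.o (y - z))
          (sub_ne_zero.mpr hzb.1) (DV.ge_self _) (by exact_mod_cast h5)
        rw [add_comm, sub_add_sub_cancel] at h6
        omega
    have hyb' := hyb
    rw [mem_ball, not_or] at hyb'
    have h6 := DV.ord_add_of_ge (v := v) (x := y - a) (y := z - y) (c := v.o (z - y))
      (sub_ne_zero.mpr hyb'.1) (DV.ge_self _) (by exact_mod_cast hlt)
    rw [add_comm, sub_add_sub_cancel] at h6
    have hza : z ∉ ball v a r := by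
      rintro (h7 | h7)
      · exact h6.1 (by rw [h7, sub_self])
      · omega
    rw [(nn_of_notMem hza).1, h6.2]

/-- points in the same direction at `way ℓ y` have the same next vertex -/
lemma way_succ {ℓ : ℕ} {y z : K} (h : (RatTree.way v a r ℓ y).dir z = (RatTree.way v a r ℓ y).dir y) :
    way v a r (ℓ + 1) z = way v a r (ℓ + 1) y := by
  have hgp := GP.of_way h
  have hyr := nn_le (v := v) (a := a) (r := r) y
  rcases lt_or_ge (ℓ : ℤ) (r - nn v a r y) with h1 | h1
  · -- both points are outside of the disc `(a, r - ℓ)`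
    have h2 : (ℓ : ℤ) + 1 ≤ r - nn v a r z := by
      rcases hgp with h3 | h3
      · rw [← h3]; omega
      · by_cases hyz : y = z
        · rw [← hyz]; omega
        have hyb : y ∉ ball v a r := by
          rw [← nn_eq_iff]; omega
        obtain ⟨h4, h5⟩ := nn_of_notMem hyb
        by_cases hzb : z ∈ ball v a r
        · have h6 := PV.o_of_notMem (v := v) hyb hzb (mem_ball_self a r)
          rw [nn_of_mem hzb, h4, h6] at h3
          omega
        · obtain ⟨h6, h7⟩ := nn_of_notMem hzb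
          rw [h4, h6] at h3
          rw [h6]
          rw [h4] at h1
          by_contra hcon
          push Not at hcon
          have h8 : v.o (y - a) < v.o (z - a) := by omega
          rw [mem_ball, not_or] at hyb hzb
          have h9 := DV.ord_add_of_ge (v := v) (x := y - a) (y := a - z) (c := v.o (a - z))
            (sub_ne_zero.mpr hyb.1) (DV.ge_self _) (by rw [v.o_sub_comm a z]; exact_mod_cast h8)
          rw [sub_add_sub_cancel] at h9
          omega
    rw [way_of_le (ℓ := ℓ + 1) (y := z) (by push_cast; omega),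
      way_of_le (ℓ := ℓ + 1) (y := y) (by push_cast; omega)]
  · have h2 : nn v a r z = nn v a r y := nn_eq_of_gp hgp (by omega)
    rw [way_of_ge (ℓ := ℓ + 1) (y := z) (by push_cast; omega),
      way_of_ge (ℓ := ℓ + 1) (y := y) (by push_cast; omega), h2]
    apply PV.mk_eq
    rw [way_of_ge h1] at h
    have h3 := (PV.dir_eq_iff (mem_ball_self y _)).mp h.symm
    push_cast
    rwa [← add_assoc]

end path

section gauss

/-- Gauss norm of a polynomial at a disc -/
noncomputable def gn (v : DV K) (a : K) (r : ℤ) (φ : K[X]) : ℤ :=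
  open Classical in
  if h : (taylor a φ).support.Nonempty then
    (taylor a φ).support.inf' h fun j => v.o ((taylor a φ).coeff j) + j * r
  else 0

variable {v : DV K} {a : K} {r : ℤ} {φ ψ : K[X]}

lemma gn_le {j : ℕ} (hj : (taylor a φ).coeff j ≠ 0) :
    gn v a r φ ≤ v.o ((taylor a φ).coeff j) + j * r := by
  have hmem : j ∈ (taylor a φ).support := mem_support_iff.mpr hj
  unfold gn
  rw [dif_pos ⟨j, hmem⟩]
  exact inf'_le _ hmem

lemma exists_gn (hφ : φ ≠ 0) : ∃ j : ℕ, (taylor a φ).coeff j ≠ 0 ∧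
    gn v a r φ = v.o ((taylor a φ).coeff j) + j * r := by
  have hne : (taylor a φ).support.Nonempty := by
    rw [nonempty_support_iff]
    exact fun h => hφ (taylor_injective a (by rw [h, map_zero]))
  unfold gn
  rw [dif_pos hne]
  obtain ⟨j, hj, he⟩ := exists_mem_eq_inf' hne
    fun j : ℕ => v.o ((taylor a φ).coeff j) + j * r
  exact ⟨j, mem_support_iff.mp hj, he⟩

lemma geP_gn (φ : K[X]) : geP v (r : ℝ) (gn v a r φ) (taylor a φ) := by
  intro i
  by_cases h : (taylor a φ).coeff i = 0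
  · exact Or.inl h
  right
  have h1 := gn_le (v := v) (r := r) h
  have h2 : (gn v a r φ : ℝ) ≤ v.o ((taylor a φ).coeff i) + i * r := by exact_mod_cast h1
  linarith

lemma le_gn (hφ : φ ≠ 0) {e : ℝ} (h : geP v (r : ℝ) e (taylor a φ)) : e ≤ gn v a r φ := by
  obtain ⟨j, hj, he⟩ := exists_gn (v := v) (a := a) (r := r) hφ
  have h1 := DV.ge_le (h j) hj
  have h2 : (gn v a r φ : ℝ) = v.o ((taylor a φ).coeff j) + j * r := by exact_mod_cast he
  linarith

lemma gn_C_mul {c : K} (hc : c ≠ 0) (hφ : φ ≠ 0) : gn v a r (C c * φ) = v.o c + gn v a r φ := by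
  have hcφ : C c * φ ≠ 0 := mul_ne_zero (by rwa [ne_eq, C_eq_zero]) hφ
  apply le_antisymm
  · obtain ⟨j, hj, he⟩ := exists_gn (v := v) (a := a) (r := r) hφ
    have h1 : (taylor a (C c * φ)).coeff j = c * (taylor a φ).coeff j := by
      rw [taylor_mul, taylor_C, coeff_C_mul]
    have h2 : (taylor a (C c * φ)).coeff j ≠ 0 := by
      rw [h1]; exact mul_ne_zero hc hj
    have h3 := gn_le (v := v) (r := r) h2
    rw [h1, v.mul _ _ hc hj] at h3
    omega
  · have h1 : geP v (r : ℝ) (v.o c + gn v a r φ) (taylor a (C c * φ)) := by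
      rw [taylor_mul, taylor_C]
      exact geP_C_mul (DV.ge_self c) (geP_gn φ)
    have := le_gn hcφ h1
    exact_mod_cast this

lemma geP_add {c e : ℝ} {φ ψ : K[X]} (h1 : geP v c e φ) (h2 : geP v c e ψ) : geP v c e (φ + ψ) := by
  intro i
  rw [coeff_add]
  exact DV.ge_add (h1 i) (h2 i)

lemma geP_sub {c e : ℝ} {φ ψ : K[X]} (h1 : geP v c e φ) (h2 : geP v c e ψ) : geP v c e (φ - ψ) := by
  intro i
  rw [coeff_sub]
  exact DV.ge_sub (h1 i) (h2 i)

lemma geP_mono {c e e' : ℝ} {φ : K[X]} (h1 : geP v c e φ) (h : e' ≤ e) : geP v c e' φ := by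
  intro i
  exact DV.ge_mono (h1 i) (by linarith)

/-- evaluation -/
lemma ge_eval {d : ℕ} (hd : φ.natDegree ≤ d) {e : ℝ} (h : geP v (r : ℝ) e (taylor a φ)) (y : K) :
    v.ge (e + d * (nn v a r y - r)) (φ.eval y) := by
  have h1 : φ.eval y = ∑ i ∈ Finset.range (d + 1), (taylor a φ).coeff i * (y - a) ^ i := by
    have h2 : φ.eval y = (taylor a φ).eval (y - a) := by
      rw [taylor_eval]
      congr 1
      ring
    rw [h2]
    apply eval_eq_sum_range'
    rw [natDegree_taylor]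
    omega
  rw [h1]
  apply DV.ge_sum
  intro i hi
  rw [Finset.mem_range] at hi
  refine DV.ge_mono (DV.ge_mul (h i) (DV.ge_pow (ge_nn (r := r) y) i)) ?_
  have h3 : ((nn v a r y : ℤ) : ℝ) ≤ r := by exact_mod_cast nn_le y
  have h4 : (i : ℝ) ≤ d := by exact_mod_cast Nat.lt_succ_iff.mp hi
  nlinarith

/-- Lagrange interpolation at points in distinct directions. -/
lemma exists_eval_le {d : ℕ} (hd : φ.natDegree ≤ d) (hφ : φ ≠ 0) [DecidableEq K] (s : Finset K)
    (hs : s.card = d + 1)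
    (hdir : ∀ y ∈ s, ∀ z ∈ s, y ≠ z → (PV.mk v a r).dir y ≠ (PV.mk v a r).dir z) :
    ∃ y ∈ s, φ.eval y ≠ 0 ∧ v.o (φ.eval y) + d * (r - nn v a r y) ≤ gn v a r φ := by
  have hdeg : φ.degree < s.card := by
    rw [degree_eq_natDegree hφ, hs]
    exact_mod_cast Nat.lt_succ_of_le hd
  have hex : (s.filter fun y => φ.eval y ≠ 0).Nonempty := by
    by_contra hcon
    rw [not_nonempty_iff_eq_empty, filter_eq_empty_iff] at hcon
    apply hφ
    apply Polynomial.eq_zero_of_degree_lt_of_eval_finset_eq_zero s hdeg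
    intro y hy
    have := hcon hy
    push Not at this
    exact this
  obtain ⟨y0, hy0, hmin⟩ := exists_min_image _
    (fun y => v.o (φ.eval y) + d * (r - nn v a r y)) hex
  rw [mem_filter] at hy0
  refine ⟨y0, hy0.1, hy0.2, ?_⟩
  set Q : ℤ := v.o (φ.eval y0) + d * (r - nn v a r y0) with hQ
  suffices h : ((Q : ℤ) : ℝ) ≤ gn v a r φ by exact_mod_cast h
  apply le_gn hφ
  have hinj : Set.InjOn (id : K → K) (s : Set K) := fun _ _ _ _ h => h
  have hgi := Lagrange.eq_interpolate_of_eval_eq (s := s) (v := id) (fun y => φ.eval y) hinj hdeg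
    (fun y _ => rfl)
  have hexp : φ = ∑ y ∈ s, C (φ.eval y * ∏ z ∈ s.erase y, (y - z)⁻¹) * ∏ z ∈ s.erase y, (X - C z) := by
    conv_lhs => rw [hgi, Lagrange.interpolate_apply]
    apply sum_congr rfl
    intro y _
    unfold Lagrange.basis Lagrange.basisDivisor
    simp only [id]
    rw [prod_mul_distrib, C_mul, mul_assoc, ← map_prod C]
  have htay : taylor a φ = ∑ y ∈ s, C (φ.eval y * ∏ z ∈ s.erase y, (y - z)⁻¹) *
      ∏ z ∈ s.erase y, (X - C (z - a)) := by
    conv_lhs => rw [hexp, map_sum]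
    apply sum_congr rfl
    intro y _
    rw [taylor_mul, taylor_C, tc_linear_prod]
  rw [htay]
  apply geP_sum
  intro y hy
  by_cases hgy : φ.eval y = 0
  · rw [hgy, zero_mul, C_0, zero_mul]
    intro i
    left
    exact coeff_zero i
  have hlin : ∀ z ∈ s.erase y, geP v (r : ℝ) (nn v a r z) (X - C (z - a)) := by
    intro z _ i
    rw [coeff_sub, coeff_X, coeff_C]
    rcases i with _ | _ | i
    · simp only [Nat.cast_zero, zero_mul, sub_zero, one_ne_zero, if_false, if_true, zero_sub]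
      exact DV.ge_neg (ge_nn z)
    · right
      simp [v.o_one]
      exact nn_le z
    · simp [DV.ge_zero]
  have h1 := geP_prod' (v := v) (c := (r : ℝ)) (s.erase y) (fun z => ((nn v a r z : ℤ) : ℝ))
    (fun z => X - C (z - a)) hlin
  have h2 : ∀ z ∈ s.erase y, (y - z)⁻¹ ≠ 0 := fun z hz =>
      inv_ne_zero (sub_ne_zero.mpr (Ne.symm (mem_erase.mp hz).1))
  have hc : v.ge ((v.o (φ.eval y * ∏ z ∈ s.erase y, (y - z)⁻¹) : ℤ) : ℝ)
      (φ.eval y * ∏ z ∈ s.erase y, (y - z)⁻¹) := DV.ge_self _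
  have h3 := geP_C_mul hc h1
  refine geP_mono h3 ?_
  rw [v.mul _ _ hgy (prod_ne_zero_iff.mpr h2), v.o_prod _ _ h2]
  have h4 : ∀ z ∈ s.erase y, v.o (y - z)⁻¹ + nn v a r z = r - nn v a r y := by
    intro z hz
    rw [mem_erase] at hz
    rw [v.o_inv _ (sub_ne_zero.mpr (Ne.symm hz.1))]
    have := o_of_dir_ne' (hdir y hy z hz.2 (Ne.symm hz.1))
    omega
  have h5 : (∑ z ∈ s.erase y, v.o (y - z)⁻¹) + ∑ z ∈ s.erase y, nn v a r z = d * (r - nn v a r y) := by
    rw [← sum_add_distrib, sum_congr rfl h4, sum_const, card_erase_of_mem hy, hs]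
    simp
  have h6 := hmin y (mem_filter.mpr ⟨hy, hgy⟩)
  have h7 : Q ≤ v.o (φ.eval y) + ((∑ z ∈ s.erase y, v.o (y - z)⁻¹) + ∑ z ∈ s.erase y, nn v a r z) := by
    rw [h5]; exact h6
  have h8 : (Q : ℝ) ≤ (v.o (φ.eval y) : ℝ) + ((∑ z ∈ s.erase y, (v.o (y - z)⁻¹ : ℝ)) +
      ∑ z ∈ s.erase y, (nn v a r z : ℝ)) := by exact_mod_cast h7
  push_cast
  linarith

/-- the Bezoutian of two monomials -/
lemma ge_bez_mono {d i j : ℕ} (hi : i ≤ d) (hj : j ≤ d) (y z : K) :
    v.ge ((i + j : ℕ) * (r : ℝ) + ((v.o (y - z) + r - nn v a r y - nn v a r z : ℤ) : ℝ) +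
      d * (nn v a r y - r) + d * (nn v a r z - r))
      ((y - a) ^ i * (z - a) ^ j - (y - a) ^ j * (z - a) ^ i) := by
  wlog hij : i ≤ j generalizing i j
  · have := DV.ge_neg (this hj hi (by omega))
    rw [neg_sub] at this
    rw [add_comm i j]
    exact this
  obtain ⟨k, rfl⟩ := Nat.exists_eq_add_of_le hij
  set u := y - a with hu
  set w := z - a with hw
  have hny : ((nn v a r y : ℤ) : ℝ) ≤ r := by exact_mod_cast nn_le y
  have hnz : ((nn v a r z : ℤ) : ℝ) ≤ r := by exact_mod_cast nn_le z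
  have hgy : v.ge (nn v a r y) u := ge_nn y
  have hgz : v.ge (nn v a r z) w := ge_nn z
  have h1 : u ^ i * w ^ (i + k) - u ^ (i + k) * w ^ i =
      -((u ^ i * w ^ i) * ((u - w) * ∑ t ∈ Finset.range k, u ^ t * w ^ (k - 1 - t))) := by
    have h2 := (Commute.all u w).mul_geom_sum₂ k
    rw [h2]
    ring
  rw [h1]
  apply DV.ge_neg
  have h3 : v.ge ((i : ℝ) * nn v a r y + i * nn v a r z) (u ^ i * w ^ i) :=
    DV.ge_mul (DV.ge_pow hgy i) (DV.ge_pow hgz i)
  have h4 : v.ge ((v.o (y - z) : ℤ) : ℝ) (u - w) := by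
    rw [hu, hw, sub_sub_sub_cancel_right]
    exact DV.ge_self _
  rcases Nat.eq_zero_or_pos k with rfl | hk
  · simp [DV.ge_zero]
  have h5 : v.ge ((k - 1 : ℕ) * (r : ℝ) + (d - i - 1) * (nn v a r y - r) +
      (d - i - 1) * (nn v a r z - r)) (∑ t ∈ Finset.range k, u ^ t * w ^ (k - 1 - t)) := by
    apply DV.ge_sum
    intro t ht
    rw [Finset.mem_range] at ht
    refine DV.ge_mono (DV.ge_mul (DV.ge_pow hgy t) (DV.ge_pow hgz (k - 1 - t))) ?_
    have e1 : ((k - 1 - t : ℕ) : ℝ) = (k : ℝ) - 1 - t := by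
      rw [Nat.cast_sub (by omega), Nat.cast_sub (by omega)]; simp
    have e2 : ((k - 1 : ℕ) : ℝ) = (k : ℝ) - 1 := by
      rw [Nat.cast_sub (by omega)]; simp
    rw [e1, e2]
    have e3 : (i : ℝ) + k ≤ d := by exact_mod_cast hj
    have e4 : (t : ℝ) + 1 ≤ k := by exact_mod_cast ht
    have e5 : (0 : ℝ) ≤ t := Nat.cast_nonneg t
    nlinarith
  refine DV.ge_mono (DV.ge_mul h3 (DV.ge_mul h4 h5)) ?_
  have e2 : ((k - 1 : ℕ) : ℝ) = (k : ℝ) - 1 := by
    rw [Nat.cast_sub (by omega)]; simp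
  rw [e2]
  push_cast
  nlinarith

/-- **The Bezoutian bound.** -/
lemma ge_bez {d : ℕ} (hφ : φ.natDegree ≤ d) (hψ : ψ.natDegree ≤ d) {e e' : ℝ}
    (h1 : geP v (r : ℝ) e (taylor a φ)) (h2 : geP v (r : ℝ) e' (taylor a ψ)) (y z : K) :
    v.ge (e + e' + ((v.o (y - z) + r - nn v a r y - nn v a r z : ℤ) : ℝ) +
      d * (nn v a r y - r) + d * (nn v a r z - r))
      (φ.eval y * ψ.eval z - φ.eval z * ψ.eval y) := by
  have hev : ∀ (χ : K[X]), χ.natDegree ≤ d → ∀ t : K,
      χ.eval t = ∑ i ∈ Finset.range (d + 1), (taylor a χ).coeff i * (t - a) ^ i := by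
    intro χ hχ t
    have h2 : χ.eval t = (taylor a χ).eval (t - a) := by
      rw [taylor_eval]
      congr 1
      ring
    rw [h2]
    apply eval_eq_sum_range'
    rw [natDegree_taylor]
    omega
  have hexp : φ.eval y * ψ.eval z - φ.eval z * ψ.eval y =
      ∑ i ∈ Finset.range (d + 1), ∑ j ∈ Finset.range (d + 1),
        ((taylor a φ).coeff i * (taylor a ψ).coeff j) *
          ((y - a) ^ i * (z - a) ^ j - (y - a) ^ j * (z - a) ^ i) := by
    rw [hev φ hφ y, hev φ hφ z, hev ψ hψ y, hev ψ hψ z, Finset.sum_mul_sum, Finset.sum_mul_sum,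
      ← Finset.sum_sub_distrib]
    apply sum_congr rfl
    intro i _
    rw [← Finset.sum_sub_distrib]
    apply sum_congr rfl
    intro j _
    ring
  rw [hexp]
  apply DV.ge_sum
  intro i hi
  apply DV.ge_sum
  intro j hj
  rw [Finset.mem_range] at hi hj
  refine DV.ge_mono (DV.ge_mul (DV.ge_mul (h1 i) (h2 j))
    (ge_bez_mono (a := a) (r := r) (Nat.lt_succ_iff.mp hi) (Nat.lt_succ_iff.mp hj) y z)) ?_
  push_cast
  linarith

/-- the Gauss norms of `P - b Q` are bounded -/
lemma exists_bound {P Q : K[X]} (hQ : Q ≠ 0) (hPQ : ∀ b : K, P - C b * Q ≠ 0) :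
    ∃ B : ℤ, ∀ b : K, gn v a r (P - C b * Q) ≤ B := by
  obtain ⟨j2, hj2, hg2⟩ := exists_gn (v := v) (a := a) (r := r) hQ
  set b0 := (taylor a P).coeff j2 / (taylor a Q).coeff j2 with hb0
  obtain ⟨j1, hj1, -⟩ := exists_gn (v := v) (a := a) (r := r) (hPQ b0)
  have hco : ∀ (b : K) (j : ℕ), (taylor a (P - C b * Q)).coeff j =
      (taylor a P).coeff j - b * (taylor a Q).coeff j := by
    intro b j
    rw [map_sub, taylor_mul, taylor_C, coeff_sub, coeff_C_mul]
  rw [hco] at hj1
  set m := (taylor a Q).coeff j2 * ((taylor a P).coeff j1 - b0 * (taylor a Q).coeff j1) with hm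
  have hm0 : m ≠ 0 := mul_ne_zero hj2 hj1
  refine ⟨v.o m + (j1 + j2) * r - gn v a r Q, fun b => ?_⟩
  have h1 := geP_gn (v := v) (a := a) (r := r) (P - C b * Q) j1
  have h2 := geP_gn (v := v) (a := a) (r := r) (P - C b * Q) j2
  have h3 := geP_gn (v := v) (a := a) (r := r) Q j1
  have h4 := geP_gn (v := v) (a := a) (r := r) Q j2
  have h5 : m = (taylor a (P - C b * Q)).coeff j1 * (taylor a Q).coeff j2 -
      (taylor a (P - C b * Q)).coeff j2 * (taylor a Q).coeff j1 := by
    rw [hco, hco, hm, hb0]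
    field_simp
    ring
  have h6 : v.ge ((gn v a r (P - C b * Q) : ℝ) + gn v a r Q - (j1 + j2) * r) m := by
    rw [h5]
    apply DV.ge_sub
    · refine DV.ge_mono (DV.ge_mul h1 h4) (le_of_eq ?_)
      ring
    · refine DV.ge_mono (DV.ge_mul h2 h3) (le_of_eq ?_)
      ring
  have h7 := DV.ge_le h6 hm0
  have h8 : gn v a r (P - C b * Q) + gn v a r Q - (j1 + j2) * r ≤ v.o m := by exact_mod_cast h7
  linarith

/-- the centre of the image disc -/
lemma exists_max {P Q : K[X]} (v : DV K) (a : K) (r : ℤ) (hQ : Q ≠ 0)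
    (hPQ : ∀ b : K, P - C b * Q ≠ 0) :
    ∃ b : K, ∀ b' : K, gn v a r (P - C b' * Q) ≤ gn v a r (P - C b * Q) := by
  obtain ⟨B, hB⟩ := exists_bound (v := v) (a := a) (r := r) hQ hPQ
  obtain ⟨m, ⟨b, hb⟩, hmax⟩ := Int.exists_greatest_of_bdd
    (P := fun n => ∃ b : K, gn v a r (P - C b * Q) = n)
    ⟨B, fun n ⟨b, hb⟩ => hb ▸ hB b⟩ ⟨_, 0, rfl⟩
  exact ⟨b, fun b' => by rw [hb]; exact hmax _ ⟨b', rfl⟩⟩

/-- independence of the reductions -/
lemma gn_comb_le {P Q : K[X]} (hQ : Q ≠ 0) (hPQ : ∀ b : K, P - C b * Q ≠ 0) {b : K}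
    (hmax : ∀ b' : K, gn v a r (P - C b' * Q) ≤ gn v a r (P - C b * Q)) {α β : K} (hα : α ≠ 0) :
    gn v a r (C α * (P - C b * Q) + C β * Q) ≤ v.o α + gn v a r (P - C b * Q) ∧
    (β ≠ 0 → gn v a r (C α * (P - C b * Q) + C β * Q) ≤ v.o β + gn v a r Q) := by
  have h1 : C α * (P - C b * Q) + C β * Q = C α * (P - C (b - β / α) * Q) := by
    have : C β = C α * C (β / α) := by
      rw [← C_mul]
      congr 1
      field_simp
    rw [this, C_sub]
    ring
  have h2 : gn v a r (C α * (P - C b * Q) + C β * Q) ≤ v.o α + gn v a r (P - C b * Q) := by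
    rw [h1, gn_C_mul hα (hPQ _)]
    have := hmax (b - β / α)
    omega
  refine ⟨h2, fun hβ => ?_⟩
  set e := gn v a r (C α * (P - C b * Q) + C β * Q) with he
  have h3 : geP v (r : ℝ) e (taylor a (C β * Q)) := by
    have h4 : C β * Q = (C α * (P - C b * Q) + C β * Q) - C α * (P - C b * Q) := by ring
    rw [h4, map_sub]
    apply geP_sub
    · exact geP_gn _
    · refine geP_mono (geP_gn _) ?_
      rw [gn_C_mul hα (hPQ _)]
      exact_mod_cast h2
  have hβQ : C β * Q ≠ 0 := mul_ne_zero (by rwa [ne_eq, C_eq_zero]) hQ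
  have h5 := le_gn hβQ h3
  rw [gn_C_mul hβ hQ] at h5
  exact_mod_cast h5

end gauss

section push

variable {v : DV K} {a b : K} {r s : ℤ} {P Q : K[X]} {d : ℕ}

/-- the coordinate of the image point -/
lemma nn_div {p q : K} (hq : q ≠ 0) : nn v b s (b + p / q) + v.o q ≤ v.o q + s ∧
    (p ≠ 0 → nn v b s (b + p / q) + v.o q ≤ v.o p) ∧
    (nn v b s (b + p / q) + v.o q = v.o q + s ∨
      (p ≠ 0 ∧ nn v b s (b + p / q) + v.o q = v.o p)) := by
  by_cases hp : p = 0
  · subst hp
    rw [zero_div, add_zero, nn_of_mem (mem_ball_self b s)]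
    refine ⟨by omega, fun h => absurd rfl h, Or.inl (by omega)⟩
  · have h1 : b + p / q ≠ b := by
      intro h
      have : p / q = 0 := by
        have := congrArg (· - b) h
        simpa using this
      rw [div_eq_zero_iff] at this
      tauto
    unfold nn
    rw [if_neg h1, add_sub_cancel_left, v.o_div p q hp hq]
    refine ⟨by omega, fun _ => by omega, ?_⟩
    rcases le_total (v.o p - v.o q) s with h | h
    · right; exact ⟨hp, by omega⟩
    · left; omega

/-- the normalised order of the pair `(P, Q)` at `y`, target coordinate `(b, s)` -/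
noncomputable def N (v : DV K) (b : K) (s : ℤ) (P Q : K[X]) (y : K) : ℤ :=
  nn v b s (P.eval y / Q.eval y) + v.o (Q.eval y)

lemma eval_div {y : K} (hy : Q.eval y ≠ 0) :
    P.eval y / Q.eval y = b + (P - C b * Q).eval y / Q.eval y := by
  simp only [eval_sub, eval_mul, eval_C]
  field_simp
  ring

lemma N_le_right {y : K} (hy : Q.eval y ≠ 0) : N v b s P Q y ≤ v.o (Q.eval y) + s := by
  unfold N
  rw [eval_div (b := b) hy]
  exact (nn_div hy).1

lemma N_le_left {y : K} (hy : Q.eval y ≠ 0) (h : (P - C b * Q).eval y ≠ 0) :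
    N v b s P Q y ≤ v.o ((P - C b * Q).eval y) := by
  unfold N
  rw [eval_div (b := b) hy]
  exact (nn_div hy).2.1 h

lemma N_cases {y : K} (hy : Q.eval y ≠ 0) : N v b s P Q y = v.o (Q.eval y) + s ∨
    ((P - C b * Q).eval y ≠ 0 ∧ N v b s P Q y = v.o ((P - C b * Q).eval y)) := by
  unfold N
  rw [eval_div (b := b) hy]
  exact (nn_div hy).2.2

/-- lower bound for `N` -/
lemma le_N {e : ℤ} (hP : (P - C b * Q).natDegree ≤ d) (hQ : Q.natDegree ≤ d)
    (h1 : geP v (r : ℝ) e (taylor a (P - C b * Q))) (h2 : geP v (r : ℝ) ((e - s : ℤ) : ℝ) (taylor a Q))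
    {y : K} (hy : Q.eval y ≠ 0) : e + d * (nn v a r y - r) ≤ N v b s P Q y := by
  rcases N_cases (v := v) (b := b) (s := s) (P := P) hy with h | ⟨h0, h⟩
  · rw [h]
    have h3 := DV.ge_le (ge_eval hQ h2 y) hy
    have h4 : (e - s : ℤ) + d * (nn v a r y - r) ≤ v.o (Q.eval y) := by exact_mod_cast h3
    linarith
  · rw [h]
    have h3 := DV.ge_le (ge_eval hP h1 y) h0
    exact_mod_cast h3

/-- the order of a difference of images -/
lemma o_image_sub {y z : K} (hy : Q.eval y ≠ 0) (hz : Q.eval z ≠ 0)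
    (hne : P.eval y / Q.eval y ≠ P.eval z / Q.eval z) :
    (P - C b * Q).eval y * Q.eval z - (P - C b * Q).eval z * Q.eval y ≠ 0 ∧
    v.o (P.eval y / Q.eval y - P.eval z / Q.eval z) =
      v.o ((P - C b * Q).eval y * Q.eval z - (P - C b * Q).eval z * Q.eval y) -
        v.o (Q.eval y) - v.o (Q.eval z) := by
  have h1 : P.eval y / Q.eval y - P.eval z / Q.eval z =
      ((P - C b * Q).eval y * Q.eval z - (P - C b * Q).eval z * Q.eval y) /
        (Q.eval y * Q.eval z) := by
    simp only [eval_sub, eval_mul, eval_C]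
    field_simp
    ring
  have h2 : (P - C b * Q).eval y * Q.eval z - (P - C b * Q).eval z * Q.eval y ≠ 0 := by
    intro h
    rw [h, zero_div, sub_eq_zero] at h1
    exact hne h1
  refine ⟨h2, ?_⟩
  rw [h1, v.o_div _ _ h2 (mul_ne_zero hy hz), v.mul _ _ hy hz]
  ring

/-- **Gromov products do not decrease in good directions.** -/
lemma GP.push {n e : ℤ} (hP : (P - C b * Q).natDegree ≤ d) (hQ : Q.natDegree ≤ d)
    (h1 : geP v (r : ℝ) e (taylor a (P - C b * Q))) (h2 : geP v (r : ℝ) ((e - s : ℤ) : ℝ) (taylor a Q))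
    {y z : K} (hy : Q.eval y ≠ 0) (hz : Q.eval z ≠ 0)
    (hgy : N v b s P Q y ≤ e + d * (nn v a r y - r)) (hgz : N v b s P Q z ≤ e + d * (nn v a r z - r))
    (h : GP v a r n y z) : GP v b s n (P.eval y / Q.eval y) (P.eval z / Q.eval z) := by
  by_cases hne : P.eval y / Q.eval y = P.eval z / Q.eval z
  · exact Or.inl hne
  right
  rcases h with h | h
  · exact absurd (by rw [h]) hne
  obtain ⟨h3, h4⟩ := o_image_sub (v := v) (b := b) hy hz hne
  have h5 := DV.ge_le (ge_bez (r := r) hP hQ h1 h2 y z) h3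
  have h6 : e + (e - s) + (v.o (y - z) + r - nn v a r y - nn v a r z) +
      d * (nn v a r y - r) + d * (nn v a r z - r) ≤
      v.o ((P - C b * Q).eval y * Q.eval z - (P - C b * Q).eval z * Q.eval y) := by
    exact_mod_cast h5
  rw [h4]
  unfold N at hgy hgz
  linarith

end push

section tree

variable {v : DV K} {P Q : K[X]} {d : ℕ}

/-- centre of the image disc -/
noncomputable def ctr (v : DV K) (hQ : Q ≠ 0) (hPQ : ∀ b : K, P - C b * Q ≠ 0) (a : K) (r : ℤ) : K :=
  (exists_max v a r hQ hPQ).choose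

/-- radius of the image disc -/
noncomputable def rad (v : DV K) (hQ : Q ≠ 0) (hPQ : ∀ b : K, P - C b * Q ≠ 0) (a : K) (r : ℤ) : ℤ :=
  gn v a r (P - C (ctr v hQ hPQ a r) * Q) - gn v a r Q

/-- action of a rational map on discs -/
noncomputable def act (v : DV K) (hQ : Q ≠ 0) (hPQ : ∀ b : K, P - C b * Q ≠ 0) (ζ : PV v) : PV v :=
  PV.mk v (ctr v hQ hPQ ζ.2.choose ζ.1.2) (rad v hQ hPQ ζ.2.choose ζ.1.2)

lemma mk_choose (ζ : PV v) : PV.mk v ζ.2.choose ζ.1.2 = ζ :=
  Subtype.ext (Prod.ext ζ.2.choose_spec.symm rfl)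

/-- A point in a bad direction. -/
def IsBad (v : DV K) (hQ : Q ≠ 0) (hPQ : ∀ b : K, P - C b * Q ≠ 0) (d : ℕ) (a : K) (r : ℤ) (y : K) :
    Prop :=
  v.ge ((gn v a r (P - C (ctr v hQ hPQ a r) * Q) + d * (nn v a r y - r) + 1 : ℤ) : ℝ)
    ((P - C (ctr v hQ hPQ a r) * Q).eval y) ∧
  v.ge ((gn v a r Q + d * (nn v a r y - r) + 1 : ℤ) : ℝ) (Q.eval y)

/-- bad directions -/
def badSet (v : DV K) (hQ : Q ≠ 0) (hPQ : ∀ b : K, P - C b * Q ≠ 0) (d : ℕ) (a : K) (r : ℤ) :
    Set (Set K) := {δ | ∃ y, (PV.mk v a r).dir y = δ ∧ IsBad v hQ hPQ d a r y}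

lemma natDegree_sub_le' (hPd : P.natDegree ≤ d) (hQd : Q.natDegree ≤ d) (b : K) :
    (P - C b * Q).natDegree ≤ d :=
  (natDegree_sub_le _ _).trans (max_le hPd ((natDegree_C_mul_le b Q).trans hQd))

lemma card_bad [DecidableEq K] (hQ : Q ≠ 0) (hPQ : ∀ b : K, P - C b * Q ≠ 0) (hPd : P.natDegree ≤ d)
    (hQd : Q.natDegree ≤ d) (a : K) (r : ℤ) (Ds : Finset (Set K))
    (h : ∀ δ ∈ Ds, δ ∈ badSet v hQ hPQ d a r) : Ds.card ≤ d := by
  classical
  by_contra hlt
  push Not at hlt
  obtain ⟨Ds', hsub, hcard⟩ := exists_subset_card_eq (s := Ds) (n := d + 1) hlt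
  choose! y hy using fun δ (hδ : δ ∈ Ds') => h δ (hsub hδ)
  have hinj : Set.InjOn y (Ds' : Set (Set K)) := by
    intro δ hδ δ1 hδ1 he
    rw [← (hy δ hδ).1, ← (hy δ1 hδ1).1, he]
  obtain ⟨z, hz, hz0, hzle⟩ := exists_eval_le (v := v) (a := a) (r := r)
    (natDegree_sub_le' hPd hQd (ctr v hQ hPQ a r)) (hPQ _) (Ds'.image y)
    (by rw [card_image_of_injOn hinj, hcard]) (by
      intro y1 hy1 y2 hy2 hne heq
      obtain ⟨δ, hδ, rfl⟩ := mem_image.mp hy1
      obtain ⟨δ1, hδ1, rfl⟩ := mem_image.mp hy2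
      apply hne
      rw [(hy δ hδ).1, (hy δ1 hδ1).1] at heq
      rw [heq])
  obtain ⟨δ, hδ, rfl⟩ := mem_image.mp hz
  have h1 := DV.ge_le (hy δ hδ).2.1 hz0
  have h2 : gn v a r (P - C (ctr v hQ hPQ a r) * Q) + d * (nn v a r (y δ) - r) + 1 ≤
    v.o ((P - C (ctr v hQ hPQ a r) * Q).eval (y δ)) := by exact_mod_cast h1
  linarith

lemma badSet_finite (hQ : Q ≠ 0) (hPQ : ∀ b : K, P - C b * Q ≠ 0) (hPd : P.natDegree ≤ d)
    (hQd : Q.natDegree ≤ d) (a : K) (r : ℤ) : (badSet v hQ hPQ d a r).Finite := by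
  classical
  by_contra hinf
  obtain ⟨T, hT, hcard⟩ := Set.Infinite.exists_subset_card_eq hinf (d + 1)
  have := card_bad (v := v) hQ hPQ hPd hQd a r T (fun δ hδ => hT hδ)
  omega

/-- a point in a good direction has minimal order -/
lemma N_le_of_good (hQ : Q ≠ 0) (hPQ : ∀ b : K, P - C b * Q ≠ 0) {a : K} {r : ℤ} {y : K}
    (hy : Q.eval y ≠ 0) (h : ¬ IsBad v hQ hPQ d a r y) :
    N v (ctr v hQ hPQ a r) (rad v hQ hPQ a r) P Q y ≤
      gn v a r (P - C (ctr v hQ hPQ a r) * Q) + d * (nn v a r y - r) := by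
  unfold IsBad at h
  rw [not_and_or] at h
  rcases h with h | h
  · unfold DV.ge at h
    push Not at h
    have h1 := N_le_left (v := v) (b := ctr v hQ hPQ a r) (s := rad v hQ hPQ a r) (P := P) hy h.1
    have h2 : v.o ((P - C (ctr v hQ hPQ a r) * Q).eval y) <
      gn v a r (P - C (ctr v hQ hPQ a r) * Q) + d * (nn v a r y - r) + 1 := by exact_mod_cast h.2
    omega
  · unfold DV.ge at h
    push Not at h
    have h1 := N_le_right (v := v) (b := ctr v hQ hPQ a r) (s := rad v hQ hPQ a r) (P := P) hy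
    have h2 : v.o (Q.eval y) < gn v a r Q + d * (nn v a r y - r) + 1 := by exact_mod_cast h.2
    have h3 : rad v hQ hPQ a r = gn v a r (P - C (ctr v hQ hPQ a r) * Q) - gn v a r Q := rfl
    omega

lemma gn_sub_rad (hQ : Q ≠ 0) (hPQ : ∀ b : K, P - C b * Q ≠ 0) (a : K) (r : ℤ) :
    gn v a r (P - C (ctr v hQ hPQ a r) * Q) - rad v hQ hPQ a r = gn v a r Q := by
  unfold rad
  ring

/-- at most `d` directions are mapped to a given direction -/
lemma card_fibre [DecidableEq K] (hQ : Q ≠ 0) (hPQ : ∀ b : K, P - C b * Q ≠ 0) (hPd : P.natDegree ≤ d)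
    (hQd : Q.natDegree ≤ d) (a : K) (r : ℤ) (s : Finset K) (hsQ : ∀ y ∈ s, Q.eval y ≠ 0)
    (hdir : ∀ y ∈ s, ∀ z ∈ s, y ≠ z → (PV.mk v a r).dir y ≠ (PV.mk v a r).dir z)
    (him : ∀ y ∈ s, ∀ z ∈ s, (PV.mk v (ctr v hQ hPQ a r) (rad v hQ hPQ a r)).dir
      (P.eval y / Q.eval y) = (PV.mk v (ctr v hQ hPQ a r) (rad v hQ hPQ a r)).dir
      (P.eval z / Q.eval z)) : s.card ≤ d := by
  by_contra hlt
  push Not at hlt
  obtain ⟨s', hsub, hcard⟩ := exists_subset_card_eq (s := s) (n := d + 1) hlt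
  obtain ⟨z, hz⟩ : s'.Nonempty := card_pos.mp (by omega)
  have hzQ := hsQ z (hsub hz)
  set b := ctr v hQ hPQ a r with hb
  set t := rad v hQ hPQ a r with ht
  set P1 := P - C b * Q with hP1
  set R := C (Q.eval z) * P1 + C (-P1.eval z) * Q with hR
  have hR0 : R ≠ 0 := by
    have h1 : R = C (Q.eval z) * (P - C (b + P1.eval z / Q.eval z) * Q) := by
      rw [hR, hP1, C_add, C_neg]
      have : C (Q.eval z) * C ((P - C b * Q).eval z / Q.eval z) = C ((P - C b * Q).eval z) := by
        rw [← C_mul]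
        congr 1
        field_simp
      rw [mul_sub, mul_sub, ← mul_assoc (C (Q.eval z)) (C b + _) Q, mul_add, this]
      ring
    rw [h1]
    exact mul_ne_zero (by rwa [ne_eq, C_eq_zero]) (hPQ _)
  have hRd : R.natDegree ≤ d := by
    rw [hR]
    refine (natDegree_add_le _ _).trans (max_le ?_ ?_)
    · exact (natDegree_C_mul_le _ _).trans (natDegree_sub_le' hPd hQd b)
    · exact (natDegree_C_mul_le _ _).trans hQd
  obtain ⟨y, hy, hy0, hyle⟩ := exists_eval_le (v := v) (a := a) (r := r) hRd hR0 s' hcard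
    (fun y hy z hz => hdir y (hsub hy) z (hsub hz))
  have hyQ := hsQ y (hsub hy)
  have hReval : R.eval y = P1.eval y * Q.eval z - P1.eval z * Q.eval y := by
    rw [hR]
    simp only [eval_add, eval_mul, eval_C]
    ring
  have hmax : ∀ b' : K, gn v a r (P - C b' * Q) ≤ gn v a r (P - C b * Q) :=
    (exists_max v a r hQ hPQ).choose_spec
  have hcomb := gn_comb_le (v := v) (a := a) (r := r) hQ hPQ hmax (α := Q.eval z)
    (β := -P1.eval z) hzQ
  have hgR : gn v a r R ≤ gn v a r Q + N v b t P Q z := by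
    rcases N_cases (v := v) (b := b) (s := t) (P := P) hzQ with h | ⟨h0, h⟩
    · rw [h]
      have h1 := hcomb.1
      have h2 : t = gn v a r P1 - gn v a r Q := rfl
      rw [← hP1, ← hR] at h1
      omega
    · rw [h]
      have h1 := hcomb.2 (neg_ne_zero.mpr h0)
      rw [← hP1, ← hR, v.o_neg] at h1
      rw [← hP1]
      omega
  -- the images of `y` and `z` are close
  have hgQ := geP_gn (v := v) (a := a) (r := r) Q
  have hgQ' : geP v (r : ℝ) ((gn v a r P1 - t : ℤ) : ℝ) (taylor a Q) := by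
    have : gn v a r P1 - t = gn v a r Q := gn_sub_rad hQ hPQ a r
    rw [this]
    exact hgQ
  have hNy : gn v a r P1 + d * (nn v a r y - r) ≤ N v b t P Q y :=
    le_N (natDegree_sub_le' hPd hQd b) hQd (geP_gn _) hgQ' hyQ
  have hne : P.eval y / Q.eval y ≠ P.eval z / Q.eval z := by
    intro h
    apply hy0
    rw [hReval, hP1]
    simp only [eval_sub, eval_mul, eval_C]
    rw [div_eq_div_iff hyQ hzQ] at h
    linear_combination h
  have h3 := (dir_eq_iff_gp hne).mp (him y (hsub hy) z (hsub hz))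
  have h4 := (o_image_sub (v := v) (b := b) hyQ hzQ hne).2
  rw [h4, ← hP1, ← hReval] at h3
  unfold N at hNy hgR
  have h5 : gn v a r P1 - t = gn v a r Q := gn_sub_rad hQ hPQ a r
  linarith

/-- **The tree dynamics of a rational map.** -/
noncomputable def ratTree (v : DV K) (hQ : Q ≠ 0) (hPQ : ∀ b : K, P - C b * Q ≠ 0)
    (hPd : P.natDegree ≤ d) (hQd : Q.natDegree ≤ d) (x : ℕ → K) (hxQ : ∀ i, Q.eval (x i) ≠ 0)
    (hx : ∀ i, x (i + 1) = P.eval (x i) / Q.eval (x i)) : TreeDyn (PV v) (Set K) d where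
  dir ζ i := ζ.dir (x i)
  f := act v hQ hPQ
  bad ζ := (badSet_finite hQ hPQ hPd hQd ζ.2.choose ζ.1.2).toFinset
  bad_card ζ := by
    classical
    apply card_bad (v := v) hQ hPQ hPd hQd ζ.2.choose ζ.1.2
    intro δ hδ
    exact (Set.Finite.mem_toFinset _).mp hδ
  good_map := by
    intro ζ i j h1 h2
    rw [Set.Finite.mem_toFinset] at h1
    have hζ := mk_choose ζ
    set a := ζ.2.choose with ha
    set r := ζ.1.2 with hr
    rw [← hζ] at h1 h2
    have hgi : ¬ IsBad v hQ hPQ d a r (x i) := fun h => h1 ⟨x i, rfl, h⟩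
    have hgj : ¬ IsBad v hQ hPQ d a r (x j) := fun h => h1 ⟨x j, h2.symm, h⟩
    have h3 := GP.of_dir_eq h2
    have hgQ' : geP v (r : ℝ) ((gn v a r (P - C (ctr v hQ hPQ a r) * Q) - rad v hQ hPQ a r : ℤ) : ℝ)
        (taylor a Q) := by
      rw [gn_sub_rad hQ hPQ a r]
      exact geP_gn Q
    have h4 := h3.push (natDegree_sub_le' hPd hQd (ctr v hQ hPQ a r)) hQd (geP_gn _) hgQ' (hxQ i) (hxQ j)
      (N_le_of_good hQ hPQ (hxQ i) hgi) (N_le_of_good hQ hPQ (hxQ j) hgj)
    have h5 := h4.dir_eq le_rfl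
    rw [← hx, ← hx] at h5
    exact h5
  fto := by
    classical
    intro ζ δ' Ds h
    have hζ := mk_choose ζ
    choose! hgood i hi using h
    have hinj : Set.InjOn (fun δ => x (i δ)) (Ds : Set (Set K)) := by
      intro δ hδ δ1 hδ1 he
      simp only at he
      rw [← (hi δ hδ).1, ← (hi δ1 hδ1).1, he]
    rw [← card_image_of_injOn hinj]
    apply card_fibre (v := v) hQ hPQ hPd hQd ζ.2.choose ζ.1.2
    · intro y hy
      obtain ⟨δ, hδ, rfl⟩ := mem_image.mp hy
      exact hxQ _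
    · intro y hy z hz hyz heq
      obtain ⟨δ, hδ, rfl⟩ := mem_image.mp hy
      obtain ⟨δ1, hδ1, rfl⟩ := mem_image.mp hz
      apply hyz
      rw [hζ, (hi δ hδ).1, (hi δ1 hδ1).1] at heq
      rw [heq]
    · intro y hy z hz
      obtain ⟨δ, hδ, rfl⟩ := mem_image.mp hy
      obtain ⟨δ1, hδ1, rfl⟩ := mem_image.mp hz
      have e1 := (hi δ hδ).2
      have e2 := (hi δ1 hδ1).2
      rw [hx] at e1 e2
      exact e1.trans e2.symm
  tree := by
    intro ζ ζ' hne
    obtain ⟨a, r, rfl⟩ := ζ.exists_rep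
    obtain ⟨b, s, rfl⟩ := ζ'.exists_rep
    by_cases hint : ∃ z, z ∈ ball v a r ∧ z ∈ ball v b s
    · obtain ⟨z, hza, hzb⟩ := hint
      rw [← PV.mk_eq hza, ← PV.mk_eq hzb] at hne ⊢
      rcases lt_trichotomy r s with hrs | hrs | hrs
      · refine ⟨ball v z (r + 1), ∅, ?_⟩
        intro i hi
        by_contra hi2
        rw [← ne_eq, PV.dir_ne_empty] at hi2
        apply hi
        have h1 : x i ∈ ball v z (r + 1) := ball_mono (by omega) hi2
        rw [PV.dir_mk_of_mem (ball_mono (by omega) h1), ball_eq h1]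
      · exact absurd (by rw [hrs]) hne
      · refine ⟨∅, ball v z (s + 1), ?_⟩
        intro i hi
        rw [PV.dir_ne_empty] at hi
        have h1 : x i ∈ ball v z (s + 1) := ball_mono (by omega) hi
        rw [PV.dir_mk_of_mem (ball_mono (by omega) h1), ball_eq h1]
    · refine ⟨∅, ∅, ?_⟩
      intro i hi
      rw [PV.dir_ne_empty] at hi
      exact PV.dir_mk_of_notMem fun h => hint ⟨x i, hi, h⟩

lemma ratTree_dir (hQ : Q ≠ 0) (hPQ : ∀ b : K, P - C b * Q ≠ 0)
    (hPd : P.natDegree ≤ d) (hQd : Q.natDegree ≤ d) (x : ℕ → K) (hxQ : ∀ i, Q.eval (x i) ≠ 0)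
    (hx : ∀ i, x (i + 1) = P.eval (x i) / Q.eval (x i)) (ζ : PV v) (i : ℕ) :
    (ratTree v hQ hPQ hPd hQd x hxQ hx).dir ζ i = ζ.dir (x i) := rfl

/-- levels of the tree seen from the disc `(a, r)` -/
noncomputable def ratLevels (v : DV K) (hQ : Q ≠ 0) (hPQ : ∀ b : K, P - C b * Q ≠ 0)
    (hPd : P.natDegree ≤ d) (hQd : Q.natDegree ≤ d) (x : ℕ → K) (hxQ : ∀ i, Q.eval (x i) ≠ 0)
    (hx : ∀ i, x (i + 1) = P.eval (x i) / Q.eval (x i)) (a : K) (r : ℤ) {L : ℕ} (hL : 1 ≤ L) :
    (ratTree v hQ hPQ hPd hQd x hxQ hx).Levels L where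
  vtx ℓ i := way v a r ℓ (x i)
  vtx_zero i j := by
    have h1 := nn_le (v := v) (a := a) (r := r) (x i)
    have h2 := nn_le (v := v) (a := a) (r := r) (x j)
    rw [way_of_le (by push_cast; omega), way_of_le (by push_cast; omega)]
  vtx_succ ℓ i j h := way_succ h
  deep i j h ℓ hℓ i'' := by
    have h1 : GP v a r ((L - 1 : ℕ) + 1) (x i) (x j) := GP.of_way h
    exact h1.way ℓ (x i'') (by omega)

/-- deep classes are close -/
lemma ratLevels_deep (hQ : Q ≠ 0) (hPQ : ∀ b : K, P - C b * Q ≠ 0)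
    (hPd : P.natDegree ≤ d) (hQd : Q.natDegree ≤ d) {x : ℕ → K} (hxQ : ∀ i, Q.eval (x i) ≠ 0)
    (hx : ∀ i, x (i + 1) = P.eval (x i) / Q.eval (x i)) (a : K) (r : ℤ) {L : ℕ} (hL : 1 ≤ L) {i j : ℕ}
    (h : (ratTree v hQ hPQ hPd hQd x hxQ hx).dir
      ((ratLevels v hQ hPQ hPd hQd x hxQ hx a r hL).vtx (L - 1) i) j =
      (ratTree v hQ hPQ hPd hQd x hxQ hx).dir
      ((ratLevels v hQ hPQ hPd hQd x hxQ hx a r hL).vtx (L - 1) i) i) : GP v a r L (x i) (x j) := by
  have h1 : GP v a r ((L - 1 : ℕ) + 1) (x i) (x j) := GP.of_way h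
  have h2 : (((L - 1 : ℕ) : ℤ) + 1) = L := by omega
  rwa [h2] at h1

end tree

end Pool.Agent.Helper51.RatTree
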