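import Mathlib

/-!
Definitions for the problem on superpositions of algebraic functions (V. Lin).
Internal version used by the proofs: composition trees and their value sets over an
arbitrary commutative complex algebra.
-/

namespace Pool.Agent.Helper51.Lin

open Polynomial

/-- The universal monic polynomial `T^n + z_1 T^(n-1) + ... + z_n` (coefficients in any
commutative ring), `z_(i+1)` being `z i` for `i : Fin n`. -/
noncomputable def univPoly (n : ℕ) {S : Type*} [CommRing S] (z : Fin n → S) : S[X] :=
  X ^ n + ∑ i : Fin n, C (z i) * X ^ (n - 1 - (i : ℕ))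

/-- Composition trees in `n` variables. The leaves are coordinate functions. A node
substitutes the functions given by `k` subtrees into the algebraic function given by the monic
equation `Φ = 0` in one unknown over `ℂ[x_1..x_k]`; either `k ≤ n - 2`, or `Φ` has degree one
(that is, the node is a polynomial in any number of variables). -/
inductive CTree (n : ℕ) : Type
  | coord (i : Fin n) : CTree n
  | node (k : ℕ) (Φ : (MvPolynomial (Fin k) ℂ)[X]) (hΦ : Φ.Monic) (hd : 0 < Φ.natDegree)
      (h : k + 2 ≤ n ∨ Φ.natDegree = 1) (D : Fin k → CTree n) : CTree n

/-- The set of values of a composition tree at the point `z` of `S^n`, all branches being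
taken. -/
def CTree.vals {n : ℕ} {S : Type*} [CommRing S] [Algebra ℂ S] (z : Fin n → S) :
    CTree n → Set S
  | .coord i => {z i}
  | .node k Φ _ _ _ D => {w | ∃ f : Fin k → S, (∀ j, f j ∈ (D j).vals z) ∧
      (Φ.map (MvPolynomial.aeval f : MvPolynomial (Fin k) ℂ →ₐ[ℂ] S).toRingHom).IsRoot w}

end Pool.Agent.Helper51.Lin
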