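import Pool.Agent.Helper51.MordellWeil

/-!
# Groups of rank at most one
-/

namespace Pool.Agent.Helper51.Cyc

/-- A finitely generated abelian group of rank at most one is cyclic modulo torsion. -/
theorem cyclic_of_rank_le_one (A : Type*) [AddCommGroup A] [Module.Finite ℤ A]
    (h : Module.finrank ℤ A ≤ 1) : ∃ g : A, ∀ a : A, ∃ k : ℤ, IsOfFinAddOrder (a - k • g) := by
  have hfree : Module.Free ℤ (A ⧸ Submodule.torsion ℤ A) := inferInstance
  have hrank : Module.finrank ℤ (A ⧸ Submodule.torsion ℤ A) ≤ 1 :=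
    (Submodule.finrank_quotient_le _).trans h
  obtain ⟨b, hb⟩ : ∃ b : A ⧸ Submodule.torsion ℤ A, ∀ x, ∃ k : ℤ, k • b = x := by
    rcases Nat.lt_or_ge (Module.finrank ℤ (A ⧸ Submodule.torsion ℤ A)) 1 with h0 | h1
    · have : Module.finrank ℤ (A ⧸ Submodule.torsion ℤ A) = 0 := by omega
      have hs : Subsingleton (A ⧸ Submodule.torsion ℤ A) := Module.finrank_zero_iff.mp this
      exact ⟨0, fun x => ⟨0, Subsingleton.elim _ _⟩⟩
    · have h2 : Module.finrank ℤ (A ⧸ Submodule.torsion ℤ A) = 1 := le_antisymm hrank h1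
      let b := Module.finBasisOfFinrankEq ℤ (A ⧸ Submodule.torsion ℤ A) h2
      refine ⟨b 0, fun x => ⟨b.repr x 0, ?_⟩⟩
      have := b.sum_repr x
      simpa using this
  obtain ⟨g, rfl⟩ := Submodule.Quotient.mk_surjective _ b
  refine ⟨g, fun a => ?_⟩
  obtain ⟨k, hk⟩ := hb (Submodule.Quotient.mk a)
  refine ⟨k, ?_⟩
  rw [← Submodule.Quotient.mk_smul, eq_comm, Submodule.Quotient.eq, Submodule.mem_torsion_iff] at hk
  obtain ⟨n, hn⟩ := hk
  rw [isOfFinAddOrder_iff_zsmul_eq_zero]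
  exact ⟨n, nonZeroDivisors.coe_ne_zero n, hn⟩

/-- An elliptic curve over a number field of rank at most one. -/
theorem cyclic_mod_torsion {K : Type*} [Field K] [NumberField K] [DecidableEq K]
    (W : WeierstrassCurve.Affine K) [W.IsElliptic] (h : Module.finrank ℤ W.Point ≤ 1) :
    ∃ G : W.Point, ∀ P : W.Point, ∃ k : ℤ, IsOfFinAddOrder (P - k • G) := by
  have h1 := MW.mordell_weil W
  have h2 : Module.Finite ℤ W.Point := Module.Finite.iff_addGroup_fg.mpr h1
  exact cyclic_of_rank_le_one W.Point h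

end Pool.Agent.Helper51.Cyc
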