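import Mathlib
import Pool.Agent.Helper52.Inv.Defs

/-!
# A Lie relation for generic traceless 2x2 matrices (for MP_0873fe_al)
-/

set_option autoImplicit false

namespace Pool.Agent.Helper51.Inv

open Pool.Agent.Helper52.Inv MvPolynomial Finset

/-- generic traceless matrices -/
noncomputable def gX : Matrix (Fin 2) (Fin 2) (MvPolynomial (Fin 6) ℤ) := !![X 0, X 1; X 2, -X 0]
/-- generic traceless matrices -/
noncomputable def gY : Matrix (Fin 2) (Fin 2) (MvPolynomial (Fin 6) ℤ) := !![X 3, X 4; X 5, -X 3]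

/-- degrees of the entries -/
def DegLE (M : Matrix (Fin 2) (Fin 2) (MvPolynomial (Fin 6) ℤ)) (d : ℕ) : Prop :=
  ∀ i j, (M i j).totalDegree ≤ d

lemma DegLE.mul {M N : Matrix (Fin 2) (Fin 2) (MvPolynomial (Fin 6) ℤ)} {d e : ℕ}
    (hM : DegLE M d) (hN : DegLE N e) : DegLE (M * N) (d + e) := by
  intro i j
  rw [Matrix.mul_apply]
  refine totalDegree_finsetSum_le fun k _ => ?_
  exact (totalDegree_mul _ _).trans (add_le_add (hM i k) (hN k j))

lemma DegLE.bracket {M N : Matrix (Fin 2) (Fin 2) (MvPolynomial (Fin 6) ℤ)} {d e : ℕ}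
    (hM : DegLE M d) (hN : DegLE N e) : DegLE ⁅M, N⁆ (d + e) := by
  intro i j
  rw [Ring.lie_def, Matrix.sub_apply]
  refine (totalDegree_sub _ _).trans (max_le (hM.mul hN i j) ?_)
  have := hN.mul hM i j
  rwa [add_comm] at this

lemma gX_deg : DegLE gX 1 := by
  intro i j
  fin_cases i <;> fin_cases j <;> simp [gX, totalDegree_X]

lemma gY_deg : DegLE gY 1 := by
  intro i j
  fin_cases i <;> fin_cases j <;> simp [gY, totalDegree_X]

lemma cC_deg (l : List Bool) : DegLE (cC gX gY l) (4 + 3 * l.length) := by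
  induction l with
  | nil =>
    have := gX_deg.bracket (gX_deg.bracket (gX_deg.bracket gY_deg))
    exact this
  | cons b l ih =>
    have h : DegLE (cB gX gY b) 3 := by
      cases b
      · exact gX_deg.bracket (gX_deg.bracket gY_deg)
      · exact gY_deg.bracket (gX_deg.bracket gY_deg)
    have := ih.bracket h
    rw [List.length_cons, mul_add, ← add_assoc]
    exact this

lemma map_cC {A B : Type*} [CommRing A] [CommRing B] (f : A →+* B)
    (x y : Matrix (Fin 2) (Fin 2) A) (l : List Bool) :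
    f.mapMatrix (cC x y l) = cC (f.mapMatrix x) (f.mapMatrix y) l := by
  have hb : ∀ u v : Matrix (Fin 2) (Fin 2) A,
      f.mapMatrix ⁅u, v⁆ = ⁅f.mapMatrix u, f.mapMatrix v⁆ := by
    intro u v
    rw [Ring.lie_def, Ring.lie_def, map_sub, map_mul, map_mul]
  induction l with
  | nil => simp only [cC, cA, hb]
  | cons b l ih =>
    simp only [cC, hb, ih]
    cases b <;> simp [cB, hb]

lemma exists_int (m : ℕ) (p : ℕ) (hp : p.Prime)
    (hm : 2 * (2 * (3 * m + 5) ^ 6) < 2 ^ m) :
    ∃ c : (Fin m → Bool) → ℤ, (∃ τ, ¬ ((p : ℤ) ∣ c τ)) ∧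
      ∑ τ, c τ • cC gX gY (List.ofFn τ) = 0 := by
  classical
  let A : Matrix (Fin 2 × Fin 2 × (Fin 6 → Fin (3 * m + 5))) (Fin m → Bool) ℤ :=
    fun q τ => coeff (Finsupp.equivFunOnFinite.symm (fun k => (q.2.2 k : ℕ)))
      (cC gX gY (List.ofFn τ) q.1 q.2.1)
  have hcard : Fintype.card (Fin 2 × Fin 2 × (Fin 6 → Fin (3 * m + 5))) <
      Fintype.card (Fin m → Bool) := by
    simpa using hm
  obtain ⟨t, ht0, htA, -⟩ := Int.Matrix.exists_ne_zero_int_vec_norm_le A hcard (by simp)
  obtain ⟨g, hg, hg1⟩ := Finset.extract_gcd t (s := univ) univ_nonempty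
  have hgcd : univ.gcd t ≠ 0 := by
    intro h
    apply ht0
    funext τ
    rw [hg τ (mem_univ τ), h, zero_mul]; rfl
  have hgA : A.mulVec g = 0 := by
    have h1 : t = univ.gcd t • g := by
      funext τ
      rw [Pi.smul_apply, smul_eq_mul]; exact hg τ (mem_univ τ)
    rw [h1, Matrix.mulVec_smul] at htA
    exact (smul_eq_zero.mp htA).resolve_left hgcd
  refine ⟨g, ?_, ?_⟩
  · by_contra hcon
    push Not at hcon
    have h2 : (p : ℤ) ∣ univ.gcd g := Finset.dvd_gcd fun τ _ => hcon τ
    rw [hg1] at h2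
    have h3 := Int.natCast_dvd_natCast.mp (by simpa using h2 : (p : ℤ) ∣ ((1 : ℕ) : ℤ))
    exact hp.one_lt.ne' (Nat.dvd_one.mp h3)
  · ext i j ν
    rw [Matrix.sum_apply, coeff_sum, Matrix.zero_apply, coeff_zero]
    by_cases hν : ∀ k, ν k < 3 * m + 5
    · have h4 := congrFun hgA (i, j, fun k => ⟨ν k, hν k⟩)
      rw [Pi.zero_apply, Matrix.mulVec, dotProduct] at h4
      rw [← h4]
      refine sum_congr rfl fun τ _ => ?_
      rw [Matrix.smul_apply, coeff_smul, smul_eq_mul, mul_comm]
      have h5 : (Finsupp.equivFunOnFinite.symm (fun k => ν k)) = ν := by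
        ext k; simp
      show _ = coeff (Finsupp.equivFunOnFinite.symm (fun k => ν k)) _ * g τ
      rw [h5]
    · push Not at hν
      obtain ⟨k, hk⟩ := hν
      refine sum_eq_zero fun τ _ => ?_
      rw [Matrix.smul_apply, coeff_smul]
      have h6 : coeff ν (cC gX gY (List.ofFn τ) i j) = 0 := by
        apply coeff_eq_zero_of_totalDegree_lt
        have h7 := cC_deg (List.ofFn τ) i j
        rw [List.length_ofFn] at h7
        have h8 : ν k ≤ ∑ i ∈ ν.support, ν i := by
          have hks : k ∈ ν.support := by rw [Finsupp.mem_support_iff]; omega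
          exact single_le_sum (f := fun i => ν i) (fun _ _ => Nat.zero_le _) hks
        omega
      rw [h6, smul_zero]

theorem exists_relation (p : ℕ) (hp : p.Prime) :
    ∃ (m : ℕ) (S : List (List Bool)) (α : List Bool → ℤ) (l₀ : List Bool), S.Nodup ∧
      (∀ l ∈ S, l.length = m) ∧ l₀ ∈ S ∧ ¬ ((p : ℤ) ∣ α l₀) ∧
      ∀ (A : Type) [CommRing A] (u v : Matrix (Fin 2) (Fin 2) A), u.trace = 0 → v.trace = 0 →
        ws u v S α = 0 := by
  obtain ⟨m, hm⟩ : ∃ m : ℕ, 2 * (2 * (3 * m + 5) ^ 6) < 2 ^ m := ⟨60, by norm_num⟩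
  obtain ⟨c, ⟨τ₀, hτ₀⟩, hc⟩ := exists_int m p hp hm
  have hinj : Function.Injective (List.ofFn : (Fin m → Bool) → List Bool) :=
    List.ofFn_injective
  refine ⟨m, (univ : Finset (Fin m → Bool)).toList.map List.ofFn,
    Function.extend List.ofFn c 0, List.ofFn τ₀, ?_, ?_, ?_, ?_, ?_⟩
  · exact (Finset.nodup_toList _).map hinj
  · intro l hl
    obtain ⟨τ, -, rfl⟩ := List.mem_map.mp hl
    exact List.length_ofFn
  · exact List.mem_map.mpr ⟨τ₀, Finset.mem_toList.mpr (mem_univ _), rfl⟩
  · rw [hinj.extend_apply]; exact hτ₀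
  · intro A _ u v hu hv
    have h1 : ws u v ((univ : Finset (Fin m → Bool)).toList.map List.ofFn)
        (Function.extend List.ofFn c 0) = ∑ τ, c τ • cC u v (List.ofFn τ) := by
      unfold ws
      rw [List.map_map]
      rw [show ((fun l => Function.extend List.ofFn c 0 l • cC u v l) ∘ List.ofFn)
        = fun τ : Fin m → Bool => c τ • cC u v (List.ofFn τ) from by
          funext τ; rw [Function.comp_apply, hinj.extend_apply]]
      rw [Finset.sum_map_toList]
    rw [h1]
    let f : MvPolynomial (Fin 6) ℤ →+* A :=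
      eval₂Hom (Int.castRingHom A) ![u 0 0, u 0 1, u 1 0, v 0 0, v 0 1, v 1 0]
    have hu1 : u 1 1 = -u 0 0 := by
      rw [Matrix.trace_fin_two] at hu
      exact eq_neg_of_add_eq_zero_right hu
    have hv1 : v 1 1 = -v 0 0 := by
      rw [Matrix.trace_fin_two] at hv
      exact eq_neg_of_add_eq_zero_right hv
    have hfX : f.mapMatrix gX = u := by
      ext i j
      fin_cases i <;> fin_cases j <;> simp [gX, f, hu1]
    have hfY : f.mapMatrix gY = v := by
      ext i j
      fin_cases i <;> fin_cases j <;> simp [gY, f, hv1]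
    have h2 := congrArg f.mapMatrix hc
    rw [map_sum, map_zero] at h2
    rw [← h2]
    refine sum_congr rfl fun τ _ => ?_
    rw [map_zsmul, map_cC, hfX, hfY]

end Pool.Agent.Helper51.Inv
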