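import Pool.Agent.Helper94.LinMean

/-!
The limit lemma: a holomorphic function of two variables bounded by a combination of two energy
densities.
-/

open MeasureTheory Filter Topology Set Metric

namespace Pool.Agent.Helper51.Lin

open Pool.Agent.Helper94.LinMean

theorem tendsto_mul_of_energy (G : ℂ × ℂ → ℂ) (α β : ℂ × ℂ → ENNReal) (V₁ : Set ℂ)
    (hV₁ : IsOpen V₁) (δ : ℝ) (hδ : 0 < δ)
    (hG : ContinuousOn G (V₁ ×ˢ ball 0 δ))
    (hGx : ∀ y ∈ ball (0 : ℂ) δ, DifferentiableOn ℂ (fun x => G (x, y)) V₁)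
    (hGy : ∀ x ∈ V₁, DifferentiableOn ℂ (fun y => G (x, y)) (ball 0 δ))
    (hα : ContinuousOn α (V₁ ×ˢ ball 0 δ)) (hβ : ContinuousOn β (V₁ ×ˢ ball 0 δ))
    (C Cβ : ENNReal) (hC : C ≠ ⊤) (hCβ : Cβ ≠ ⊤)
    (hbound : ∀ p ∈ V₁ ×ˢ ball (0 : ℂ) δ, ∀ M : ℝ, 0 < M →
      ‖G p‖ₑ ≤ C * (ENNReal.ofReal M * α p + ENNReal.ofReal M⁻¹ * β p))
    (hβint : ∀ x ∈ V₁, ∫⁻ s in ball (0 : ℂ) δ, β (x, s) ≤ Cβ)
    (F : Filter ℂ) (hF : ∀ᶠ ζ in F, ζ ≠ 0 ∧ ball ζ (‖ζ‖ / 2) ⊆ V₁)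
    (hα0 : Tendsto (fun ζ : ℂ => ∫⁻ p in ball ζ (‖ζ‖ / 2) ×ˢ ball (0 : ℂ) δ, α p
      ∂(volume.prod volume)) F (𝓝 0)) :
    Tendsto (fun ζ => ζ * G (ζ, 0)) F (𝓝 0) := by
  set D : Set ℂ := ball (0 : ℂ) δ with hD
  -- real valued inequality
  have key : ∀ ζ : ℂ, ζ ≠ 0 → ball ζ (‖ζ‖ / 2) ⊆ V₁ → ∀ e : ℝ, 0 ≤ e →
      (∫⁻ p in ball ζ (‖ζ‖ / 2) ×ˢ D, α p ∂(volume.prod volume)) ≤ ENNReal.ofReal e →
      ∀ η : ℝ, 0 < η → ‖ζ * G (ζ, 0)‖ ≤
        4 * C.toReal / (Real.pi ^ 2 * δ ^ 2) * (e / η + η * Cβ.toReal * Real.pi / 4) := by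
    intro ζ hζ hsub e he hαe η hη
    have hζ' : 0 < ‖ζ‖ := norm_pos_iff.2 hζ
    have hr : 0 < ‖ζ‖ / 2 := by positivity
    set r : ℝ := ‖ζ‖ / 2 with hrdef
    have hVsub : ball ζ r ×ˢ D ⊆ V₁ ×ˢ D := Set.prod_mono hsub (le_refl _)
    have hmeas : MeasurableSet (ball ζ r ×ˢ D) := measurableSet_ball.prod measurableSet_ball
    have h1 := enorm_le_lintegral_bidisc G ζ 0 r δ hr hδ (hG.mono hVsub)
      (fun y hy => (hGx y hy).mono hsub) (hGy ζ (hsub (mem_ball_self hr)))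
    set M : ℝ := ‖ζ‖ / η with hM
    have hMpos : 0 < M := by positivity
    have h2 : ∫⁻ p in ball ζ r ×ˢ D, ‖G p‖ₑ ∂(volume.prod volume) ≤
        ∫⁻ p in ball ζ r ×ˢ D, C * (ENNReal.ofReal M * α p + ENNReal.ofReal M⁻¹ * β p)
          ∂(volume.prod volume) :=
      setLIntegral_mono' hmeas fun p hp => hbound p (hVsub hp) M hMpos
    have hαm : AEMeasurable α ((volume.prod volume).restrict (ball ζ r ×ˢ D)) :=
      (hα.mono hVsub).aemeasurable hmeas
    have hβm : AEMeasurable β ((volume.prod volume).restrict (ball ζ r ×ˢ D)) :=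
      (hβ.mono hVsub).aemeasurable hmeas
    have h3 : ∫⁻ p in ball ζ r ×ˢ D, C * (ENNReal.ofReal M * α p + ENNReal.ofReal M⁻¹ * β p)
          ∂(volume.prod volume) =
        C * (ENNReal.ofReal M * (∫⁻ p in ball ζ r ×ˢ D, α p ∂(volume.prod volume)) +
          ENNReal.ofReal M⁻¹ * (∫⁻ p in ball ζ r ×ˢ D, β p ∂(volume.prod volume))) := by
      have hsum : AEMeasurable (fun p => ENNReal.ofReal M * α p + ENNReal.ofReal M⁻¹ * β p)
          ((volume.prod volume).restrict (ball ζ r ×ˢ D)) :=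
        (hαm.const_mul _).add (hβm.const_mul _)
      rw [lintegral_const_mul'' _ hsum,
        lintegral_add_left' (hαm.const_mul _), lintegral_const_mul'' _ hαm,
        lintegral_const_mul'' _ hβm]
    have h4 : ∫⁻ p in ball ζ r ×ˢ D, β p ∂(volume.prod volume) ≤
        Cβ * ENNReal.ofReal (Real.pi * r ^ 2) := by
      rw [← Measure.prod_restrict] at hβm ⊢
      rw [lintegral_prod _ hβm]
      calc ∫⁻ x in ball ζ r, ∫⁻ y in D, β (x, y) ≤ ∫⁻ x in ball ζ r, Cβ :=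
            setLIntegral_mono' measurableSet_ball fun x hx => hβint x (hsub hx)
        _ = Cβ * ENNReal.ofReal (Real.pi * r ^ 2) := by
            rw [setLIntegral_const, Complex.volume_ball]
            congr 1
            rw [ENNReal.ofReal_mul Real.pi_pos.le, ENNReal.ofReal_pow hr.le, mul_comm]
            congr 1
            rw [← NNReal.coe_real_pi, ENNReal.ofReal_coe_nnreal]
    have h5 : ENNReal.ofReal (Real.pi * r ^ 2) * ENNReal.ofReal (Real.pi * δ ^ 2) * ‖G (ζ, 0)‖ₑ ≤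
        C * (ENNReal.ofReal M * ENNReal.ofReal e +
          ENNReal.ofReal M⁻¹ * (Cβ * ENNReal.ofReal (Real.pi * r ^ 2))) := by
      refine (h1.trans (h2.trans h3.le)).trans ?_
      gcongr
    have h6 : Real.pi * r ^ 2 * (Real.pi * δ ^ 2) * ‖G (ζ, 0)‖ ≤
        C.toReal * (M * e + M⁻¹ * (Cβ.toReal * (Real.pi * r ^ 2))) := by
      have h7 : C = ENNReal.ofReal C.toReal := (ENNReal.ofReal_toReal hC).symm
      have h8 : Cβ = ENNReal.ofReal Cβ.toReal := (ENNReal.ofReal_toReal hCβ).symm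
      have hMi : 0 ≤ M⁻¹ := by positivity
      have hpr : 0 ≤ Real.pi * r ^ 2 := by positivity
      rw [h7, h8, ← ofReal_norm, ← ENNReal.ofReal_mul (by positivity),
        ← ENNReal.ofReal_mul (by positivity), ← ENNReal.ofReal_mul (by positivity),
        ← ENNReal.ofReal_mul (by positivity), ← ENNReal.ofReal_mul (by positivity),
        ← ENNReal.ofReal_add (by positivity) (by positivity),
        ← ENNReal.ofReal_mul (by positivity)] at h5
      exact (ENNReal.ofReal_le_ofReal_iff (by positivity)).1 h5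
    rw [norm_mul]
    have hη' : η ≠ 0 := hη.ne'
    have hpi : Real.pi ≠ 0 := Real.pi_ne_zero
    have h9 : ‖ζ‖ * ‖G (ζ, 0)‖ * (Real.pi ^ 2 * δ ^ 2 * ‖ζ‖ / 4) ≤
        (4 * C.toReal / (Real.pi ^ 2 * δ ^ 2) * (e / η + η * Cβ.toReal * Real.pi / 4)) *
          (Real.pi ^ 2 * δ ^ 2 * ‖ζ‖ / 4) := by
      have e1 : ‖ζ‖ * ‖G (ζ, 0)‖ * (Real.pi ^ 2 * δ ^ 2 * ‖ζ‖ / 4) =
          Real.pi * r ^ 2 * (Real.pi * δ ^ 2) * ‖G (ζ, 0)‖ := by
        rw [hrdef]; ring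
      have e2 : (4 * C.toReal / (Real.pi ^ 2 * δ ^ 2) * (e / η + η * Cβ.toReal * Real.pi / 4)) *
          (Real.pi ^ 2 * δ ^ 2 * ‖ζ‖ / 4) =
          C.toReal * (M * e + M⁻¹ * (Cβ.toReal * (Real.pi * r ^ 2))) := by
        rw [hrdef, hM]
        field_simp
        ring
      rw [e1, e2]; exact h6
    exact le_of_mul_le_mul_right h9 (by positivity)
  -- conclusion
  rw [Metric.tendsto_nhds]
  intro ε hε
  set c : ℝ := 4 * C.toReal / (Real.pi ^ 2 * δ ^ 2) with hc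
  have hc0 : 0 ≤ c := by positivity
  set η : ℝ := ε / (2 * (c * (Cβ.toReal * Real.pi / 4) + 1)) with hη
  have hden : 0 < c * (Cβ.toReal * Real.pi / 4) + 1 := by positivity
  have hηpos : 0 < η := by positivity
  set e : ℝ := ε * η / (4 * (c + 1)) with he
  have hepos : 0 < e := by positivity
  have h1 : ∀ᶠ ζ in F, (∫⁻ p in ball ζ (‖ζ‖ / 2) ×ˢ D, α p ∂(volume.prod volume)) ≤
      ENNReal.ofReal e := by
    have := hα0.eventually (ge_mem_nhds (show (0 : ENNReal) < ENNReal.ofReal e by simpa using hepos))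
    exact this
  filter_upwards [hF, h1] with ζ hζ1 hζ2
  rw [dist_zero_right]
  refine (key ζ hζ1.1 hζ1.2 e hepos.le hζ2 η hηpos).trans_lt ?_
  have h2 : c * (e / η) ≤ ε / 4 := by
    rw [he]
    have : c * (ε * η / (4 * (c + 1)) / η) = ε / 4 * (c / (c + 1)) := by
      field_simp
    rw [this]
    have h3 : c / (c + 1) ≤ 1 := by
      rw [div_le_one (by positivity)]; linarith
    have : 0 ≤ ε / 4 := by positivity
    nlinarith
  have h4 : c * (η * Cβ.toReal * Real.pi / 4) ≤ ε / 2 := by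
    rw [hη]
    have h5 : c * (ε / (2 * (c * (Cβ.toReal * Real.pi / 4) + 1)) * Cβ.toReal * Real.pi / 4) =
        ε / 2 * (c * (Cβ.toReal * Real.pi / 4) / (c * (Cβ.toReal * Real.pi / 4) + 1)) := by
      field_simp
    rw [h5]
    have h6 : c * (Cβ.toReal * Real.pi / 4) / (c * (Cβ.toReal * Real.pi / 4) + 1) ≤ 1 := by
      rw [div_le_one hden]; linarith
    have : 0 ≤ ε / 2 := by positivity
    nlinarith
  calc c * (e / η + η * Cβ.toReal * Real.pi / 4) = c * (e / η) +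
        c * (η * Cβ.toReal * Real.pi / 4) := by ring
    _ ≤ ε / 4 + ε / 2 := add_le_add h2 h4
    _ < ε := by linarith

end Pool.Agent.Helper51.Lin
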