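import Pool.Agent.Helper51.LinWeights
import Pool.Agent.Helper51.LinLimit
import Pool.Agent.Helper69.Lin.Line

/-!
Energy densities of the roots and their integrals.
-/

open MeasureTheory Filter Topology Set Metric Polynomial

namespace Pool.Agent.Helper51.Lin

open Pool.Agent.Helper94.LinMean Pool.Agent.Helper69.LinLine

/-- The weight with values in `ENNReal`. -/
noncomputable def H0 (u : ℂ) : ENNReal := ENNReal.ofReal (h0 u)

lemma h0_nonneg (u : ℂ) : 0 ≤ h0 u := by unfold h0; positivity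

lemma continuousAt_h0 {u : ℂ} (hu : u ≠ 0) : ContinuousAt h0 u := by
  unfold h0
  refine ContinuousAt.mul (continuous_norm.continuousAt.inv₀ (norm_ne_zero_iff.2 hu)) ?_
  refine ContinuousAt.inv₀ (by fun_prop) ?_
  positivity

lemma continuousAt_H0 {u : ℂ} (hu : u ≠ 0) : ContinuousAt H0 u :=
  ENNReal.continuous_ofReal.continuousAt.comp (continuousAt_h0 hu)

lemma measurable_H0 : Measurable H0 := by
  unfold H0 h0
  fun_prop

lemma lintegral_H0_ne_top : ∫⁻ u, H0 u ≠ ⊤ := by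
  have h := integrable_h0
  have h2 : Integrable h0 := h
  have h3 := h2.hasFiniteIntegral
  rw [hasFiniteIntegral_iff_ofReal (Filter.Eventually.of_forall h0_nonneg)] at h3
  exact h3.ne

section DR
variable {M : ℕ} {R : (MvPolynomial (Fin M) ℂ)[X]}

lemma DR_add (q : (Fin M → ℂ) × ℂ) (v v' : Fin M → ℂ) :
    DR R q (v + v') = DR R q v + DR R q v' := by
  unfold DR
  have : ((v + v', 0) : (Fin M → ℂ) × ℂ) = (v, 0) + (v', 0) := by simp
  rw [this, map_add]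
  ring

lemma DR_smul (q : (Fin M → ℂ) × ℂ) (c : ℂ) (v : Fin M → ℂ) :
    DR R q (c • v) = c * DR R q v := by
  unfold DR
  have : ((c • v, 0) : (Fin M → ℂ) × ℂ) = c • (v, 0) := by simp
  rw [this, map_smul, smul_eq_mul]
  ring

lemma differentiableAt_DR {q : (Fin M → ℂ) × ℂ} (hq : fderiv ℂ (Rf R) q (0, 1) ≠ 0)
    (v : Fin M → ℂ) : DifferentiableAt ℂ (fun q => DR R q v) q := by
  unfold DR
  have h1 := ((contDiff_fderiv_Rf R (v, 0)).differentiable (by simp)) q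
  have h2 := ((contDiff_fderiv_Rf R (0, 1)).differentiable (by simp)) q
  simp only [div_eq_mul_inv]
  exact h1.fun_neg.mul (h2.inv hq)

end DR

variable {m : ℕ} {R : (MvPolynomial (Fin (m + 1)) ℂ)[X]}

/-- Energy density in the direction of the first coordinate. -/
noncomputable def al (R : (MvPolynomial (Fin (m + 1)) ℂ)[X]) (k : Fin 3 → Fin m)
    (q : (Fin (m + 1) → ℂ) × ℂ) : ENNReal :=
  ∑ i, H0 (q.2 - q.1 (k i).succ) * ‖DR R q (cfg 1 0)‖ₑ ^ 2

/-- Energy density in the direction `v`. -/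
noncomputable def be (R : (MvPolynomial (Fin (m + 1)) ℂ)[X]) (k : Fin 3 → Fin m)
    (v : Fin (m + 1) → ℂ) (q : (Fin (m + 1) → ℂ) × ℂ) : ENNReal :=
  1 + ∑ i, H0 (q.2 - q.1 (k i).succ) * ‖DR R q v - v (k i).succ‖ₑ ^ 2

/-- The two-parameter family of configurations. -/
def lxs (l₀ v : Fin (m + 1) → ℂ) (p : ℂ × ℂ) : Fin (m + 1) → ℂ := l₀ + p.1 • cfg 1 0 + p.2 • v

lemma continuous_lxs (l₀ v : Fin (m + 1) → ℂ) : Continuous (lxs l₀ v) := by
  unfold lxs; fun_prop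

lemma cfg_succ (x : ℂ) (b : Fin m → ℂ) (i : Fin m) : cfg x b i.succ = b i := rfl
lemma cfg_zero (x : ℂ) (b : Fin m → ℂ) : cfg x b 0 = x := rfl

lemma lxs_succ (l₀ v : Fin (m + 1) → ℂ) (p : ℂ × ℂ) (i : Fin m) :
    lxs l₀ v p i.succ = l₀ i.succ + p.2 * v i.succ := by
  simp [lxs, cfg_succ]

lemma lxs_zero (l₀ v : Fin (m + 1) → ℂ) (p : ℂ × ℂ) :
    lxs l₀ v p 0 = l₀ 0 + p.1 + p.2 * v 0 := by
  simp [lxs, cfg_zero]

/-- continuity of root sums along the family -/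
lemma continuousOn_sum (hR : R.Monic) (l₀ v : Fin (m + 1) → ℂ) (V : Set (ℂ × ℂ))
    (hsep : ∀ p ∈ V, (spec R (lxs l₀ v p)).Separable) {F : Type*} [AddCommMonoid F]
    [TopologicalSpace F] [ContinuousAdd F] (g : (Fin (m + 1) → ℂ) × ℂ → F)
    (hg : ∀ p ∈ V, ∀ w ∈ rts R (lxs l₀ v p), ContinuousAt g (lxs l₀ v p, w)) :
    ContinuousOn (fun p => ∑ w ∈ rts R (lxs l₀ v p), g (lxs l₀ v p, w)) V := by
  intro p hp
  have h1 := continuousAt_sum_rts hR (hsep p hp) g (hg p hp)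
  exact (ContinuousAt.comp (f := lxs l₀ v) h1 (continuous_lxs l₀ v).continuousAt).continuousWithinAt

lemma differentiableAt_sum_x (hR : R.Monic) (l₀ v : Fin (m + 1) → ℂ) (p : ℂ × ℂ)
    (hsep : (spec R (lxs l₀ v p)).Separable) (g : (Fin (m + 1) → ℂ) × ℂ → ℂ)
    (hg : ∀ w ∈ rts R (lxs l₀ v p), DifferentiableAt ℂ g (lxs l₀ v p, w)) :
    DifferentiableAt ℂ (fun x => ∑ w ∈ rts R (lxs l₀ v (x, p.2)), g (lxs l₀ v (x, p.2), w)) p.1 := by
  have h1 := differentiableAt_sum_rts hR hsep g hg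
  have h2 : DifferentiableAt ℂ (fun x : ℂ => lxs l₀ v (x, p.2)) p.1 := by
    unfold lxs; fun_prop
  exact DifferentiableAt.comp (f := fun x : ℂ => lxs l₀ v (x, p.2)) p.1 h1 h2

lemma differentiableAt_sum_s (hR : R.Monic) (l₀ v : Fin (m + 1) → ℂ) (p : ℂ × ℂ)
    (hsep : (spec R (lxs l₀ v p)).Separable) (g : (Fin (m + 1) → ℂ) × ℂ → ℂ)
    (hg : ∀ w ∈ rts R (lxs l₀ v p), DifferentiableAt ℂ g (lxs l₀ v p, w)) :
    DifferentiableAt ℂ (fun s => ∑ w ∈ rts R (lxs l₀ v (p.1, s)), g (lxs l₀ v (p.1, s), w)) p.2 := by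
  have h1 := differentiableAt_sum_rts hR hsep g hg
  have h2 : DifferentiableAt ℂ (fun s : ℂ => lxs l₀ v (p.1, s)) p.2 := by
    unfold lxs; fun_prop
  exact DifferentiableAt.comp (f := fun s : ℂ => lxs l₀ v (p.1, s)) p.2 h1 h2

/-- the summands of the energy densities are continuous at the roots -/
lemma continuousAt_term (hR : R.Monic) {l : Fin (m + 1) → ℂ} (hs : (spec R l).Separable) {w : ℂ}
    (hw : w ∈ rts R l) (i : Fin m) (hwi : w ≠ l i.succ) (v : Fin (m + 1) → ℂ) (c : ℂ) :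
    ContinuousAt (fun q : (Fin (m + 1) → ℂ) × ℂ =>
      H0 (q.2 - q.1 i.succ) * ‖DR R q v - c‖ₑ ^ 2) (l, w) := by
  have h1 : ContinuousAt (fun q : (Fin (m + 1) → ℂ) × ℂ => H0 (q.2 - q.1 i.succ)) (l, w) := by
    refine ContinuousAt.comp (f := fun q : (Fin (m + 1) → ℂ) × ℂ => q.2 - q.1 i.succ) (g := H0)
      (continuousAt_H0 (sub_ne_zero.2 hwi)) (by fun_prop)
  have h2 : ContinuousAt (fun q : (Fin (m + 1) → ℂ) × ℂ => ‖DR R q v - c‖ₑ ^ 2) (l, w) := by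
    have h3 := (differentiableAt_DR (fderiv_Rf_snd_ne hR hs hw) v).continuousAt
    exact (ENNReal.continuous_pow 2).continuousAt.comp (h3.sub continuousAt_const).enorm
  refine ENNReal.Tendsto.mul h1 (Or.inr ?_) h2 (Or.inr ?_)
  · simp
  · simp [H0]

/-- The standing assumptions on `R`. -/
structure Good (R : (MvPolynomial (Fin (m + 1)) ℂ)[X]) : Prop where
  monic : R.Monic
  sep : ∀ l : Fin (m + 1) → ℂ, Function.Injective l → (spec R l).Separable
  av : ∀ l : Fin (m + 1) → ℂ, Function.Injective l → ∀ i, l i ∉ rts R l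

lemma Good.ne (h : Good R) {l : Fin (m + 1) → ℂ} (hl : Function.Injective l) {w : ℂ}
    (hw : w ∈ rts R l) (i : Fin (m + 1)) : w ≠ l i := fun e => h.av l hl i (e ▸ hw)

theorem energy_x (h : Good R) (l₀ v : Fin (m + 1) → ℂ) (V₁ : Set ℂ) (hV₁ : IsOpen V₁) (s : ℂ)
    (hinj : ∀ x ∈ V₁, Function.Injective (lxs l₀ v (x, s))) (K : ℕ)
    (hK : ∀ (l₀ v : Fin (m + 1) → ℂ) (c₀ c u : ℂ), (linePoly R l₀ v c₀ c u).natDegree ≤ K)
    (k : Fin 3 → Fin m) :
    ∫⁻ x in V₁, ∑ w ∈ rts R (lxs l₀ v (x, s)), al R k (lxs l₀ v (x, s), w) ≤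
      3 * (K * ∫⁻ u, H0 u) := by
  set f : Fin 3 → ℂ → ENNReal := fun i x => ∑ w ∈ rts R (lxs l₀ v (x, s)),
    H0 (w - lxs l₀ v (x, s) (k i).succ) * ‖DR R (lxs l₀ v (x, s), w) (cfg 1 0) - 0‖ₑ ^ 2 with hf
  have h1 : ∀ x, ∑ w ∈ rts R (lxs l₀ v (x, s)), al R k (lxs l₀ v (x, s), w) = ∑ i, f i x := by
    intro x
    simp only [al, hf, sub_zero]
    rw [Finset.sum_comm]
  have h2 : ∀ i, AEMeasurable (f i) (volume.restrict V₁) := by
    intro i
    have h3 : ContinuousOn (fun p => ∑ w ∈ rts R (lxs l₀ v p),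
        (fun q : (Fin (m + 1) → ℂ) × ℂ => H0 (q.2 - q.1 (k i).succ) *
          ‖DR R q (cfg 1 0) - 0‖ₑ ^ 2) (lxs l₀ v p, w)) (V₁ ×ˢ {s}) := by
      refine continuousOn_sum h.monic l₀ v (V₁ ×ˢ {s}) ?_
        (fun q : (Fin (m + 1) → ℂ) × ℂ => H0 (q.2 - q.1 (k i).succ) *
          ‖DR R q (cfg 1 0) - 0‖ₑ ^ 2) ?_
      · rintro ⟨x, s'⟩ ⟨hx, hs'⟩
        simp only [mem_singleton_iff] at hs'
        subst hs'
        exact h.sep _ (hinj x hx)
      · rintro ⟨x, s'⟩ ⟨hx, hs'⟩ w hw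
        simp only [mem_singleton_iff] at hs'
        subst hs'
        exact continuousAt_term h.monic (h.sep _ (hinj x hx)) hw (k i)
          (h.ne (hinj x hx) hw _) _ _
    have h4 : ContinuousOn (f i) V₁ := by
      refine ContinuousOn.comp (f := fun x : ℂ => (x, s)) h3 (by fun_prop) ?_
      intro x hx
      exact ⟨hx, rfl⟩
    exact h4.aemeasurable hV₁.measurableSet
  have h5 : ∀ i, ∫⁻ x in V₁, f i x ≤ K * ∫⁻ u, H0 u := by
    intro i
    have h6 := area_DR h.monic (l₀ + s • v) (cfg 1 0) ((l₀ + s • v) (k i).succ) 0 V₁ hV₁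
      (fun t ht => by
        have := h.sep _ (hinj t ht)
        have e : l₀ + s • v + t • cfg 1 0 = lxs l₀ v (t, s) := by
          unfold lxs; simp only; abel
        rw [e]; exact this) K (fun u => hK _ _ _ _ _) H0 measurable_H0
    refine le_trans (le_of_eq ?_) h6
    refine lintegral_congr fun t => ?_
    have e : l₀ + s • v + t • cfg 1 0 = lxs l₀ v (t, s) := by
      unfold lxs; simp only; abel
    rw [e]
    refine Finset.sum_congr rfl fun w _ => ?_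
    rw [lxs_succ]
    simp
  calc ∫⁻ x in V₁, ∑ w ∈ rts R (lxs l₀ v (x, s)), al R k (lxs l₀ v (x, s), w)
      = ∫⁻ x in V₁, ∑ i, f i x := lintegral_congr fun x => h1 x
    _ = ∑ i, ∫⁻ x in V₁, f i x := lintegral_finsetSum' _ fun i _ => h2 i
    _ ≤ ∑ _i : Fin 3, K * ∫⁻ u, H0 u := Finset.sum_le_sum fun i _ => h5 i
    _ = 3 * (K * ∫⁻ u, H0 u) := by simp

theorem energy_s (h : Good R) (l₀ v : Fin (m + 1) → ℂ) (x : ℂ) (δ : ℝ)
    (hinj : ∀ s ∈ ball (0 : ℂ) δ, Function.Injective (lxs l₀ v (x, s))) (K : ℕ)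
    (hK : ∀ (l₀ v : Fin (m + 1) → ℂ) (c₀ c u : ℂ), (linePoly R l₀ v c₀ c u).natDegree ≤ K)
    (k : Fin 3 → Fin m) :
    ∫⁻ s in ball (0 : ℂ) δ, ∑ w ∈ rts R (lxs l₀ v (x, s)), be R k v (lxs l₀ v (x, s), w) ≤
      R.natDegree * volume (ball (0 : ℂ) δ) + 3 * (K * ∫⁻ u, H0 u) := by
  set f : Fin 3 → ℂ → ENNReal := fun i s => ∑ w ∈ rts R (lxs l₀ v (x, s)),
    H0 (w - lxs l₀ v (x, s) (k i).succ) *
      ‖DR R (lxs l₀ v (x, s), w) v - v (k i).succ‖ₑ ^ 2 with hf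
  have h1 : ∀ s, ∑ w ∈ rts R (lxs l₀ v (x, s)), be R k v (lxs l₀ v (x, s), w) ≤
      R.natDegree + ∑ i, f i s := by
    intro s
    simp only [be, hf]
    rw [Finset.sum_add_distrib, Finset.sum_comm]
    refine add_le_add ?_ le_rfl
    simp only [Finset.sum_const, nsmul_eq_mul, mul_one]
    exact_mod_cast card_rts_le h.monic _
  have h2 : ∀ i, AEMeasurable (f i) (volume.restrict (ball (0 : ℂ) δ)) := by
    intro i
    have h3 : ContinuousOn (fun p => ∑ w ∈ rts R (lxs l₀ v p),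
        (fun q : (Fin (m + 1) → ℂ) × ℂ => H0 (q.2 - q.1 (k i).succ) *
          ‖DR R q v - v (k i).succ‖ₑ ^ 2) (lxs l₀ v p, w)) ({x} ×ˢ ball (0 : ℂ) δ) := by
      refine continuousOn_sum h.monic l₀ v ({x} ×ˢ ball (0 : ℂ) δ) ?_
        (fun q : (Fin (m + 1) → ℂ) × ℂ => H0 (q.2 - q.1 (k i).succ) *
          ‖DR R q v - v (k i).succ‖ₑ ^ 2) ?_
      · rintro ⟨x', s⟩ ⟨hx, hs⟩
        simp only [mem_singleton_iff] at hx
        subst hx
        exact h.sep _ (hinj s hs)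
      · rintro ⟨x', s⟩ ⟨hx, hs⟩ w hw
        simp only [mem_singleton_iff] at hx
        subst hx
        exact continuousAt_term h.monic (h.sep _ (hinj s hs)) hw (k i)
          (h.ne (hinj s hs) hw _) _ _
    have h4 : ContinuousOn (f i) (ball (0 : ℂ) δ) := by
      refine ContinuousOn.comp (f := fun s : ℂ => (x, s)) h3 (by fun_prop) ?_
      intro s hs
      exact ⟨rfl, hs⟩
    exact h4.aemeasurable measurableSet_ball
  have h5 : ∀ i, ∫⁻ s in ball (0 : ℂ) δ, f i s ≤ K * ∫⁻ u, H0 u := by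
    intro i
    have e : ∀ t : ℂ, l₀ + x • cfg 1 0 + t • v = lxs l₀ v (x, t) := fun t => rfl
    have h6 := area_DR h.monic (l₀ + x • cfg 1 0) v
      ((l₀ + x • cfg 1 0 : Fin (m + 1) → ℂ) (k i).succ)
      (v (k i).succ) (ball (0 : ℂ) δ) isOpen_ball
      (fun t ht => by rw [e]; exact h.sep _ (hinj t ht)) K (fun u => hK _ _ _ _ _) H0
      measurable_H0
    refine le_trans (le_of_eq ?_) h6
    refine lintegral_congr fun t => ?_
    rw [e]
    refine Finset.sum_congr rfl fun w _ => ?_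
    rw [lxs_succ]
    simp [cfg_succ]
  calc ∫⁻ s in ball (0 : ℂ) δ, ∑ w ∈ rts R (lxs l₀ v (x, s)), be R k v (lxs l₀ v (x, s), w)
      ≤ ∫⁻ s in ball (0 : ℂ) δ, ((R.natDegree : ENNReal) + ∑ i, f i s) :=
        lintegral_mono fun s => h1 s
    _ = R.natDegree * volume (ball (0 : ℂ) δ) + ∑ i, ∫⁻ s in ball (0 : ℂ) δ, f i s := by
        rw [lintegral_add_left measurable_const, lintegral_finsetSum' _ fun i _ => h2 i,
          setLIntegral_const]
    _ ≤ R.natDegree * volume (ball (0 : ℂ) δ) + ∑ _i : Fin 3, K * ∫⁻ u, H0 u := by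
        gcongr with i _
        exact h5 i
    _ = R.natDegree * volume (ball (0 : ℂ) δ) + 3 * (K * ∫⁻ u, H0 u) := by simp

end Pool.Agent.Helper51.Lin
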