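import Pool.Agent.Helper51.LinNP

/-!
Behaviour of the mixed root sums at infinity.
-/

open MeasureTheory Filter Topology Set Metric Polynomial

namespace Pool.Agent.Helper51.Lin

open Pool.Agent.Helper69.LinPoint

variable {m : ℕ} {R : (MvPolynomial (Fin (m + 1)) ℂ)[X]}

lemma lxs_inf (b v' : Fin m → ℂ) (x s : ℂ) :
    lxs (cfg 0 b) (cfg 0 v') (x, s) = cfg x (b + s • v') := by
  funext j
  refine Fin.cases ?_ (fun j => ?_) j
  · rw [lxs_zero]; simp [cfg_zero]
  · rw [lxs_succ]; simp [cfg_succ]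

instance isCountablyGenerated_cocompact : (cocompact ℂ).IsCountablyGenerated := by
  rw [← Metric.cobounded_eq_cocompact, ← comap_norm_atTop]
  infer_instance

lemma hy_cocompact (y : ℂ) : ∀ᶠ ζ in cocompact ℂ, y ∉ ball ζ (‖ζ‖ / 2) := by
  have h1 : ∀ᶠ ζ in cocompact ℂ, 2 * ‖y‖ < ‖ζ‖ :=
    (tendsto_norm_cocompact_atTop (E := ℂ)).eventually_gt_atTop _
  filter_upwards [h1] with ζ hζ h
  rw [mem_ball, dist_comm, dist_eq_norm] at h
  have h2 : ‖ζ‖ ≤ ‖ζ - y‖ + ‖y‖ := by simpa using norm_add_le (ζ - y) y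
  linarith

lemma hF_cocompact (X₁ : ℝ) (hX : 0 ≤ X₁) :
    ∀ᶠ ζ in cocompact ℂ, ζ ≠ 0 ∧ ball ζ (‖ζ‖ / 2) ⊆ {y : ℂ | X₁ < ‖y‖} := by
  have h1 : ∀ᶠ ζ in cocompact ℂ, 2 * X₁ + 1 < ‖ζ‖ :=
    (tendsto_norm_cocompact_atTop (E := ℂ)).eventually_gt_atTop _
  filter_upwards [h1] with ζ hζ
  refine ⟨?_, fun y hy => ?_⟩
  · rintro rfl
    rw [norm_zero] at hζ
    linarith
  · rw [mem_ball, dist_comm, dist_eq_norm] at hy
    have h2 : ‖ζ‖ ≤ ‖ζ - y‖ + ‖y‖ := by simpa using norm_add_le (ζ - y) y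
    rw [Set.mem_ofPred_eq]
    linarith

/-- the gap between the punctures is bounded below along the family -/
lemma exists_gap (b v' : Fin m → ℂ) (hb : Function.Injective b) (δ : ℝ) (hδ : 0 < δ) :
    ∃ δ₂ > 0, ∃ d > 0, ∀ s : ℂ, ‖s‖ < δ₂ → ‖b + s • v' - b‖ < δ ∧
      ∀ i j : Fin m, i ≠ j → d ≤ ‖(b + s • v') i - (b + s • v') j‖ := by
  have h1 : ∀ᶠ s in 𝓝 (0 : ℂ), ‖b + s • v' - b‖ < δ := by
    have : ContinuousAt (fun s : ℂ => ‖b + s • v' - b‖) 0 := by fun_prop
    refine this.tendsto.eventually (gt_mem_nhds ?_)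
    simpa using hδ
  have h2 : ∀ i j : Fin m, ∃ d > 0, ∀ᶠ s in 𝓝 (0 : ℂ), i ≠ j →
      d ≤ ‖(b + s • v') i - (b + s • v') j‖ := by
    intro i j
    by_cases hij : i = j
    · exact ⟨1, one_pos, Filter.Eventually.of_forall fun s h => absurd hij h⟩
    · have hpos : 0 < ‖b i - b j‖ := norm_pos_iff.2 (sub_ne_zero.2 fun h => hij (hb h))
      refine ⟨‖b i - b j‖ / 2, by positivity, ?_⟩
      have : ContinuousAt (fun s : ℂ => ‖(b + s • v') i - (b + s • v') j‖) 0 := by
        simp only [Pi.add_apply, Pi.smul_apply]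
        fun_prop
      have h3 := this.tendsto.eventually (lt_mem_nhds (a := ‖b i - b j‖ / 2) (by
        simp only [zero_smul, add_zero]
        linarith))
      filter_upwards [h3] with s hs _ using hs.le
  choose d hd hdd using h2
  obtain ⟨δ₂, hδ₂, hball⟩ := Metric.eventually_nhds_iff.1
    (h1.and (Filter.eventually_all.2 fun i => Filter.eventually_all.2 fun j => hdd i j))
  rcases isEmpty_or_nonempty (Fin m) with he | hne
  · exact ⟨δ₂, hδ₂, 1, one_pos, fun s hs => ⟨(hball (by simpa using hs)).1,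
      fun i => (he.false i).elim⟩⟩
  · obtain ⟨p, hp⟩ := Finite.exists_min (fun p : Fin m × Fin m => d p.1 p.2)
    refine ⟨δ₂, hδ₂, d p.1 p.2, hd _ _, fun s hs => ?_⟩
    obtain ⟨h3, h4⟩ := hball (y := s) (by simpa using hs)
    exact ⟨h3, fun i j hij => (hp (i, j)).trans (h4 i j hij)⟩

theorem inf (h : Good R) (κ : ℕ) (hκ : ∀ b T, (xPoly R b T).natDegree ≤ κ)
    (b : Fin m → ℂ) (hb : Function.Injective b) (p : ℂ) (hp : (xPoly R b p).coeff κ ≠ 0)
    (k : Fin 3 → Fin m) (hk : Function.Injective k) (v' : Fin m → ℂ) :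
    Tendsto (fun x => x * ∑ w ∈ rts R (cfg x b),
      DR R (cfg x b, w) (cfg 1 0) * (∑ i, rho (fun i => b (k i)) i *
        (DR R (cfg x b, w) (cfg 0 v') - v' (k i)) / (w - b (k i)) +
        (∑ i, rho (fun i => b (k i)) i * v' (k i)) / (w - p))) (cocompact ℂ) (𝓝 0) := by
  obtain ⟨δ, hδ, X₀, haway⟩ := Pool.Agent.Helper69.LinKappa.roots_away h.monic κ hκ b p hp
  obtain ⟨δ₂, hδ₂, d, hd, hgap⟩ := exists_gap b v' hb δ hδ
  -- bound on the parameters
  set R₁ : ℝ := ‖b‖ + δ + ‖v'‖ + ‖p‖ + 1 with hR₁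
  have hR₁pos : 0 < R₁ := by positivity
  have hbs : ∀ s : ℂ, ‖s‖ < δ₂ → ∀ i, ‖(b + s • v') i‖ ≤ R₁ := by
    intro s hs i
    refine (norm_le_pi_norm (b + s • v') i).trans ?_
    have h1 := (hgap s hs).1
    have h2 : ‖b + s • v'‖ ≤ ‖b + s • v' - b‖ + ‖b‖ := by
      have h5 := norm_add_le (b + s • v' - b) b
      rwa [sub_add_cancel] at h5
    have h3 := norm_nonneg v'
    have h4 := norm_nonneg p
    linarith
  set X₁ : ℝ := max X₀ R₁ with hX₁
  have hX₁pos : 0 < X₁ := lt_of_lt_of_le hR₁pos (le_max_right _ _)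
  set V₁ : Set ℂ := {y : ℂ | X₁ < ‖y‖} with hV₁
  have hV₁o : IsOpen V₁ := isOpen_lt continuous_const continuous_norm
  have hinjb : ∀ s : ℂ, ‖s‖ < δ₂ → Function.Injective (b + s • v') := by
    intro s hs i j hij
    by_contra hne
    have := (hgap s hs).2 i j hne
    rw [hij, sub_self, norm_zero] at this
    linarith
  have hinj : ∀ x ∈ V₁, ∀ s ∈ ball (0 : ℂ) δ₂,
      Function.Injective (lxs (cfg 0 b) (cfg 0 v') (x, s)) := by
    intro x hx s hs
    have hs' : ‖s‖ < δ₂ := by simpa using hs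
    rw [lxs_inf]
    refine Pool.Agent.Helper69.LinKappa.cfg_inj (hinjb s hs') ?_
    rintro ⟨i, hi⟩
    have h1 := hbs s hs' i
    rw [hi] at h1
    have h2 : X₁ < ‖x‖ := hx
    have h3 : R₁ ≤ X₁ := le_max_right _ _
    linarith
  obtain ⟨C, hC, hpt⟩ := pointwise_inf R₁ d δ hR₁pos hd hδ
  set v : Fin (m + 1) → ℂ := cfg 0 v' with hv
  set a : (Fin (m + 1) → ℂ) → Fin 3 → ℂ := fun l i => l (k i).succ with ha
  set g : (Fin (m + 1) → ℂ) × ℂ → ℂ := fun q => DR R q (cfg 1 0) * (∑ i, rho (a q.1) i *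
        (DR R q v - v (k i).succ) / (q.2 - a q.1 i) +
        (∑ i, rho (a q.1) i * v (k i).succ) / (q.2 - p)) with hg
  have hwp : ∀ x ∈ V₁, ∀ s ∈ ball (0 : ℂ) δ₂, ∀ w ∈ rts R (lxs (cfg 0 b) v (x, s)),
      δ ≤ ‖w - p‖ := by
    intro x hx s hs w hw
    have hs' : ‖s‖ < δ₂ := by simpa using hs
    rw [hv, lxs_inf] at hw
    exact haway _ (hgap s hs').1 x (lt_of_le_of_lt (le_max_left _ _) hx) w hw
  have hmain := lim_of_bound h k (cfg 0 b) v V₁ hV₁o δ₂ hδ₂ hinj g ?_ C ?_ (cocompact ℂ)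
    (hF_cocompact X₁ hX₁pos.le) hy_cocompact
  · refine hmain.congr fun x => ?_
    rw [hv, lxs_inf]
    simp only [hg, ha, zero_smul, add_zero, cfg_succ, hv]
  · intro x hx s hs w hw
    have hs' : ‖s‖ < δ₂ := by simpa using hs
    have hi := hinj x hx s hs
    have hne := fderiv_Rf_snd_ne h.monic (h.sep _ hi) hw
    have hrho : ∀ i, DifferentiableAt ℂ (fun q : (Fin (m + 1) → ℂ) × ℂ => rho (a q.1) i)
        (lxs (cfg 0 b) v (x, s), w) := by
      intro i
      unfold rho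
      simp only [ha]
      have h1 : DifferentiableAt ℂ (fun q : (Fin (m + 1) → ℂ) × ℂ =>
          ∏ j ∈ Finset.univ.erase i, (q.1 (k i).succ - q.1 (k j).succ))
          (lxs (cfg 0 b) v (x, s), w) := by
        have h2 : ∀ j ∈ Finset.univ.erase i, ContDiff ℂ 1
            (fun q : (Fin (m + 1) → ℂ) × ℂ => q.1 (k i).succ - q.1 (k j).succ) :=
          fun j _ => by fun_prop
        exact ((contDiff_prod h2).differentiable (by simp)) _
      refine h1.inv ?_
      rw [Finset.prod_ne_zero_iff]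
      intro j hj
      refine sub_ne_zero.2 fun e => ?_
      have := Fin.succ_injective _ (hi e)
      exact (Finset.ne_of_mem_erase hj) (hk this).symm
    have hwp' := hwp x hx s hs w hw
    refine (differentiableAt_DR hne _).mul (DifferentiableAt.add
      (DifferentiableAt.fun_sum fun i _ => ?_) ?_)
    · simp only [div_eq_mul_inv]
      refine DifferentiableAt.mul ((hrho i).mul ((differentiableAt_DR hne _).sub_const _)) ?_
      refine DifferentiableAt.inv (by simp only [ha]; fun_prop) ?_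
      exact sub_ne_zero.2 (h.ne hi hw _)
    · simp only [div_eq_mul_inv]
      refine DifferentiableAt.mul (DifferentiableAt.fun_sum fun i _ =>
        DifferentiableAt.mul (hrho i) (differentiableAt_const _)) ?_
      refine DifferentiableAt.inv (by fun_prop) ?_
      intro e
      simp only at e
      rw [e, norm_zero] at hwp'
      linarith
  · intro x hx s hs w hw M hM
    have hs' : ‖s‖ < δ₂ := by simpa using hs
    have hi := hinj x hx s hs
    refine enorm_le_of_real_bound k v _ _ C M hC hM ?_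
    refine hpt (fun i => lxs (cfg 0 b) v (x, s) (k i).succ) (fun i => v (k i).succ) w p _ _
      ?_ ?_ ?_ ?_ (hwp x hx s hs w hw) ?_ M hM
    · intro i
      rw [hv, lxs_inf]
      exact hbs s hs' (k i)
    · intro i
      have h1 : ‖v' (k i)‖ ≤ ‖v'‖ := norm_le_pi_norm v' (k i)
      have h2 : v (k i).succ = v' (k i) := rfl
      rw [h2]
      have h3 := norm_nonneg b
      have h4 := norm_nonneg p
      linarith
    · have h3 := norm_nonneg b
      have h4 := norm_nonneg v'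
      linarith
    · intro i j hij
      rw [hv, lxs_inf]
      exact (hgap s hs').2 (k i) (k j) fun e => hij (hk e)
    · intro i
      exact h.ne hi hw _

end Pool.Agent.Helper51.Lin
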