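import Pool.Agent.Helper51.LinEnergy

/-!
Limits of root sums from energy bounds.
-/

open MeasureTheory Filter Topology Set Metric Polynomial

namespace Pool.Agent.Helper51.Lin

lemma tendsto_alpha (α : ℂ × ℂ → ENNReal) (V₁ : Set ℂ) (hV₁ : IsOpen V₁) (δ : ℝ)
    (hα : ContinuousOn α (V₁ ×ˢ ball 0 δ))
    (hfin : ∫⁻ p in V₁ ×ˢ ball (0 : ℂ) δ, α p ∂(volume.prod volume) ≠ ⊤)
    (F : Filter ℂ) [F.IsCountablyGenerated]
    (hF : ∀ᶠ ζ in F, ζ ≠ 0 ∧ ball ζ (‖ζ‖ / 2) ⊆ V₁)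
    (hy : ∀ y : ℂ, ∀ᶠ ζ in F, y ∉ ball ζ (‖ζ‖ / 2)) :
    Tendsto (fun ζ : ℂ => ∫⁻ p in ball ζ (‖ζ‖ / 2) ×ˢ ball (0 : ℂ) δ, α p
      ∂(volume.prod volume)) F (𝓝 0) := by
  have hmeas : ∀ ζ : ℂ, MeasurableSet (ball ζ (‖ζ‖ / 2) ×ˢ ball (0 : ℂ) δ) := fun ζ =>
    measurableSet_ball.prod measurableSet_ball
  have hV : MeasurableSet (V₁ ×ˢ ball (0 : ℂ) δ) := hV₁.measurableSet.prod measurableSet_ball
  have h1 : Tendsto (fun ζ : ℂ => ∫⁻ p, (ball ζ (‖ζ‖ / 2) ×ˢ ball (0 : ℂ) δ).indicator α p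
      ∂(volume.prod volume)) F (𝓝 (∫⁻ _p : ℂ × ℂ, 0 ∂(volume.prod volume))) := by
    refine tendsto_lintegral_filter_of_dominated_convergence'
      ((V₁ ×ˢ ball (0 : ℂ) δ).indicator α) ?_ ?_ ?_ ?_
    · filter_upwards [hF] with ζ hζ
      rw [aemeasurable_indicator_iff (hmeas ζ)]
      exact (hα.mono (Set.prod_mono hζ.2 (le_refl _))).aemeasurable (hmeas ζ)
    · filter_upwards [hF] with ζ hζ
      refine Filter.Eventually.of_forall fun p => ?_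
      exact Set.indicator_le_indicator_of_subset (Set.prod_mono hζ.2 (le_refl _))
        (fun _ => bot_le) p
    · rwa [lintegral_indicator hV]
    · refine Filter.Eventually.of_forall fun p => ?_
      refine tendsto_const_nhds.congr' ?_
      filter_upwards [hy p.1] with ζ hζ
      rw [Set.indicator_of_notMem]
      exact fun hp => hζ hp.1
  simp only [lintegral_zero] at h1
  refine h1.congr fun ζ => ?_
  rw [lintegral_indicator (hmeas ζ)]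

variable {m : ℕ} {R : (MvPolynomial (Fin (m + 1)) ℂ)[X]}

theorem lim_of_bound (h : Good R) (k : Fin 3 → Fin m) (l₀ v : Fin (m + 1) → ℂ) (V₁ : Set ℂ)
    (hV₁ : IsOpen V₁) (δ : ℝ) (hδ : 0 < δ)
    (hinj : ∀ x ∈ V₁, ∀ s ∈ ball (0 : ℂ) δ, Function.Injective (lxs l₀ v (x, s)))
    (g : (Fin (m + 1) → ℂ) × ℂ → ℂ)
    (hg : ∀ x ∈ V₁, ∀ s ∈ ball (0 : ℂ) δ, ∀ w ∈ rts R (lxs l₀ v (x, s)),
      DifferentiableAt ℂ g (lxs l₀ v (x, s), w))
    (C : ℝ)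
    (hbound : ∀ x ∈ V₁, ∀ s ∈ ball (0 : ℂ) δ, ∀ w ∈ rts R (lxs l₀ v (x, s)),
      ∀ M : ℝ, 0 < M → ‖g (lxs l₀ v (x, s), w)‖ₑ ≤
        ENNReal.ofReal C * (ENNReal.ofReal M * al R k (lxs l₀ v (x, s), w) +
          ENNReal.ofReal M⁻¹ * be R k v (lxs l₀ v (x, s), w)))
    (F : Filter ℂ) [F.IsCountablyGenerated]
    (hF : ∀ᶠ ζ in F, ζ ≠ 0 ∧ ball ζ (‖ζ‖ / 2) ⊆ V₁)
    (hy : ∀ y : ℂ, ∀ᶠ ζ in F, y ∉ ball ζ (‖ζ‖ / 2)) :
    Tendsto (fun ζ => ζ * ∑ w ∈ rts R (lxs l₀ v (ζ, 0)), g (lxs l₀ v (ζ, 0), w)) F (𝓝 0) := by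
  obtain ⟨K, hK⟩ := Pool.Agent.Helper69.LinLine.exists_natDegree_linePoly_le R
  have hsep : ∀ p ∈ V₁ ×ˢ ball (0 : ℂ) δ, (spec R (lxs l₀ v p)).Separable :=
    fun p hp => h.sep _ (hinj p.1 hp.1 p.2 hp.2)
  have hne : ∀ p ∈ V₁ ×ˢ ball (0 : ℂ) δ, ∀ w ∈ rts R (lxs l₀ v p), ∀ i, w ≠ lxs l₀ v p i :=
    fun p hp w hw i => h.ne (hinj p.1 hp.1 p.2 hp.2) hw i
  -- the three functions
  set G : ℂ × ℂ → ℂ := fun p => ∑ w ∈ rts R (lxs l₀ v p), g (lxs l₀ v p, w) with hG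
  set α : ℂ × ℂ → ENNReal := fun p => ∑ w ∈ rts R (lxs l₀ v p), al R k (lxs l₀ v p, w) with hα
  set β : ℂ × ℂ → ENNReal := fun p => ∑ w ∈ rts R (lxs l₀ v p), be R k v (lxs l₀ v p, w) with hβ
  have hGc : ContinuousOn G (V₁ ×ˢ ball 0 δ) :=
    continuousOn_sum h.monic l₀ v _ hsep g fun p hp w hw =>
      (hg p.1 hp.1 p.2 hp.2 w hw).continuousAt
  have hαc : ContinuousOn α (V₁ ×ˢ ball 0 δ) := by
    refine continuousOn_sum h.monic l₀ v _ hsep (al R k) fun p hp w hw => ?_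
    unfold al
    refine tendsto_finsetSum _ fun i _ => ?_
    have := continuousAt_term h.monic (hsep p hp) hw (k i) (hne p hp w hw _) (cfg 1 0) 0
    simp only [sub_zero] at this
    exact this
  have hβc : ContinuousOn β (V₁ ×ˢ ball 0 δ) := by
    refine continuousOn_sum h.monic l₀ v _ hsep (be R k v) fun p hp w hw => ?_
    unfold be
    refine Tendsto.add tendsto_const_nhds (tendsto_finsetSum _ fun i _ => ?_)
    exact continuousAt_term h.monic (hsep p hp) hw (k i) (hne p hp w hw _) v (v (k i).succ)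
  have hH : ∫⁻ u, H0 u ≠ ⊤ := lintegral_H0_ne_top
  have hfin : ∫⁻ p in V₁ ×ˢ ball (0 : ℂ) δ, α p ∂(volume.prod volume) ≠ ⊤ := by
    have hm : MeasurableSet (V₁ ×ˢ ball (0 : ℂ) δ) := hV₁.measurableSet.prod measurableSet_ball
    have hαm : AEMeasurable α ((volume.prod volume).restrict (V₁ ×ˢ ball (0 : ℂ) δ)) :=
      hαc.aemeasurable hm
    rw [← Measure.prod_restrict] at hαm ⊢
    rw [lintegral_prod_symm _ hαm]
    have h1 : ∫⁻ y in ball (0 : ℂ) δ, ∫⁻ x in V₁, α (x, y) ≤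
        ∫⁻ _y in ball (0 : ℂ) δ, 3 * (K * ∫⁻ u, H0 u) := by
      refine setLIntegral_mono' measurableSet_ball fun y hy' => ?_
      exact energy_x h l₀ v V₁ hV₁ y (fun x hx => hinj x hx y hy') K hK k
    refine ne_top_of_le_ne_top ?_ h1
    rw [setLIntegral_const]
    refine ENNReal.mul_ne_top (ENNReal.mul_ne_top (by simp) (ENNReal.mul_ne_top (by simp) hH)) ?_
    exact measure_ball_lt_top.ne
  refine tendsto_mul_of_energy G α β V₁ hV₁ δ hδ hGc ?_ ?_ hαc hβc (ENNReal.ofReal C)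
    (R.natDegree * volume (ball (0 : ℂ) δ) + 3 * (K * ∫⁻ u, H0 u)) (by simp) ?_ ?_ ?_ F hF
    (tendsto_alpha α V₁ hV₁ δ hαc hfin F hF hy)
  · intro y hy' x hx
    have h1 := differentiableAt_sum_x h.monic l₀ v (x, y) (hsep (x, y) ⟨hx, hy'⟩) g
      (hg x hx y hy')
    exact h1.differentiableWithinAt
  · intro x hx y hy'
    have h1 := differentiableAt_sum_s h.monic l₀ v (x, y) (hsep (x, y) ⟨hx, hy'⟩) g
      (hg x hx y hy')
    exact h1.differentiableWithinAt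
  · refine ENNReal.add_ne_top.2 ⟨ENNReal.mul_ne_top (by simp) measure_ball_lt_top.ne, ?_⟩
    exact ENNReal.mul_ne_top (by simp) (ENNReal.mul_ne_top (by simp) hH)
  · intro p hp M hM
    simp only [hG, hα, hβ]
    rw [Finset.mul_sum, Finset.mul_sum, ← Finset.sum_add_distrib, Finset.mul_sum]
    refine (enorm_sum_le _ _).trans (Finset.sum_le_sum fun w hw => ?_)
    exact hbound p.1 hp.1 p.2 hp.2 w hw M hM
  · intro x hx
    exact energy_s h l₀ v x δ (fun s hs => hinj x hx s hs) K hK k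

/-- conversion of the pointwise bounds -/
lemma enorm_le_of_real_bound (k : Fin 3 → Fin m) (v : Fin (m + 1) → ℂ)
    (q : (Fin (m + 1) → ℂ) × ℂ) (z : ℂ) (C M : ℝ) (hC : 0 ≤ C) (hM : 0 < M)
    (hz : ‖z‖ ≤ C * (M * (∑ i, h0 (q.2 - q.1 (k i).succ) * ‖DR R q (cfg 1 0)‖ ^ 2) +
      M⁻¹ * (1 + ∑ i, h0 (q.2 - q.1 (k i).succ) * ‖DR R q v - v (k i).succ‖ ^ 2))) :
    ‖z‖ₑ ≤ ENNReal.ofReal C * (ENNReal.ofReal M * al R k q +
          ENNReal.ofReal M⁻¹ * be R k v q) := by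
  have e1 : al R k q = ENNReal.ofReal (∑ i, h0 (q.2 - q.1 (k i).succ) *
      ‖DR R q (cfg 1 0)‖ ^ 2) := by
    unfold al
    rw [ENNReal.ofReal_sum_of_nonneg fun i _ => mul_nonneg (h0_nonneg _) (by positivity)]
    refine Finset.sum_congr rfl fun i _ => ?_
    rw [ENNReal.ofReal_mul (h0_nonneg _), ENNReal.ofReal_pow (norm_nonneg _), ofReal_norm]
    rfl
  have e2 : be R k v q = ENNReal.ofReal (1 + ∑ i, h0 (q.2 - q.1 (k i).succ) *
      ‖DR R q v - v (k i).succ‖ ^ 2) := by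
    unfold be
    rw [ENNReal.ofReal_add zero_le_one (Finset.sum_nonneg fun i _ =>
        mul_nonneg (h0_nonneg _) (by positivity)), ENNReal.ofReal_one,
      ENNReal.ofReal_sum_of_nonneg fun i _ => mul_nonneg (h0_nonneg _) (by positivity)]
    congr 1
    refine Finset.sum_congr rfl fun i _ => ?_
    rw [ENNReal.ofReal_mul (h0_nonneg _), ENNReal.ofReal_pow (norm_nonneg _), ofReal_norm]
    rfl
  have n1 : 0 ≤ ∑ i, h0 (q.2 - q.1 (k i).succ) * ‖DR R q (cfg 1 0)‖ ^ 2 :=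
    Finset.sum_nonneg fun i _ => mul_nonneg (h0_nonneg _) (by positivity)
  have n2 : 0 ≤ 1 + ∑ i, h0 (q.2 - q.1 (k i).succ) * ‖DR R q v - v (k i).succ‖ ^ 2 :=
    add_nonneg zero_le_one (Finset.sum_nonneg fun i _ => mul_nonneg (h0_nonneg _) (by positivity))
  have hMi : 0 ≤ M⁻¹ := by positivity
  rw [e1, e2, ← ENNReal.ofReal_mul hM.le, ← ENNReal.ofReal_mul hMi,
    ← ENNReal.ofReal_add (by positivity) (by positivity), ← ENNReal.ofReal_mul hC,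
    ← ofReal_norm]
  exact ENNReal.ofReal_le_ofReal hz

end Pool.Agent.Helper51.Lin
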