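import Pool.Agent.Helper51.LinRoots

/-!
Restriction of the polynomial `R` to affine lines in the parameter space.
-/

open MeasureTheory Filter Topology Set Metric Polynomial

namespace Pool.Agent.Helper51.Lin

/-- The polynomial in `t` given by `R(l₀ + t v ; u + c₀ + t c)`. -/
noncomputable def linePoly {M : ℕ} (R : (MvPolynomial (Fin M) ℂ)[X]) (l₀ v : Fin M → ℂ)
    (c₀ c u : ℂ) : ℂ[X] :=
  (R.map (MvPolynomial.aeval (fun i => (C (l₀ i) + C (v i) * X : ℂ[X])) :
    MvPolynomial (Fin M) ℂ →ₐ[ℂ] ℂ[X]).toRingHom).eval (C (u + c₀) + C c * X)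

/-- The configuration with first coordinate `x` and the other coordinates `b`. -/
def cfg {m : ℕ} (x : ℂ) (b : Fin m → ℂ) : Fin (m + 1) → ℂ := Matrix.vecCons x b

/-- The polynomial in `x` given by `R(x, b ; T)`. -/
noncomputable def xPoly {m : ℕ} (R : (MvPolynomial (Fin (m + 1)) ℂ)[X]) (b : Fin m → ℂ) (T : ℂ) :
    ℂ[X] :=
  linePoly R (cfg 0 b) (cfg 1 0) 0 0 T

end Pool.Agent.Helper51.Lin
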