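import Mathlib

/-!
Functions with simple poles at finitely many points that vanish at infinity.
-/

open Filter Topology Set Metric

namespace Pool.Agent.Helper51.Lin

theorem exists_residue (g : ℂ → ℂ) (b : ℂ) (hg : ∀ᶠ x in 𝓝[≠] b, DifferentiableAt ℂ g x)
    (h : Tendsto (fun x => (x - b) ^ 2 * g x) (𝓝[≠] b) (𝓝 0)) :
    ∃ c, Tendsto (fun x => (x - b) * g x) (𝓝[≠] b) (𝓝 c) := by
  classical
  set F : ℂ → ℂ := Function.update (fun x => (x - b) ^ 2 * g x) b 0 with hF
  have hFb : F b = 0 := by simp [hF]
  have hFx : ∀ x, x ≠ b → F x = (x - b) ^ 2 * g x := fun x hx => by simp [hF, hx]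
  have hev : F =ᶠ[𝓝[≠] b] fun x => (x - b) ^ 2 * g x := by
    filter_upwards [self_mem_nhdsWithin] with x hx
    exact hFx x hx
  have hcont : ContinuousAt F b := by
    rw [continuousAt_iff_punctured_nhds, hFb]
    exact h.congr' hev.symm
  have hdiff : ∀ᶠ x in 𝓝[≠] b, DifferentiableAt ℂ F x := by
    filter_upwards [hg, self_mem_nhdsWithin] with x hx hxb
    have h1 : F =ᶠ[𝓝 x] fun x => (x - b) ^ 2 * g x := by
      filter_upwards [isOpen_ne.mem_nhds hxb] with y hy
      exact hFx y hy
    refine DifferentiableAt.congr_of_eventuallyEq ?_ h1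
    exact ((differentiableAt_id.sub_const b).pow 2).mul hx
  have han := Complex.analyticAt_of_differentiable_on_punctured_nhds_of_continuousAt hdiff hcont
  obtain ⟨c, hc⟩ : ∃ c, HasDerivAt F c b := ⟨_, han.differentiableAt.hasDerivAt⟩
  refine ⟨c, ?_⟩
  refine (hasDerivAt_iff_tendsto_slope.1 hc).congr' ?_
  filter_upwards [self_mem_nhdsWithin] with x hx
  have hxb : x - b ≠ 0 := sub_ne_zero.2 hx
  rw [slope_def_field, hFb, hFx x hx, sub_zero]
  field_simp

theorem eq_sum_of_simple_poles {m : ℕ} (b : Fin m → ℂ) (hb : Function.Injective b) (g : ℂ → ℂ)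
    (hg : ∀ x ∉ Set.range b, DifferentiableAt ℂ g x) (c : Fin m → ℂ)
    (hc : ∀ i, Tendsto (fun x => (x - b i) * g x) (𝓝[≠] (b i)) (𝓝 (c i)))
    (hinf : Tendsto g (cocompact ℂ) (𝓝 0)) :
    ∀ x ∉ Set.range b, g x = ∑ i, c i / (x - b i) := by
  classical
  have hfin : (Set.range b).Finite := Set.finite_range b
  set S : ℂ → ℂ := fun x => ∑ i, c i / (x - b i) with hS
  set E : ℂ → ℂ := fun x => g x - S x with hE
  have hSd : ∀ x ∉ Set.range b, DifferentiableAt ℂ S x := by
    intro x hx
    refine DifferentiableAt.fun_sum fun i _ => ?_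
    refine (differentiableAt_const _).div (differentiableAt_id.sub_const _) ?_
    intro h0
    exact hx ⟨i, (sub_eq_zero.1 h0).symm⟩
  have hEd : ∀ x ∉ Set.range b, DifferentiableAt ℂ E x := fun x hx => (hg x hx).sub (hSd x hx)
  have hSlim : ∀ i, Tendsto (fun x => (x - b i) * S x) (𝓝[≠] (b i)) (𝓝 (c i)) := by
    intro i
    have h1 : ∀ k, Tendsto (fun x => (x - b i) * (c k / (x - b k))) (𝓝[≠] (b i))
        (𝓝 (if k = i then c i else 0)) := by
      intro k
      by_cases hki : k = i
      · subst hki
        rw [if_pos rfl]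
        refine Tendsto.congr' ?_ tendsto_const_nhds
        filter_upwards [self_mem_nhdsWithin] with x hx
        have : x - b k ≠ 0 := sub_ne_zero.2 hx
        field_simp
      · rw [if_neg hki]
        have h2 : ContinuousAt (fun x => (x - b i) * (c k / (x - b k))) (b i) := by
          refine (continuousAt_id.sub continuousAt_const).mul
            (continuousAt_const.div (continuousAt_id.sub continuousAt_const) ?_)
          intro h0
          exact hki (hb (sub_eq_zero.1 h0)).symm
        have h3 := h2.tendsto
        simp only [sub_self, zero_mul] at h3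
        exact h3.mono_left nhdsWithin_le_nhds
    have h2 := tendsto_finsetSum Finset.univ fun k _ => h1 k
    simp only [Finset.sum_ite_eq', Finset.mem_univ, if_true] at h2
    refine h2.congr fun x => ?_
    rw [hS, Finset.mul_sum]
  have hElim : ∀ i, Tendsto (fun x => (x - b i) * E x) (𝓝[≠] (b i)) (𝓝 0) := by
    intro i
    have h1 := (hc i).sub (hSlim i)
    rw [sub_self] at h1
    refine h1.congr fun x => ?_
    rw [hE]; ring
  -- punctured neighbourhoods avoid the range
  have hpunct : ∀ i, ∀ᶠ x in 𝓝[≠] (b i), x ∉ Set.range b := by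
    intro i
    have h1 : (Set.range b \ {b i}).Finite := hfin.subset Set.sdiff_subset
    have h2 : (Set.range b \ {b i})ᶜ ∈ 𝓝 (b i) :=
      h1.isClosed.isOpen_compl.mem_nhds (by simp)
    filter_upwards [self_mem_nhdsWithin, nhdsWithin_le_nhds h2] with x hx1 hx2 hx3
    exact hx2 ⟨hx3, hx1⟩
  set F : ℂ → ℂ := fun x => if x ∈ Set.range b then limUnder (𝓝[≠] x) E else E x with hF
  have hFE : ∀ x ∉ Set.range b, F x = E x := fun x hx => by simp only [hF]; rw [if_neg hx]
  have hFd : Differentiable ℂ F := by
    intro x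
    by_cases hx : x ∈ Set.range b
    · obtain ⟨i, rfl⟩ := hx
      have h1 : ∀ᶠ z in 𝓝[≠] (b i), DifferentiableAt ℂ E z := by
        filter_upwards [hpunct i] with z hz using hEd z hz
      have h2 : (fun z => E z - E (b i)) =o[𝓝[≠] (b i)] fun z => (z - b i)⁻¹ := by
        rw [Asymptotics.isLittleO_iff_tendsto']
        · have h3 : Tendsto (fun x => (x - b i) * E x - (x - b i) * E (b i)) (𝓝[≠] (b i))
              (𝓝 (0 - 0)) := by
            refine (hElim i).sub ?_
            have h4 : ContinuousAt (fun x => (x - b i) * E (b i)) (b i) :=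
              (continuousAt_id.sub continuousAt_const).mul continuousAt_const
            have h5 := h4.tendsto
            simp only [sub_self, zero_mul] at h5
            exact h5.mono_left nhdsWithin_le_nhds
          rw [sub_zero] at h3
          refine h3.congr fun z => ?_
          rw [div_inv_eq_mul]; ring
        · filter_upwards [self_mem_nhdsWithin] with z hz h0
          exact absurd (inv_eq_zero.1 h0) (sub_ne_zero.2 hz)
      have h3 := Complex.tendsto_limUnder_of_differentiable_on_punctured_nhds_of_isLittleO h1 h2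
      have hFb : F (b i) = limUnder (𝓝[≠] (b i)) E := by
        simp only [hF]; rw [if_pos (Set.mem_range_self i)]
      have hev : E =ᶠ[𝓝[≠] (b i)] F := by
        filter_upwards [hpunct i] with z hz
        exact (hFE z hz).symm
      have h4 : ContinuousAt F (b i) := by
        rw [continuousAt_iff_punctured_nhds, hFb]
        exact h3.congr' hev
      have h5 : ∀ᶠ z in 𝓝[≠] (b i), DifferentiableAt ℂ F z := by
        filter_upwards [hpunct i] with z hz
        have h6 : F =ᶠ[𝓝 z] E := by
          filter_upwards [hfin.isClosed.isOpen_compl.mem_nhds hz] with y hy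
          exact hFE y hy
        exact (hEd z hz).congr_of_eventuallyEq h6
      exact (Complex.analyticAt_of_differentiable_on_punctured_nhds_of_continuousAt h5
        h4).differentiableAt
    · have h6 : F =ᶠ[𝓝 x] E := by
        filter_upwards [hfin.isClosed.isOpen_compl.mem_nhds hx] with y hy
        exact hFE y hy
      exact (hEd x hx).congr_of_eventuallyEq h6
  have hSinf : Tendsto S (cocompact ℂ) (𝓝 0) := by
    have h1 : ∀ i ∈ (Finset.univ : Finset (Fin m)),
        Tendsto (fun x => c i / (x - b i)) (cocompact ℂ) (𝓝 0) := by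
      intro i _
      have h2 : Tendsto (fun x : ℂ => x - b i) (cocompact ℂ) (cocompact ℂ) := by
        simpa using (Homeomorph.subRight (b i)).isClosedEmbedding.tendsto_cocompact
      have h3 : Tendsto (fun x : ℂ => (x - b i)⁻¹) (cocompact ℂ) (𝓝 0) :=
        (tendsto_inv₀_cobounded (α := ℂ)).comp (by
          rw [← Metric.cobounded_eq_cocompact] at h2 ⊢; exact h2)
      simpa [div_eq_mul_inv] using h3.const_mul (c i)
    have h2 := tendsto_finsetSum Finset.univ h1
    simpa using h2
  have hFinf : Tendsto F (cocompact ℂ) (𝓝 0) := by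
    have h1 := hinf.sub hSinf
    rw [sub_zero] at h1
    refine h1.congr' ?_
    have h2 : ∀ᶠ x in cocompact ℂ, x ∉ Set.range b := by
      exact hfin.isCompact.compl_mem_cocompact
    filter_upwards [h2] with x hx
    rw [hFE x hx]
  intro x hx
  have h1 := hFd.apply_eq_of_tendsto_cocompact x hFinf
  rw [hFE x hx] at h1
  exact sub_eq_zero.1 h1

end Pool.Agent.Helper51.Lin
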