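import Mathlib

/-!
Roots of a monic polynomial whose coefficients are polynomials in `m` complex parameters:
local branches, sums over the roots.
-/

open MeasureTheory Filter Topology Set Metric Polynomial

namespace Pool.Agent.Helper51.Lin

variable {m : ℕ}

/-- The specialisation of `R` at the parameter point `l`. -/
noncomputable def spec (R : (MvPolynomial (Fin m) ℂ)[X]) (l : Fin m → ℂ) : ℂ[X] :=
  R.map (MvPolynomial.eval l)

/-- The polynomial `R` as a function of the parameters and of the unknown. -/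
noncomputable def Rf (R : (MvPolynomial (Fin m) ℂ)[X]) (p : (Fin m → ℂ) × ℂ) : ℂ :=
  (spec R p.1).eval p.2

/-- The set of roots of the specialisation. -/
noncomputable def rts (R : (MvPolynomial (Fin m) ℂ)[X]) (l : Fin m → ℂ) : Finset ℂ :=
  (spec R l).roots.toFinset

/-- The derivative of a simple root in the direction `v`. -/
noncomputable def DR (R : (MvPolynomial (Fin m) ℂ)[X]) (p : (Fin m → ℂ) × ℂ) (v : Fin m → ℂ) : ℂ :=
  -(fderiv ℂ (Rf R) p (v, 0)) / (fderiv ℂ (Rf R) p (0, 1))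

variable {R : (MvPolynomial (Fin m) ℂ)[X]}

lemma Rf_eq_sum (R : (MvPolynomial (Fin m) ℂ)[X]) (p : (Fin m → ℂ) × ℂ) :
    Rf R p = ∑ i ∈ Finset.range (R.natDegree + 1), MvPolynomial.eval p.1 (R.coeff i) * p.2 ^ i := by
  unfold Rf spec
  rw [Polynomial.eval_map, Polynomial.eval₂_eq_sum_range]

lemma contDiff_Rf (R : (MvPolynomial (Fin m) ℂ)[X]) : ContDiff ℂ ⊤ (Rf R) := by
  have : Rf R = fun p => ∑ i ∈ Finset.range (R.natDegree + 1),
      MvPolynomial.eval p.1 (R.coeff i) * p.2 ^ i := by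
    funext p; exact Rf_eq_sum R p
  rw [this]
  refine ContDiff.sum fun i _ => ?_
  refine ContDiff.mul ?_ (contDiff_snd.pow i)
  have h := (AnalyticOnNhd.eval_mvPolynomial (𝕜 := ℂ) (R.coeff i)).contDiff (n := ⊤)
  exact h.comp contDiff_fst

lemma hasStrictFDerivAt_Rf (R : (MvPolynomial (Fin m) ℂ)[X]) (p : (Fin m → ℂ) × ℂ) :
    HasStrictFDerivAt (Rf R) (fderiv ℂ (Rf R) p) p :=
  (contDiff_Rf R).contDiffAt.hasStrictFDerivAt (by simp)

lemma continuous_Rf (R : (MvPolynomial (Fin m) ℂ)[X]) : Continuous (Rf R) :=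
  (contDiff_Rf R).continuous

lemma contDiff_fderiv_Rf (R : (MvPolynomial (Fin m) ℂ)[X]) (v : (Fin m → ℂ) × ℂ) :
    ContDiff ℂ ⊤ (fun p => fderiv ℂ (Rf R) p v) :=
  ((contDiff_Rf R).fderiv_right (m := ⊤) (by simp)).clm_apply contDiff_const

lemma spec_monic (hR : R.Monic) (l : Fin m → ℂ) : (spec R l).Monic := hR.map _

lemma natDegree_spec (hR : R.Monic) (l : Fin m → ℂ) : (spec R l).natDegree = R.natDegree :=
  hR.natDegree_map _

lemma mem_rts (hR : R.Monic) (l : Fin m → ℂ) (w : ℂ) : w ∈ rts R l ↔ Rf R (l, w) = 0 := by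
  unfold rts Rf
  rw [Multiset.mem_toFinset, Polynomial.mem_roots (spec_monic hR l).ne_zero]
  rfl

lemma fderiv_Rf_snd (R : (MvPolynomial (Fin m) ℂ)[X]) (l : Fin m → ℂ) (w : ℂ) :
    fderiv ℂ (Rf R) (l, w) (0, 1) = (derivative (spec R l)).eval w := by
  have h1 : HasDerivAt (fun u : ℂ => Rf R (l, u)) (fderiv ℂ (Rf R) (l, w) (0, 1)) w := by
    have h2 : HasDerivAt (fun u : ℂ => ((l, u) : (Fin m → ℂ) × ℂ)) (0, 1) w :=
      (hasDerivAt_const w l).prodMk (hasDerivAt_id w)
    exact (hasStrictFDerivAt_Rf R (l, w)).hasFDerivAt.comp_hasDerivAt w h2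
  have h3 : HasDerivAt (fun u : ℂ => Rf R (l, u)) ((derivative (spec R l)).eval w) w :=
    (spec R l).hasDerivAt w
  exact h1.unique h3

lemma fderiv_Rf_snd_ne (hR : R.Monic) {l : Fin m → ℂ} (hs : (spec R l).Separable) {w : ℂ}
    (hw : w ∈ rts R l) : fderiv ℂ (Rf R) (l, w) (0, 1) ≠ 0 := by
  rw [fderiv_Rf_snd]
  have h0 : (spec R l).eval w = 0 := (mem_rts hR l w).1 hw
  have := hs.aeval_derivative_ne_zero (x := w) (by simpa using h0)
  simpa using this

lemma card_rts (hR : R.Monic) {l : Fin m → ℂ} (hs : (spec R l).Separable) :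
    (rts R l).card = R.natDegree := by
  unfold rts
  rw [Multiset.toFinset_card_of_nodup (Polynomial.nodup_roots hs),
    ← natDegree_spec hR l]
  exact (Polynomial.splits_iff_card_roots.1 (IsAlgClosed.splits (spec R l)))

lemma card_rts_le (hR : R.Monic) (l : Fin m → ℂ) : (rts R l).card ≤ R.natDegree := by
  unfold rts
  refine (Multiset.toFinset_card_le _).trans ?_
  rw [← natDegree_spec hR l]
  exact Polynomial.card_roots' _

lemma prod_rts (hR : R.Monic) {l : Fin m → ℂ} (hs : (spec R l).Separable) :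
    spec R l = ∏ w ∈ rts R l, (X - C w) := by
  have h := (IsAlgClosed.splits (spec R l)).eq_prod_roots_of_monic (spec_monic hR l)
  conv_lhs => rw [h]
  unfold rts
  rw [Finset.prod_eq_multiset_prod, Multiset.toFinset_val,
    Multiset.dedup_eq_self.2 (Polynomial.nodup_roots hs)]

/-- Local branches of the roots. -/
theorem exists_branches (hR : R.Monic) {l₀ : Fin m → ℂ} (hs : (spec R l₀).Separable) :
    ∃ ψ : ℂ → (Fin m → ℂ) → ℂ, (∀ w ∈ rts R l₀, ψ w l₀ = w) ∧
      (∀ w ∈ rts R l₀, ∃ L : (Fin m → ℂ) →L[ℂ] ℂ, (∀ v, L v = DR R (l₀, w) v) ∧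
        HasStrictFDerivAt (ψ w) L l₀) ∧
      (∀ᶠ l in 𝓝 l₀, Set.InjOn (fun w => ψ w l) (rts R l₀) ∧
        rts R l = (rts R l₀).image (fun w => ψ w l)) := by
  classical
  have key : ∀ w : ℂ, ∃ ψ : (Fin m → ℂ) → ℂ, w ∈ rts R l₀ → (ψ l₀ = w ∧
      (∃ L : (Fin m → ℂ) →L[ℂ] ℂ, (∀ v, L v = DR R (l₀, w) v) ∧
        HasStrictFDerivAt ψ L l₀) ∧ ∀ᶠ l in 𝓝 l₀, Rf R (l, ψ l) = 0) := by
    intro w
    by_cases hw : w ∈ rts R l₀
    · have hf := hasStrictFDerivAt_Rf R (l₀, w)
      have hne := fderiv_Rf_snd_ne hR hs hw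
      set f' := fderiv ℂ (Rf R) (l₀, w) with hf'
      have hinv : (f' ∘L .inr ℂ (Fin m → ℂ) ℂ).IsInvertible := by
        refine ⟨ContinuousLinearEquiv.unitsEquivAut ℂ (Units.mk0 _ hne), ?_⟩
        ext
        simp
      refine ⟨hf.implicitFunctionOfProdDomain hinv, fun _ => ⟨?_, ?_, ?_⟩⟩
      · exact (hf.eventually_apply_eq_iff_implicitFunctionOfProdDomain hinv).self_of_nhds.1 rfl
      · refine ⟨_, ?_, hf.hasStrictFDerivAt_implicitFunctionOfProdDomain hinv⟩
        intro v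
        have h1 : (f' ∘L .inr ℂ (Fin m → ℂ) ℂ).inverse (f' (v, 0)) =
            f' (v, 0) / f' (0, 1) := by
          have h2 : (f' ∘L .inr ℂ (Fin m → ℂ) ℂ) (f' (v, 0) / f' (0, 1)) = f' (v, 0) := by
            have h3 : (f' ∘L .inr ℂ (Fin m → ℂ) ℂ) (f' (v, 0) / f' (0, 1)) =
                (f' (v, 0) / f' (0, 1)) • f' (0, 1) := by
              rw [← map_smul]
              simp
            rw [h3, smul_eq_mul, div_mul_cancel₀ _ hne]
          conv_lhs => rw [← h2]
          exact hinv.inverse_apply_eq.2 rfl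
        simp only [ContinuousLinearMap.comp_apply, neg_apply,
          ContinuousLinearMap.inl_apply]
        unfold DR
        rw [← hf', h1, neg_div]
      · have h0 : Rf R (l₀, w) = 0 := (mem_rts hR _ _).1 hw
        have := hf.eventually_apply_implicitFunctionOfProdDomain hinv
        simpa [h0] using this
    · exact ⟨0, fun h => absurd h hw⟩
  choose ψ hψ using key
  refine ⟨ψ, fun w hw => (hψ w hw).1, fun w hw => (hψ w hw).2.1, ?_⟩
  have hcont : ∀ w ∈ rts R l₀, ContinuousAt (ψ w) l₀ := fun w hw => by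
    obtain ⟨L, _, hL⟩ := (hψ w hw).2.1
    exact hL.continuousAt
  have h1 : ∀ᶠ l in 𝓝 l₀, ∀ w ∈ rts R l₀, Rf R (l, ψ w l) = 0 := by
    rw [Filter.eventually_all_finset]
    exact fun w hw => (hψ w hw).2.2
  have h2 : ∀ᶠ l in 𝓝 l₀, ∀ w ∈ rts R l₀, ∀ w' ∈ rts R l₀, w ≠ w' → ψ w l ≠ ψ w' l := by
    rw [Filter.eventually_all_finset]
    intro w hw
    rw [Filter.eventually_all_finset]
    intro w' hw'
    by_cases hne : w = w'
    · exact Filter.Eventually.of_forall fun l h => absurd hne h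
    · have h3 : ψ w l₀ ≠ ψ w' l₀ := by rw [(hψ w hw).1, (hψ w' hw').1]; exact hne
      filter_upwards [((hcont w hw).sub (hcont w' hw')).eventually_ne (sub_ne_zero.2 h3)]
        with l hl _
      exact sub_ne_zero.1 hl
  filter_upwards [h1, h2] with l hl1 hl2
  have hinj : Set.InjOn (fun w => ψ w l) (rts R l₀) := by
    intro w hw w' hw' h
    by_contra hne
    exact hl2 w hw w' hw' hne h
  refine ⟨hinj, ?_⟩
  symm
  apply Finset.eq_of_subset_of_card_le
  · intro u hu
    rw [Finset.mem_image] at hu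
    obtain ⟨w, hw, rfl⟩ := hu
    exact (mem_rts hR _ _).2 (hl1 w hw)
  · rw [Finset.card_image_of_injOn hinj, card_rts hR hs]
    exact card_rts_le hR l

/-- Sums over the roots of a continuous function are continuous. -/
theorem continuousAt_sum_rts {F : Type*} [AddCommMonoid F] [TopologicalSpace F] [ContinuousAdd F]
    (hR : R.Monic) {l₀ : Fin m → ℂ} (hs : (spec R l₀).Separable) (g : (Fin m → ℂ) × ℂ → F)
    (hg : ∀ w ∈ rts R l₀, ContinuousAt g (l₀, w)) :
    ContinuousAt (fun l => ∑ w ∈ rts R l, g (l, w)) l₀ := by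
  obtain ⟨ψ, h1, h2, h3⟩ := exists_branches hR hs
  have h4 : (fun l => ∑ w ∈ rts R l, g (l, w)) =ᶠ[𝓝 l₀]
      fun l => ∑ w ∈ rts R l₀, g (l, ψ w l) := by
    filter_upwards [h3] with l hl
    rw [hl.2, Finset.sum_image hl.1]
  refine ContinuousAt.congr ?_ h4.symm
  refine tendsto_finsetSum _ fun w hw => ?_
  have h5 : ContinuousAt (fun l => (l, ψ w l)) l₀ := by
    obtain ⟨L, _, hL⟩ := h2 w hw
    exact continuousAt_id.prodMk hL.continuousAt
  have h6 : ContinuousAt g (l₀, ψ w l₀) := by rw [h1 w hw]; exact hg w hw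
  exact ContinuousAt.comp (f := fun l => (l, ψ w l)) h6 h5

/-- Sums over the roots of a holomorphic function are holomorphic. -/
theorem differentiableAt_sum_rts (hR : R.Monic) {l₀ : Fin m → ℂ} (hs : (spec R l₀).Separable)
    (g : (Fin m → ℂ) × ℂ → ℂ) (hg : ∀ w ∈ rts R l₀, DifferentiableAt ℂ g (l₀, w)) :
    DifferentiableAt ℂ (fun l => ∑ w ∈ rts R l, g (l, w)) l₀ := by
  obtain ⟨ψ, h1, h2, h3⟩ := exists_branches hR hs
  have h4 : (fun l => ∑ w ∈ rts R l, g (l, w)) =ᶠ[𝓝 l₀]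
      fun l => ∑ w ∈ rts R l₀, g (l, ψ w l) := by
    filter_upwards [h3] with l hl
    rw [hl.2, Finset.sum_image hl.1]
  refine DifferentiableAt.congr_of_eventuallyEq ?_ h4
  refine DifferentiableAt.fun_sum fun w hw => ?_
  have h5 : DifferentiableAt ℂ (fun l => (l, ψ w l)) l₀ := by
    obtain ⟨L, _, hL⟩ := h2 w hw
    exact differentiableAt_id.prodMk hL.hasFDerivAt.differentiableAt
  have h6 : DifferentiableAt ℂ g (l₀, ψ w l₀) := by rw [h1 w hw]; exact hg w hw
  exact DifferentiableAt.comp (f := fun l => (l, ψ w l)) l₀ h6 h5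

lemma Rf_eq_prod (hR : R.Monic) {l : Fin m → ℂ} (hs : (spec R l).Separable) (p : ℂ) :
    Rf R (l, p) = ∏ w ∈ rts R l, (p - w) := by
  unfold Rf
  conv_lhs => rw [prod_rts hR hs]
  simp [Polynomial.eval_prod]

/-- Logarithmic derivative. -/
theorem sum_DR_div (hR : R.Monic) {l₀ : Fin m → ℂ} (hs : (spec R l₀).Separable)
    (v : Fin m → ℂ) (p : ℂ) (hp : p ∉ rts R l₀) :
    ∑ w ∈ rts R l₀, DR R (l₀, w) v / (w - p) =
      fderiv ℂ (Rf R) (l₀, p) (v, 0) / Rf R (l₀, p) := by
  classical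
  obtain ⟨ψ, h1, h2, h3⟩ := exists_branches hR hs
  have hnat : R.natDegree = (rts R l₀).card := (card_rts hR hs).symm
  have h4 : (fun l => Rf R (l, p)) =ᶠ[𝓝 l₀] fun l => ∏ w ∈ rts R l₀, (p - ψ w l) := by
    filter_upwards [h3] with l hl
    have hcard : (rts R l).card = R.natDegree := by
      rw [hl.2, Finset.card_image_of_injOn hl.1, hnat]
    have hroots : (rts R l).val = (spec R l).roots := by
      apply Multiset.eq_of_le_of_card_le (Multiset.dedup_le _)
      have : (spec R l).roots.card = R.natDegree := by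
        rw [← natDegree_spec hR l]
        exact (Polynomial.splits_iff_card_roots.1 (IsAlgClosed.splits (spec R l)))
      rw [this, ← hcard]
      exact le_rfl
    have h5 : spec R l = ∏ w ∈ rts R l, (X - C w) := by
      have h := (IsAlgClosed.splits (spec R l)).eq_prod_roots_of_monic (spec_monic hR l)
      conv_lhs => rw [h]
      rw [Finset.prod_eq_multiset_prod, hroots]
    have h6 : Rf R (l, p) = ∏ w ∈ rts R l, (p - w) := by
      unfold Rf
      conv_lhs => rw [h5]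
      simp [Polynomial.eval_prod]
    rw [h6, hl.2, Finset.prod_image hl.1]
  have h7 : HasDerivAt (fun t : ℂ => Rf R (l₀ + t • v, p))
      (fderiv ℂ (Rf R) (l₀, p) (v, 0)) 0 := by
    have h8 : HasDerivAt (fun t : ℂ => ((l₀ + t • v, p) : (Fin m → ℂ) × ℂ)) (v, 0) 0 := by
      refine HasDerivAt.prodMk ?_ (hasDerivAt_const _ _)
      simpa using ((hasDerivAt_id (0 : ℂ)).smul_const v).const_add l₀
    have h9 := (hasStrictFDerivAt_Rf R (l₀ + (0 : ℂ) • v, p)).hasFDerivAt.comp_hasDerivAt (0 : ℂ) h8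
    simpa [Function.comp_def] using h9
  have hlin : HasDerivAt (fun t : ℂ => l₀ + t • v) v 0 := by
    simpa using ((hasDerivAt_id (0 : ℂ)).smul_const v).const_add l₀
  have htend : Tendsto (fun t : ℂ => l₀ + t • v) (𝓝 0) (𝓝 l₀) := by
    have := hlin.continuousAt.tendsto
    simpa using this
  have h10 : HasDerivAt (fun t : ℂ => ∏ w ∈ rts R l₀, (p - ψ w (l₀ + t • v)))
      (∑ w ∈ rts R l₀, (∏ w' ∈ (rts R l₀).erase w, (p - w')) • (-DR R (l₀, w) v)) 0 := by
    have h11 : ∀ w ∈ rts R l₀, HasDerivAt (fun t : ℂ => p - ψ w (l₀ + t • v))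
        (-DR R (l₀, w) v) 0 := by
      intro w hw
      obtain ⟨L, hL1, hL2⟩ := h2 w hw
      have h12 : HasFDerivAt (ψ w) L (l₀ + (0 : ℂ) • v) := by simpa using hL2.hasFDerivAt
      have h13 := h12.comp_hasDerivAt (0 : ℂ) hlin
      rw [← hL1 v]
      exact h13.const_sub p
    have h14 := HasDerivAt.fun_finsetProd h11
    refine h14.congr_deriv ?_
    refine Finset.sum_congr rfl fun w hw => ?_
    congr 1
    refine Finset.prod_congr rfl fun w' hw' => ?_
    rw [zero_smul, add_zero, h1 w' (Finset.mem_of_mem_erase hw')]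
  have h15 : fderiv ℂ (Rf R) (l₀, p) (v, 0) =
      ∑ w ∈ rts R l₀, (∏ w' ∈ (rts R l₀).erase w, (p - w')) • (-DR R (l₀, w) v) := by
    refine h7.unique (h10.congr_of_eventuallyEq ?_)
    exact htend.eventually h4
  have hprod := Rf_eq_prod hR hs p
  have hne : ∀ w ∈ rts R l₀, p - w ≠ 0 := fun w hw h => hp (by
    rw [sub_eq_zero.1 h]; exact hw)
  have hne' : ∏ w ∈ rts R l₀, (p - w) ≠ 0 := Finset.prod_ne_zero_iff.2 hne
  rw [h15, hprod, Finset.sum_div]
  refine Finset.sum_congr rfl fun w hw => ?_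
  rw [← Finset.mul_prod_erase _ _ hw, smul_eq_mul]
  have h16 := hne w hw
  have h17 : ∏ w' ∈ (rts R l₀).erase w, (p - w') ≠ 0 :=
    Finset.prod_ne_zero_iff.2 fun w' hw' => hne w' (Finset.mem_of_mem_erase hw')
  have h18 : w - p ≠ 0 := by
    intro h; apply h16; rw [← neg_sub, h, neg_zero]
  field_simp
  ring

end Pool.Agent.Helper51.Lin
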