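import Pool.Agent.Helper51.LinTrace
import Pool.Agent.Helper69.Lin.B1
import Pool.Agent.Helper43.LinB2
import Pool.Agent.Helper69.Lin.A0

/-!
Assembly: the two main theorems in terms of `univPoly`, `spec` and composition trees.
-/

open Polynomial

namespace Pool.Agent.Helper51.Lin

/-- Theorem A: no extra branches. -/
theorem spec_eq_univPoly_of_branch {n : ℕ} (hn : 4 < n)
    (Q : (MvPolynomial (Fin n) ℂ)[X]) (hQ : Q.Monic)
    (hsep : ∀ z : Fin n → ℂ, (univPoly n z).Separable → (spec Q z).Separable)
    (U : Set (Fin n → ℂ)) (hU : IsOpen U) (hne : U.Nonempty)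
    (hjoint : ∀ z ∈ U, ∃ w, (univPoly n z).IsRoot w ∧ (spec Q z).IsRoot w) :
    ∀ z, spec Q z = univPoly n z := by
  obtain ⟨m, rfl⟩ : ∃ m, n = m + 1 := ⟨n - 1, by omega⟩
  have hm : 4 ≤ m := by omega
  exact Pool.Agent.Helper69.LinA0.spec_eq_univPoly
    (fun R hR h1 h2 => no_sections hm R hR h1 h2) Q hQ hsep U hU hne hjoint

/-- Theorem B: the function `lambda_n` is not given by a composition tree. -/
theorem CTree.exists_val_not_root {n : ℕ} (hn : 4 ≤ n) (t : CTree n) :
    ∃ z : Fin n → ℂ, ∃ w ∈ t.vals z, ¬ (univPoly n z).IsRoot w := by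
  by_contra hcon
  push Not at hcon
  obtain ⟨B, _, _, _, G, _, _, _, ε, lam, ρ, z, h1, h2, h3, h4, h5, h6, h7, h8, h9, h10, h11⟩ :=
    Pool.Agent.Helper43.LinB2.exists_localData n (by omega)
  exact Pool.Agent.Helper69.Lin.CTree.not_vals_subset_range hn h1 ε h2 lam h3 ρ h4 h5 h6 z h7 h8 h9
    t (Pool.Agent.Helper43.LinB2.vals_subset_range_of_forall t h11 lam z h10 hcon)

/-- For a nonconstant polynomial over a field of characteristic zero the discriminant vanishes
exactly when the polynomial is not separable. -/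
theorem discr_eq_zero_iff {f : ℂ[X]} (hf : 0 < f.natDegree) :
    f.discr = 0 ↔ ¬ f.Separable := by
  have h1 := resultant_deriv (f := f) (natDegree_pos_iff_degree_pos.1 hf)
  have hf0 : f ≠ 0 := by rintro rfl; simp at hf
  have hlc : f.leadingCoeff ≠ 0 := leadingCoeff_ne_zero.2 hf0
  have hd : f.derivative.natDegree = f.natDegree - 1 := natDegree_derivative f
  have h2 : resultant f f.derivative f.natDegree (f.natDegree - 1) = resultant f f.derivative := by
    rw [hd]
  rw [h2] at h1
  have h3 : f.discr = 0 ↔ resultant f f.derivative = 0 := by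
    rw [h1]
    constructor
    · intro h; rw [h, mul_zero]
    · intro h
      rcases mul_eq_zero.1 h with h4 | h4
      · rcases mul_eq_zero.1 h4 with h5 | h5
        · exact absurd h5 (pow_ne_zero _ (by norm_num))
        · exact absurd h5 hlc
      · exact h4
  rw [h3, resultant_eq_zero_iff, Separable]
  simp [hf0]

end Pool.Agent.Helper51.Lin
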