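import Pool.Agent.Helper51.LinLim2
import Pool.Agent.Helper69.Lin.Point
import Pool.Agent.Helper69.Lin.Kappa

/-!
Behaviour of the mixed root sums near a puncture.
-/

open MeasureTheory Filter Topology Set Metric Polynomial

namespace Pool.Agent.Helper51.Lin

open Pool.Agent.Helper69.LinPoint

section bounded
variable {M : ℕ} {R : (MvPolynomial (Fin M) ℂ)[X]}

lemma roots_bounded (hR : R.Monic) (ρ : ℝ) :
    ∃ B : ℝ, 0 < B ∧ ∀ l : Fin M → ℂ, ‖l‖ ≤ ρ → ∀ w ∈ rts R l, ‖w‖ ≤ B := by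
  set c : (Fin M → ℂ) → ℝ := fun l => ∑ i ∈ Finset.range R.natDegree,
    ‖MvPolynomial.eval l (R.coeff i)‖ with hc
  have hcont : Continuous c := by
    refine continuous_finsetSum _ fun i _ => ?_
    exact (MvPolynomial.continuous_eval _).norm
  obtain ⟨B, hB⟩ := (isCompact_closedBall (0 : Fin M → ℂ) ρ).exists_bound_of_continuousOn
    hcont.continuousOn
  refine ⟨max B 0 + 1, by positivity, fun l hl w hw => ?_⟩
  have h1 : c l ≤ max B 0 := by
    have := hB l (by simpa using hl)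
    rw [Real.norm_eq_abs] at this
    exact (le_abs_self _).trans (this.trans (le_max_left _ _))
  by_contra hcon
  push Not at hcon
  have hw1 : 1 ≤ ‖w‖ := by
    have : 0 ≤ max B 0 := le_max_right _ _
    linarith
  have h0 : Rf R (l, w) = 0 := (mem_rts hR l w).1 hw
  rw [Rf_eq_sum, Finset.sum_range_succ, hR.coeff_natDegree] at h0
  simp only [map_one, one_mul] at h0
  have h2 : w ^ R.natDegree = -∑ i ∈ Finset.range R.natDegree,
      MvPolynomial.eval l (R.coeff i) * w ^ i := by linear_combination h0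
  rcases Nat.eq_zero_or_pos R.natDegree with hN | hN
  · rw [hN] at h0
    simp at h0
  · have h3 : ‖w‖ ^ R.natDegree ≤ c l * ‖w‖ ^ (R.natDegree - 1) := by
      rw [← norm_pow, h2, norm_neg, hc, Finset.sum_mul]
      refine (norm_sum_le _ _).trans (Finset.sum_le_sum fun i hi => ?_)
      rw [norm_mul, norm_pow]
      refine mul_le_mul_of_nonneg_left ?_ (norm_nonneg _)
      refine pow_le_pow_right₀ hw1 ?_
      have := Finset.mem_range.1 hi
      omega
    have h4 : ‖w‖ ^ R.natDegree = ‖w‖ * ‖w‖ ^ (R.natDegree - 1) := by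
      rw [← pow_succ']
      congr 1
      omega
    rw [h4] at h3
    have h5 : ‖w‖ ≤ c l := le_of_mul_le_mul_right h3 (by positivity)
    linarith

end bounded

variable {m : ℕ} {R : (MvPolynomial (Fin (m + 1)) ℂ)[X]}

lemma lxs_np (b : Fin m → ℂ) (i₀ : Fin m) (v : Fin (m + 1) → ℂ) (ζ : ℂ) :
    lxs (cfg (b i₀) b) v (ζ, 0) = cfg (b i₀ + ζ) b := by
  funext j
  refine Fin.cases ?_ (fun j => ?_) j
  · rw [lxs_zero]; simp [cfg_zero]
  · rw [lxs_succ]; simp [cfg_succ]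

lemma exists_radius (b : Fin m → ℂ) (hb : Function.Injective b) (i₀ : Fin m)
    (v : Fin (m + 1) → ℂ) (hv : v 0 = v i₀.succ) :
    ∃ r > 0, ∀ ζ : ℂ, ζ ≠ 0 → ‖ζ‖ < r → ∀ s : ℂ, ‖s‖ < r →
      Function.Injective (lxs (cfg (b i₀) b) v (ζ, s)) := by
  have h1 : ∀ᶠ p in 𝓝 ((0 : ℂ), (0 : ℂ)), ∀ j j' : Fin m, j ≠ j' →
      b j + p.2 * v j.succ - (b j' + p.2 * v j'.succ) ≠ 0 := by
    rw [Filter.eventually_all]
    intro j
    rw [Filter.eventually_all]
    intro j'
    by_cases hjj : j = j'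
    · exact Filter.Eventually.of_forall fun p h => absurd hjj h
    · have : ContinuousAt (fun p : ℂ × ℂ => b j + p.2 * v j.succ - (b j' + p.2 * v j'.succ))
          (0, 0) := by fun_prop
      have h2 := this.eventually_ne (y := 0) (by
        simp only [zero_mul, add_zero]
        exact sub_ne_zero.2 fun h => hjj (hb h))
      filter_upwards [h2] with p hp _ using hp
  have h2 : ∀ᶠ p in 𝓝 ((0 : ℂ), (0 : ℂ)), ∀ j : Fin m, j ≠ i₀ →
      b i₀ + p.1 + p.2 * v 0 - (b j + p.2 * v j.succ) ≠ 0 := by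
    rw [Filter.eventually_all]
    intro j
    by_cases hjj : j = i₀
    · exact Filter.Eventually.of_forall fun p h => absurd hjj h
    · have : ContinuousAt (fun p : ℂ × ℂ => b i₀ + p.1 + p.2 * v 0 - (b j + p.2 * v j.succ))
          (0, 0) := by fun_prop
      have h2 := this.eventually_ne (y := 0) (by
        simp only [zero_mul, add_zero]
        exact sub_ne_zero.2 fun h => hjj (hb h).symm)
      filter_upwards [h2] with p hp _ using hp
  obtain ⟨r, hr, hball⟩ := Metric.eventually_nhds_iff.1 (h1.and h2)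
  refine ⟨r, hr, fun ζ hζ hζr s hs => ?_⟩
  have h3 := hball (y := (ζ, s)) (by
    rw [Prod.dist_eq]
    simp only [dist_zero_right]
    exact max_lt hζr hs)
  obtain ⟨h4, h5⟩ := h3
  simp only at h4 h5
  have hz : ∀ j : Fin m, lxs (cfg (b i₀) b) v (ζ, s) 0 ≠ lxs (cfg (b i₀) b) v (ζ, s) j.succ := by
    intro j
    rw [lxs_zero, lxs_succ, cfg_zero, cfg_succ]
    simp only
    by_cases hj : j = i₀
    · subst hj
      rw [hv]
      intro h
      apply hζ
      linear_combination h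
    · exact sub_ne_zero.1 (h5 j hj)
  intro i j hij
  refine Fin.cases ?_ (fun i' => ?_) i hij
  · refine Fin.cases (fun _ => rfl) (fun j' h => ?_) j
    exact absurd h (hz j')
  · refine Fin.cases (fun h => ?_) (fun j' h => ?_) j
    · exact absurd h.symm (hz i')
    · rw [lxs_succ, lxs_succ, cfg_succ, cfg_succ] at h
      by_contra hne
      have hne' : i' ≠ j' := fun e => hne (by rw [e])
      exact h4 i' j' hne' (sub_eq_zero.2 h)

lemma hy_nhdsNE (y : ℂ) : ∀ᶠ ζ in 𝓝[≠] (0 : ℂ), y ∉ ball ζ (‖ζ‖ / 2) := by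
  by_cases hy : y = 0
  · subst hy
    filter_upwards with ζ h
    rw [mem_ball, dist_comm, dist_zero_right] at h
    have := norm_nonneg ζ
    linarith
  · have h1 : ∀ᶠ ζ in 𝓝[≠] (0 : ℂ), ‖ζ‖ < ‖y‖ / 2 := by
      apply nhdsWithin_le_nhds
      have : Tendsto (fun ζ : ℂ => ‖ζ‖) (𝓝 0) (𝓝 0) := by simpa using (continuous_norm (E := ℂ)).tendsto 0
      exact this.eventually (gt_mem_nhds (by positivity))
    filter_upwards [h1] with ζ hζ h
    rw [mem_ball, dist_eq_norm] at h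
    have h2 : ‖y‖ ≤ ‖y - ζ‖ + ‖ζ‖ := by simpa using norm_add_le (y - ζ) ζ
    have h3 := norm_nonneg y
    linarith

lemma hF_nhdsNE (r : ℝ) (hr : 0 < r) :
    ∀ᶠ ζ in 𝓝[≠] (0 : ℂ), ζ ≠ 0 ∧ ball ζ (‖ζ‖ / 2) ⊆ {y : ℂ | y ≠ 0 ∧ ‖y‖ < r} := by
  have h1 : ∀ᶠ ζ in 𝓝[≠] (0 : ℂ), ‖ζ‖ < r / 2 := by
    apply nhdsWithin_le_nhds
    have : Tendsto (fun ζ : ℂ => ‖ζ‖) (𝓝 0) (𝓝 0) := by simpa using (continuous_norm (E := ℂ)).tendsto 0
    exact this.eventually (gt_mem_nhds (by positivity))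
  filter_upwards [h1, self_mem_nhdsWithin] with ζ hζ hne
  refine ⟨hne, fun y hy => ?_⟩
  rw [mem_ball, dist_eq_norm] at hy
  have hpos : 0 < ‖ζ‖ := norm_pos_iff.2 hne
  constructor
  · rintro rfl
    rw [zero_sub, norm_neg] at hy
    linarith
  · have h2 : ‖y‖ ≤ ‖y - ζ‖ + ‖ζ‖ := by simpa using norm_add_le (y - ζ) ζ
    linarith

theorem np (h : Good R) (b : Fin m → ℂ) (hb : Function.Injective b) (k : Fin 3 → Fin m)
    (i₀ : Fin m) (v : Fin (m + 1) → ℂ) (hv : v 0 = v i₀.succ) (ρ : Fin 3 → ℂ) :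
    Tendsto (fun ζ => ζ * ∑ w ∈ rts R (cfg (b i₀ + ζ) b),
      DR R (cfg (b i₀ + ζ) b, w) (cfg 1 0) * ∑ i, ρ i *
        (DR R (cfg (b i₀ + ζ) b, w) v - v (k i).succ) / (w - b (k i))) (𝓝[≠] 0) (𝓝 0) := by
  obtain ⟨r, hr, hinj⟩ := exists_radius b hb i₀ v hv
  set V₁ : Set ℂ := {y : ℂ | y ≠ 0 ∧ ‖y‖ < r} with hV₁
  have hV₁o : IsOpen V₁ := by
    rw [hV₁]
    exact isOpen_ne.inter (isOpen_lt continuous_norm continuous_const)
  -- bounds on the parameters
  set l₀ := cfg (b i₀) b with hl₀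
  have hlb : ∀ p : ℂ × ℂ, ‖p.1‖ < r → ‖p.2‖ < r →
      ‖lxs l₀ v p‖ ≤ ‖l₀‖ + r * ‖(cfg 1 0 : Fin (m + 1) → ℂ)‖ + r * ‖v‖ := by
    intro p h1 h2
    unfold lxs
    refine (norm_add_le _ _).trans (add_le_add ((norm_add_le _ _).trans (add_le_add le_rfl ?_)) ?_)
    · rw [norm_smul]
      exact mul_le_mul_of_nonneg_right h1.le (norm_nonneg _)
    · rw [norm_smul]
      exact mul_le_mul_of_nonneg_right h2.le (norm_nonneg _)
  set L : ℝ := ‖l₀‖ + r * ‖(cfg 1 0 : Fin (m + 1) → ℂ)‖ + r * ‖v‖ with hL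
  have hL0 : 0 ≤ L := by positivity
  obtain ⟨B, hB, hBw⟩ := roots_bounded (R := R) h.monic L
  obtain ⟨C, hC, hpt⟩ := pointwise_np (B + L) (∑ i, ‖ρ i‖ + 1) (by positivity) (by positivity)
  set g : (Fin (m + 1) → ℂ) × ℂ → ℂ := fun q => DR R q (cfg 1 0) * ∑ i, ρ i *
        (DR R q v - v (k i).succ) / (q.2 - q.1 (k i).succ) with hg
  have hmain := lim_of_bound h k l₀ v V₁ hV₁o r hr
    (fun x hx s hs => hinj x hx.1 hx.2 s (by simpa using hs)) g ?_ C ?_ (𝓝[≠] 0)
    (hF_nhdsNE r hr) hy_nhdsNE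
  · refine hmain.congr fun ζ => ?_
    rw [hl₀, lxs_np]
    simp only [hg, cfg_succ]
  · intro x hx s hs w hw
    have hi := hinj x hx.1 hx.2 s (by simpa using hs)
    have hne := fderiv_Rf_snd_ne h.monic (h.sep _ hi) hw
    refine (differentiableAt_DR hne _).mul (DifferentiableAt.fun_sum fun i _ => ?_)
    simp only [div_eq_mul_inv]
    refine DifferentiableAt.mul (((differentiableAt_DR hne _).sub_const _).const_mul _) ?_
    refine DifferentiableAt.inv (by fun_prop) ?_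
    exact sub_ne_zero.2 (h.ne hi hw _)
  · intro x hx s hs w hw M hM
    have hs' : ‖s‖ < r := by simpa using hs
    have hi := hinj x hx.1 hx.2 s hs'
    refine enorm_le_of_real_bound k v _ _ C M hC hM ?_
    refine hpt (fun i => lxs l₀ v (x, s) (k i).succ) (fun i => v (k i).succ) ρ w _ _ ?_ ?_ ?_ M hM
    · intro i
      have := Finset.single_le_sum (f := fun i => ‖ρ i‖) (fun i _ => norm_nonneg _)
        (Finset.mem_univ i)
      linarith
    · intro i
      have h1 := hBw _ (hlb (x, s) hx.2 hs') w hw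
      have h2 := (norm_le_pi_norm (lxs l₀ v (x, s)) (k i).succ).trans (hlb (x, s) hx.2 hs')
      exact (norm_sub_le _ _).trans (add_le_add h1 h2)
    · intro i
      exact h.ne hi hw _

end Pool.Agent.Helper51.Lin
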