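import Pool.Agent.Helper51.LinInf
import Pool.Agent.Helper51.LinLiouville
import Pool.Agent.Helper61.LinFinal

/-!
The trace identity and the main theorem on multisections of the configuration space.
-/

open MeasureTheory Filter Topology Set Metric Polynomial

namespace Pool.Agent.Helper51.Lin

open Pool.Agent.Helper69.LinPoint Pool.Agent.Helper69.LinKappa Pool.Agent.Helper94.LinMean

variable {m : ℕ} {R : (MvPolynomial (Fin (m + 1)) ℂ)[X]}

lemma differentiableAt_sum_cfg (hR : R.Monic) (b : Fin m → ℂ) (x : ℂ)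
    (hsep : (spec R (cfg x b)).Separable) (g : (Fin (m + 1) → ℂ) × ℂ → ℂ)
    (hg : ∀ w ∈ rts R (cfg x b), DifferentiableAt ℂ g (cfg x b, w)) :
    DifferentiableAt ℂ (fun x => ∑ w ∈ rts R (cfg x b), g (cfg x b, w)) x := by
  have h1 := differentiableAt_sum_rts hR hsep g hg
  have h2 : DifferentiableAt ℂ (fun x : ℂ => cfg x b) x := by
    have : (fun x : ℂ => cfg x b) = fun t => cfg 0 b + t • cfg 1 (0 : Fin m → ℂ) := by
      funext t
      exact (Pool.Agent.Helper61.LinFinal.cfg_line b t).symm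
    rw [this]
    fun_prop
  exact DifferentiableAt.comp (f := fun x : ℂ => cfg x b) x h1 h2

/-- The trace of the quadratic differential. -/
noncomputable def trA (R : (MvPolynomial (Fin (m + 1)) ℂ)[X]) (b : Fin m → ℂ)
    (k : Fin 3 → Fin m) (x : ℂ) : ℂ :=
  ∑ w ∈ rts R (cfg x b), DR R (cfg x b, w) (cfg 1 0) ^ 2 / ∏ i, (w - b (k i))

/-- The mixed term. -/
noncomputable def trG (R : (MvPolynomial (Fin (m + 1)) ℂ)[X]) (b : Fin m → ℂ)
    (k : Fin 3 → Fin m) (v' : Fin m → ℂ) (x : ℂ) : ℂ :=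
  ∑ w ∈ rts R (cfg x b), DR R (cfg x b, w) (cfg 1 0) * ∑ i, rho (fun i => b (k i)) i *
        (DR R (cfg x b, w) (cfg 0 v') - v' (k i)) / (w - b (k i))

lemma differentiableAt_trA (h : Good R) (b : Fin m → ℂ) (hb : Function.Injective b)
    (k : Fin 3 → Fin m) (x : ℂ) (hx : x ∉ Set.range b) : DifferentiableAt ℂ (trA R b k) x := by
  have hi := cfg_inj hb hx
  refine differentiableAt_sum_cfg h.monic b x (h.sep _ hi)
    (fun q => DR R q (cfg 1 0) ^ 2 / ∏ i, (q.2 - b (k i))) fun w hw => ?_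
  have hne := fderiv_Rf_snd_ne h.monic (h.sep _ hi) hw
  simp only [div_eq_mul_inv]
  have h1 : DifferentiableAt ℂ (fun q : (Fin (m + 1) → ℂ) × ℂ => ∏ i, (q.2 - b (k i)))
      (cfg x b, w) := by
    have h2 : ∀ j ∈ (Finset.univ : Finset (Fin 3)), ContDiff ℂ 1
        (fun q : (Fin (m + 1) → ℂ) × ℂ => q.2 - b (k j)) := fun j _ => by fun_prop
    exact ((contDiff_prod h2).differentiable (by simp)) _
  refine ((differentiableAt_DR hne _).pow 2).mul (h1.inv ?_)
  rw [Finset.prod_ne_zero_iff]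
  intro i _
  exact sub_ne_zero.2 (h.ne hi hw (k i).succ)

lemma differentiableAt_trG (h : Good R) (b : Fin m → ℂ) (hb : Function.Injective b)
    (k : Fin 3 → Fin m) (v' : Fin m → ℂ) (x : ℂ) (hx : x ∉ Set.range b) :
    DifferentiableAt ℂ (trG R b k v') x := by
  have hi := cfg_inj hb hx
  refine differentiableAt_sum_cfg h.monic b x (h.sep _ hi)
    (fun q => DR R q (cfg 1 0) * ∑ i, rho (fun i => b (k i)) i *
        (DR R q (cfg 0 v') - v' (k i)) / (q.2 - b (k i))) fun w hw => ?_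
  have hne := fderiv_Rf_snd_ne h.monic (h.sep _ hi) hw
  refine (differentiableAt_DR hne _).mul (DifferentiableAt.fun_sum fun i _ => ?_)
  simp only [div_eq_mul_inv]
  refine DifferentiableAt.mul (((differentiableAt_DR hne _).sub_const _).const_mul _) ?_
  refine DifferentiableAt.inv (by fun_prop) ?_
  exact sub_ne_zero.2 (h.ne hi hw (k i).succ)

lemma lintegral_trA_ne_top (h : Good R) (b : Fin m → ℂ) (hb : Function.Injective b)
    (k : Fin 3 → Fin m) (hk : Function.Injective k) :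
    ∫⁻ x in (Set.range b)ᶜ, ‖trA R b k x‖ₑ ≠ ⊤ := by
  obtain ⟨K, hK⟩ := Pool.Agent.Helper69.LinLine.exists_natDegree_linePoly_le R
  have hbk : ∀ i j : Fin 3, i ≠ j → b (k i) ≠ b (k j) := fun i j hij e => hij (hk (hb e))
  have hint := Pool.Agent.Helper61.LinFinal.integrable_inv_three (hbk 0 1 (by decide))
    (hbk 0 2 (by decide)) (hbk 1 2 (by decide))
  set q : ℂ → ℂ := fun w => ((w - b (k 0)) * (w - b (k 1)) * (w - b (k 2)))⁻¹ with hq
  have hqm : Measurable q := by rw [hq]; fun_prop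
  have hO : IsOpen ((Set.range b)ᶜ) := (Set.finite_range b).isClosed.isOpen_compl
  have harea := Pool.Agent.Helper69.LinLine.area_DR h.monic (cfg 0 b) (cfg 1 (0 : Fin m → ℂ)) 0 0
    (Set.range b)ᶜ hO
    (fun t ht => by
      rw [Pool.Agent.Helper61.LinFinal.cfg_line]; exact h.sep _ (cfg_inj hb ht)) K
    (fun u => hK _ _ _ _ u) (fun u => ‖q u‖ₑ) hqm.enorm
  have h2 : (K : ENNReal) * ∫⁻ u, ‖q u‖ₑ ≠ ⊤ :=
    ENNReal.mul_ne_top (by simp) hint.hasFiniteIntegral.ne
  refine ne_top_of_le_ne_top h2 (le_trans (lintegral_mono fun x => ?_) harea)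
  rw [Pool.Agent.Helper61.LinFinal.cfg_line]
  unfold trA
  refine (enorm_sum_le _ _).trans (Finset.sum_le_sum fun w _ => ?_)
  rw [mul_zero, add_zero, sub_zero, sub_zero, div_eq_mul_inv, enorm_mul, enorm_pow, mul_comm,
    Fin.prod_univ_three]

lemma tendsto_sq_mul_trA (h : Good R) (b : Fin m → ℂ) (hb : Function.Injective b)
    (k : Fin 3 → Fin m) (hk : Function.Injective k) (i₀ : Fin m) :
    Tendsto (fun x => (x - b i₀) ^ 2 * trA R b k x) (𝓝[≠] (b i₀)) (𝓝 0) := by
  set O : Set ℂ := (Set.range b)ᶜ with hO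
  have hOo : IsOpen O := (Set.finite_range b).isClosed.isOpen_compl
  have hT := lintegral_trA_ne_top h b hb k hk
  -- balls avoid the punctures
  have hball : ∀ᶠ x in 𝓝[≠] (b i₀), ball x (‖x - b i₀‖ / 2) ⊆ O := by
    have h1 : (Set.range b \ {b i₀}).Finite := (Set.finite_range b).subset Set.sdiff_subset
    have h2 : (Set.range b \ {b i₀})ᶜ ∈ 𝓝 (b i₀) := h1.isClosed.isOpen_compl.mem_nhds (by simp)
    obtain ⟨r, hr, hrb⟩ := Metric.mem_nhds_iff.1 h2
    have h3 : ∀ᶠ x in 𝓝[≠] (b i₀), ‖x - b i₀‖ < r / 2 := by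
      apply nhdsWithin_le_nhds
      have : ContinuousAt (fun x => ‖x - b i₀‖) (b i₀) := by fun_prop
      exact this.tendsto.eventually (gt_mem_nhds (by simpa using half_pos hr))
    filter_upwards [h3, self_mem_nhdsWithin] with x hx hne y hy
    have hpos : 0 < ‖x - b i₀‖ := norm_pos_iff.2 (sub_ne_zero.2 hne)
    rw [mem_ball, dist_eq_norm] at hy
    have h4 : ‖y - b i₀‖ ≤ ‖y - x‖ + ‖x - b i₀‖ := norm_sub_le_norm_sub_add_norm_sub _ _ _
    have h5 : y ∈ ball (b i₀) r := by
      rw [mem_ball, dist_eq_norm]; linarith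
    have h6 := hrb h5
    rintro hyr
    have h7 : y ≠ b i₀ := by
      rintro rfl
      rw [← norm_neg, neg_sub] at hy
      linarith
    exact h6 ⟨hyr, h7⟩
  have hmeas0 : Tendsto ((volume.restrict O) ∘ fun x => ball x (‖x - b i₀‖ / 2)) (𝓝[≠] (b i₀))
      (𝓝 0) := by
    have h1 : Tendsto (fun x => volume (ball x (‖x - b i₀‖ / 2))) (𝓝[≠] (b i₀)) (𝓝 0) := by
      simp_rw [Complex.volume_ball]
      have h2 : Tendsto (fun x => ENNReal.ofReal (‖x - b i₀‖ / 2) ^ 2) (𝓝 (b i₀)) (𝓝 (0 ^ 2)) := by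
        refine ENNReal.Tendsto.pow ?_
        have : ContinuousAt (fun x => ENNReal.ofReal (‖x - b i₀‖ / 2)) (b i₀) :=
          ENNReal.continuous_ofReal.continuousAt.comp (by fun_prop)
        simpa [ContinuousAt] using this
      have h3 := ENNReal.Tendsto.mul_const (b := (NNReal.pi : ENNReal)) h2 (Or.inr (by simp))
      simp only [ne_eq, OfNat.ofNat_ne_zero, not_false_eq_true, zero_pow, zero_mul] at h3
      exact h3.mono_left nhdsWithin_le_nhds
    refine tendsto_of_tendsto_of_tendsto_of_le_of_le tendsto_const_nhds h1 (fun _ => bot_le) ?_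
    intro x
    exact Measure.restrict_le_self _
  have hlim := tendsto_setLIntegral_zero hT hmeas0
  -- pointwise bound
  have hb1 : ∀ᶠ x in 𝓝[≠] (b i₀), ENNReal.ofReal (Real.pi / 4) *
      ‖(x - b i₀) ^ 2 * trA R b k x‖ₑ ≤
      ∫⁻ z in ball x (‖x - b i₀‖ / 2), ‖trA R b k z‖ₑ ∂(volume.restrict O) := by
    filter_upwards [hball, self_mem_nhdsWithin] with x hx hne
    have hpos : 0 < ‖x - b i₀‖ := norm_pos_iff.2 (sub_ne_zero.2 hne)
    have h1 := enorm_le_lintegral_ball (trA R b k) x (‖x - b i₀‖ / 2) (by positivity)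
      (fun z hz => (differentiableAt_trA h b hb k z (hx hz)).differentiableWithinAt)
    rw [Measure.restrict_restrict measurableSet_ball, inter_eq_self_of_subset_left hx]
    refine le_trans (le_of_eq ?_) h1
    rw [enorm_mul, enorm_pow, ← mul_assoc, ← ofReal_norm (x - b i₀),
      ← ENNReal.ofReal_pow (norm_nonneg _), ← ENNReal.ofReal_mul (by positivity)]
    congr 2
    ring
  have h0 : Tendsto (fun x => ENNReal.ofReal (Real.pi / 4) *
      ‖(x - b i₀) ^ 2 * trA R b k x‖ₑ) (𝓝[≠] (b i₀)) (𝓝 0) :=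
    tendsto_of_tendsto_of_tendsto_of_le_of_le' tendsto_const_nhds hlim
      (Filter.Eventually.of_forall fun _ => bot_le) hb1
  have h1 := ENNReal.Tendsto.const_mul (a := (ENNReal.ofReal (Real.pi / 4))⁻¹) h0
    (Or.inr (by
      rw [ENNReal.inv_ne_top, Ne, ENNReal.ofReal_eq_zero, not_le]
      positivity))
  have h2 : Tendsto (fun x => ‖(x - b i₀) ^ 2 * trA R b k x‖ₑ) (𝓝[≠] (b i₀)) (𝓝 0) := by
    rw [mul_zero] at h1
    refine h1.congr fun x => ?_
    rw [← mul_assoc, ENNReal.inv_mul_cancel, one_mul]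
    · rw [Ne, ENNReal.ofReal_eq_zero, not_le]; positivity
    · exact ENNReal.ofReal_ne_top
  rw [tendsto_zero_iff_norm_tendsto_zero]
  have h3 := (ENNReal.tendsto_toReal ENNReal.zero_ne_top).comp h2
  simpa [Function.comp_def] using h3

lemma tendsto_trA_inf (h : Good R) (b : Fin m → ℂ) (hb : Function.Injective b)
    (k : Fin 3 → Fin m) (hk : Function.Injective k) :
    Tendsto (trA R b k) (cocompact ℂ) (𝓝 0) := by
  set O : Set ℂ := (Set.range b)ᶜ with hO
  have hT := lintegral_trA_ne_top h b hb k hk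
  set T := ∫⁻ x in O, ‖trA R b k x‖ₑ with hTdef
  have hbd : ∀ i, ‖b i‖ ≤ ‖b‖ := fun i => norm_le_pi_norm b i
  have h1 : ∀ᶠ x in cocompact ℂ, 2 * ‖b‖ + 1 < ‖x‖ :=
    (tendsto_norm_cocompact_atTop (E := ℂ)).eventually_gt_atTop _
  have h2 : ∀ᶠ x in cocompact ℂ, ‖trA R b k x‖ ≤ T.toReal * (4 / Real.pi) * (‖x‖ ^ 2)⁻¹ := by
    filter_upwards [h1] with x hx
    have hb0 := norm_nonneg b
    have hpos : 0 < ‖x‖ := by linarith
    have hsub : ball x (‖x‖ / 2) ⊆ O := by
      rintro y hy ⟨i, rfl⟩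
      rw [mem_ball, dist_comm, dist_eq_norm] at hy
      have h3 : ‖x‖ ≤ ‖x - b i‖ + ‖b i‖ := by simpa using norm_add_le (x - b i) (b i)
      have := hbd i
      linarith
    have h3 := enorm_le_lintegral_ball (trA R b k) x (‖x‖ / 2) (by positivity)
      (fun z hz => (differentiableAt_trA h b hb k z (hsub hz)).differentiableWithinAt)
    have h4 : ENNReal.ofReal (Real.pi * (‖x‖ / 2) ^ 2) * ‖trA R b k x‖ₑ ≤ T :=
      h3.trans (lintegral_mono_set hsub)
    rw [← ofReal_norm, ← ENNReal.ofReal_mul (by positivity)] at h4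
    have h5 := (ENNReal.ofReal_le_iff_le_toReal hT).1 h4
    have h6 : ‖trA R b k x‖ = (Real.pi * (‖x‖ / 2) ^ 2 * ‖trA R b k x‖) *
        ((4 / Real.pi) * (‖x‖ ^ 2)⁻¹) := by
      field_simp
      ring
    rw [h6, mul_assoc T.toReal]
    exact mul_le_mul_of_nonneg_right h5 (by positivity)
  refine squeeze_zero_norm' h2 ?_
  have h3 : Tendsto (fun x : ℂ => (‖x‖ ^ 2)⁻¹) (cocompact ℂ) (𝓝 0) :=
    tendsto_inv_atTop_zero.comp ((tendsto_pow_atTop (by norm_num)).comp
      (tendsto_norm_cocompact_atTop (E := ℂ)))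
  simpa using h3.const_mul (T.toReal * (4 / Real.pi))

lemma trA_eq (h : Good R) (b : Fin m → ℂ) (hb : Function.Injective b)
    (k : Fin 3 → Fin m) (hk : Function.Injective k) (x : ℂ) (hx : x ∉ Set.range b) :
    trA R b k x = ∑ w ∈ rts R (cfg x b), DR R (cfg x b, w) (cfg 1 0) ^ 2 *
      ∑ i, rho (fun i => b (k i)) i / (w - b (k i)) := by
  unfold trA
  refine Finset.sum_congr rfl fun w hw => ?_
  rw [sum_rho_div (fun i => b (k i)) (fun i j hij => hk (hb hij)) w
    (fun i => h.ne (cfg_inj hb hx) hw (k i).succ)]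
  ring

lemma eventually_not_mem (b : Fin m → ℂ) (i₀ : Fin m) :
    ∀ᶠ x in 𝓝[≠] (b i₀), x ∉ Set.range b := by
  have h1 : (Set.range b \ {b i₀}).Finite := (Set.finite_range b).subset Set.sdiff_subset
  have h2 : (Set.range b \ {b i₀})ᶜ ∈ 𝓝 (b i₀) := h1.isClosed.isOpen_compl.mem_nhds (by simp)
  filter_upwards [self_mem_nhdsWithin, nhdsWithin_le_nhds h2] with x hx1 hx2 hx3
  exact hx2 ⟨hx3, hx1⟩

lemma tendsto_G_puncture (h : Good R) (b : Fin m → ℂ) (hb : Function.Injective b)
    (k : Fin 3 → Fin m) (hk : Function.Injective k) (v' : Fin m → ℂ) (i₀ : Fin m) :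
    Tendsto (fun x => (x - b i₀) * (trG R b k v' x + v' i₀ * trA R b k x)) (𝓝[≠] (b i₀))
      (𝓝 0) := by
  have h1 := np h b hb k i₀ (cfg (v' i₀) v') rfl (rho (fun i => b (k i)))
  have h2 : Tendsto (fun x : ℂ => x - b i₀) (𝓝[≠] (b i₀)) (𝓝[≠] 0) := by
    refine tendsto_nhdsWithin_iff.2 ⟨?_, ?_⟩
    · have : ContinuousAt (fun x : ℂ => x - b i₀) (b i₀) := by fun_prop
      have h3 := this.tendsto
      rw [sub_self] at h3
      exact h3.mono_left nhdsWithin_le_nhds
    · filter_upwards [self_mem_nhdsWithin] with x hx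
      exact sub_ne_zero.2 hx
  refine (h1.comp h2).congr' ?_
  filter_upwards [eventually_not_mem b i₀] with x hx
  simp only [Function.comp_def, add_sub_cancel]
  congr 1
  rw [trA_eq h b hb k hk x hx]
  unfold trG
  rw [Finset.mul_sum, ← Finset.sum_add_distrib]
  refine Finset.sum_congr rfl fun w hw => ?_
  have h3 : DR R (cfg x b, w) (cfg (v' i₀) v') =
      DR R (cfg x b, w) (cfg 0 v') + v' i₀ * DR R (cfg x b, w) (cfg 1 0) := by
    rw [← cfg_add v' (v' i₀), DR_add, DR_smul]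
  rw [h3]
  simp only [Fin.sum_univ_three, cfg_succ]
  ring

lemma tendsto_G_inf (h : Good R) (κ : ℕ) (hκ : ∀ b T, (xPoly R b T).natDegree ≤ κ)
    (b : Fin m → ℂ) (hb : Function.Injective b) (p : ℂ) (hp : (xPoly R b p).coeff κ ≠ 0)
    (k : Fin 3 → Fin m) (hk : Function.Injective k) (v' : Fin m → ℂ) :
    Tendsto (fun x => x * trG R b k v' x) (cocompact ℂ)
      (𝓝 (-((∑ i, rho (fun i => b (k i)) i * v' (k i)) * κ))) := by
  set c : ℂ := ∑ i, rho (fun i => b (k i)) i * v' (k i) with hc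
  have h1 := inf h κ hκ b hb p hp k hk v'
  have h2 := tendsto_logDeriv κ hκ b p hp
  obtain ⟨δ, hδ, X₀, haway⟩ := roots_away h.monic κ hκ b p hp
  have hbd : ∀ i, ‖b i‖ ≤ ‖b‖ := fun i => norm_le_pi_norm b i
  have h3 : ∀ᶠ x in cocompact ℂ, max X₀ ‖b‖ < ‖x‖ :=
    (tendsto_norm_cocompact_atTop (E := ℂ)).eventually_gt_atTop _
  have h4 := h1.sub (h2.const_mul c)
  rw [zero_sub] at h4
  refine h4.congr' ?_
  filter_upwards [h3] with x hx
  have hxb : x ∉ Set.range b := by
    rintro ⟨i, rfl⟩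
    have h5 := hbd i
    have h6 := le_max_right X₀ ‖b‖
    linarith
  have hpx : p ∉ rts R (cfg x b) := by
    intro hmem
    have h7 := haway b (by simpa using hδ) x (lt_of_le_of_lt (le_max_left _ _) hx) p hmem
    rw [sub_self, norm_zero] at h7
    linarith
  have h8 := sum_DR_div h.monic (h.sep _ (cfg_inj hb hxb)) (cfg 1 0) p hpx
  rw [← h8]
  have h9 : ∑ w ∈ rts R (cfg x b), DR R (cfg x b, w) (cfg 1 0) *
      (∑ i, rho (fun i => b (k i)) i * (DR R (cfg x b, w) (cfg 0 v') - v' (k i)) /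
        (w - b (k i)) + c / (w - p)) =
      trG R b k v' x + c * ∑ w ∈ rts R (cfg x b), DR R (cfg x b, w) (cfg 1 0) / (w - p) := by
    unfold trG
    rw [Finset.mul_sum, ← Finset.sum_add_distrib]
    refine Finset.sum_congr rfl fun w hw => ?_
    ring
  rw [h9]
  ring

theorem trace_identity (h : Good R) (κ : ℕ) (hκ : ∀ b T, (xPoly R b T).natDegree ≤ κ)
    (b : Fin m → ℂ) (hb : Function.Injective b) (p : ℂ) (hp : (xPoly R b p).coeff κ ≠ 0)
    (k : Fin 3 → Fin m) (hk : Function.Injective k) : ∀ x ∉ Set.range b,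
      trA R b k x = κ / ∏ i, (x - b (k i)) := by
  classical
  -- residues of `trA`
  have hres : ∀ i, ∃ τ, Tendsto (fun x => (x - b i) * trA R b k x) (𝓝[≠] (b i)) (𝓝 τ) := by
    intro i
    refine exists_residue (trA R b k) (b i) ?_ (tendsto_sq_mul_trA h b hb k hk i)
    filter_upwards [eventually_not_mem b i] with x hx
    exact differentiableAt_trA h b hb k x hx
  choose τ hτ using hres
  have hA := eq_sum_of_simple_poles b hb (trA R b k)
    (fun x hx => differentiableAt_trA h b hb k x hx) τ hτ (tendsto_trA_inf h b hb k hk)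
  -- the mixed terms
  have hGres : ∀ v' : Fin m → ℂ, ∀ i, Tendsto (fun x => (x - b i) * trG R b k v' x)
      (𝓝[≠] (b i)) (𝓝 (-(v' i * τ i))) := by
    intro v' i
    have h1 := (tendsto_G_puncture h b hb k hk v' i).sub ((hτ i).const_mul (v' i))
    rw [zero_sub] at h1
    refine h1.congr fun x => ?_
    ring
  have hx0 : ∀ᶠ x in cocompact ℂ, x ≠ 0 := by
    have := (tendsto_norm_cocompact_atTop (E := ℂ)).eventually_gt_atTop 0
    filter_upwards [this] with x hx h0
    rw [h0, norm_zero] at hx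
    exact lt_irrefl _ hx
  have hinv : Tendsto (fun x : ℂ => x⁻¹) (cocompact ℂ) (𝓝 0) := by
    rw [← Metric.cobounded_eq_cocompact]
    exact tendsto_inv₀_cobounded
  have hGinf : ∀ v' : Fin m → ℂ, Tendsto (trG R b k v') (cocompact ℂ) (𝓝 0) := by
    intro v'
    have h1 := hinv.mul (tendsto_G_inf h κ hκ b hb p hp k hk v')
    rw [zero_mul] at h1
    refine h1.congr' ?_
    filter_upwards [hx0] with x hx
    rw [← mul_assoc, inv_mul_cancel₀ hx, one_mul]
  have hG : ∀ v' : Fin m → ℂ, ∀ x ∉ Set.range b, trG R b k v' x =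
      ∑ i, -(v' i * τ i) / (x - b i) := fun v' =>
    eq_sum_of_simple_poles b hb (trG R b k v')
      (fun x hx => differentiableAt_trG h b hb k v' x hx) _ (hGres v') (hGinf v')
  -- comparison at infinity
  have hcmp : ∀ v' : Fin m → ℂ, ∑ i, v' i * τ i =
      (∑ i, rho (fun i => b (k i)) i * v' (k i)) * κ := by
    intro v'
    have h1 : Tendsto (fun x => x * trG R b k v' x) (cocompact ℂ)
        (𝓝 (∑ i, -(v' i * τ i))) := by
      have h2 : ∀ i ∈ (Finset.univ : Finset (Fin m)),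
          Tendsto (fun x : ℂ => -(v' i * τ i) * (x / (x - b i))) (cocompact ℂ)
            (𝓝 (-(v' i * τ i) * 1)) := by
        intro i _
        refine Tendsto.const_mul _ ?_
        have h3 : Tendsto (fun x : ℂ => (1 - b i * x⁻¹)⁻¹) (cocompact ℂ) (𝓝 ((1 - b i * 0)⁻¹)) := by
          refine Tendsto.inv₀ (tendsto_const_nhds.sub (hinv.const_mul _)) (by simp)
        simp only [mul_zero, sub_zero, inv_one] at h3
        refine h3.congr' ?_
        filter_upwards [hx0] with x hx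
        by_cases hxb : x - b i = 0
        · have : 1 - b i * x⁻¹ = 0 := by
            have h4 : b i = x := (sub_eq_zero.1 hxb).symm
            rw [h4, mul_inv_cancel₀ hx, sub_self]
          rw [this, hxb, inv_zero, div_zero]
        · have h5 : 1 - b i * x⁻¹ = (x - b i) / x := by field_simp
          rw [h5, inv_div]
      have h4 := tendsto_finsetSum Finset.univ h2
      simp only [mul_one] at h4
      refine h4.congr' ?_
      have h5 : ∀ᶠ x in cocompact ℂ, x ∉ Set.range b :=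
        (Set.finite_range b).isCompact.compl_mem_cocompact
      filter_upwards [h5] with x hx
      rw [hG v' x hx, Finset.mul_sum]
      refine Finset.sum_congr rfl fun i _ => ?_
      ring
    have h6 := tendsto_nhds_unique h1 (tendsto_G_inf h κ hκ b hb p hp k hk v')
    rw [Finset.sum_neg_distrib, neg_inj] at h6
    exact h6
  have hτeq : ∀ j, τ j = (∑ i, rho (fun i => b (k i)) i * (if k i = j then 1 else 0)) * κ := by
    intro j
    have h1 := hcmp (fun i => if i = j then 1 else 0)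
    simp only [ite_mul, one_mul, zero_mul, Finset.sum_ite_eq', Finset.mem_univ, if_true] at h1
    exact h1
  intro x hx
  rw [hA x hx]
  have h1 : ∀ i, x ≠ b (k i) := fun i e => hx ⟨k i, e.symm⟩
  have h2 := sum_rho_div (fun i => b (k i)) (fun i j hij => hk (hb hij)) x h1
  have h3 : (κ : ℂ) / ∏ i, (x - b (k i)) = κ * ∑ i, rho (fun i => b (k i)) i / (x - b (k i)) := by
    rw [h2]; ring
  rw [h3]
  simp only [hτeq]
  simp only [Finset.sum_mul, Finset.sum_div, Finset.mul_sum]
  rw [Finset.sum_comm]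
  refine Finset.sum_congr rfl fun i _ => ?_
  rw [Finset.sum_eq_single (k i)]
  · rw [if_pos rfl]; ring
  · intro j _ hj
    rw [if_neg (Ne.symm hj)]
    simp
  · intro hni
    exact absurd (Finset.mem_univ _) hni

theorem no_sections (hm : 4 ≤ m) (R : (MvPolynomial (Fin (m + 1)) ℂ)[X]) (hR : R.Monic)
    (hsep : ∀ l : Fin (m + 1) → ℂ, Function.Injective l → (spec R l).Separable)
    (hav : ∀ l : Fin (m + 1) → ℂ, Function.Injective l → ∀ i, l i ∉ rts R l) :
    R.natDegree = 0 := by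
  by_contra hdeg
  have h : Good R := ⟨hR, hsep, hav⟩
  obtain ⟨κ, hκ, b, p, hb, hp⟩ := exists_kappa R hR
  exact absurd_of_DR_eq_zero hR hdeg hsep hav b hb
    (Pool.Agent.Helper61.LinFinal.DR_eq_zero_of_trace hm hR hsep hav b hb κ (hκ b)
      (fun k hk => trace_identity h κ hκ b hb p hp k hk))

end Pool.Agent.Helper51.Lin
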