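import Mathlib

/-!
The weight function `h0` and the coefficients of the partial fraction expansion.
-/

namespace Pool.Agent.Helper51.Lin

/-- The weight `1 / (|u| (1 + |u|)^2)`. -/
noncomputable def h0 (u : ℂ) : ℝ := ‖u‖⁻¹ * ((1 + ‖u‖) ^ 2)⁻¹

/-- Partial fraction coefficients of `1 / ((w - a 0) (w - a 1) (w - a 2))`. -/
noncomputable def rho (a : Fin 3 → ℂ) (i : Fin 3) : ℂ :=
  (∏ j ∈ Finset.univ.erase i, (a i - a j))⁻¹

end Pool.Agent.Helper51.Lin
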