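import Mathlib

/-!
# Finiteness of the 2-Selmer group of a number field
-/

open IsDedekindDomain FractionalIdeal
open scoped nonZeroDivisors

namespace Pool.Agent.Helper51.Selmer

section dedekind

variable {R : Type*} [CommRing R] [IsDedekindDomain R] (K : Type*) [Field K] [Algebra R K]
  [IsFractionRing R K]

/-- `v`-adic valuation in terms of `count`. -/
lemma valuation_eq (v : HeightOneSpectrum R) {α : K} (hα : α ≠ 0) :
    v.valuation K α = WithZero.exp (-(count K v (spanSingleton R⁰ α))) := by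
  classical
  obtain ⟨r, s, hs, rfl⟩ := IsFractionRing.div_surjective (A := R) α
  have hs0 : s ≠ 0 := nonZeroDivisors.ne_zero hs
  have hsK : algebraMap R K s ≠ 0 := by
    intro h; apply hα; rw [h, _root_.div_zero]
  have hr0 : r ≠ 0 := by
    rintro rfl; apply hα; rw [map_zero, zero_div]
  have hI : spanSingleton R⁰ (algebraMap R K r / algebraMap R K s) ≠ 0 := by
    rw [ne_eq, spanSingleton_eq_zero_iff]; exact hα
  have h1 : spanSingleton R⁰ (algebraMap R K r / algebraMap R K s) =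
      spanSingleton R⁰ ((algebraMap R K) s)⁻¹ * ((Ideal.span {r} : Ideal R) : FractionalIdeal R⁰ K) := by
    rw [coeIdeal_span_singleton, spanSingleton_mul_spanSingleton, div_eq_inv_mul]
  rw [count_well_defined K v hI h1, map_div₀, HeightOneSpectrum.valuation_of_algebraMap,
    HeightOneSpectrum.valuation_of_algebraMap, HeightOneSpectrum.intValuation_if_neg _ hr0,
    HeightOneSpectrum.intValuation_if_neg _ hs0, ← WithZero.exp_sub]
  congr 1
  ring

lemma even_of_isSquare (v : HeightOneSpectrum R) {α : K} (hα : α ≠ 0)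
    (h : IsSquare (v.valuation K α)) : Even (count K v (spanSingleton R⁰ α)) := by
  obtain ⟨w, hw⟩ := h
  rw [valuation_eq K v hα] at hw
  have hw0 : w ≠ 0 := by
    rintro rfl
    rw [mul_zero] at hw
    exact WithZero.exp_ne_zero hw
  obtain ⟨k, rfl⟩ : ∃ k : ℤ, w = WithZero.exp k := ⟨WithZero.log w, (WithZero.exp_log hw0).symm⟩
  rw [← WithZero.exp_add, WithZero.exp_inj] at hw
  exact ⟨-k, by linarith⟩

/-- A fractional ideal with even exponents outside `S`. -/
lemma exists_sq {S : Set (HeightOneSpectrum R)} (hS : S.Finite) {I : FractionalIdeal R⁰ K}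
    (hI : I ≠ 0) (hev : ∀ v ∉ S, Even (count K v I)) :
    ∃ J : FractionalIdeal R⁰ K, J ≠ 0 ∧
      I = (∏ v ∈ hS.toFinset, (v.asIdeal : FractionalIdeal R⁰ K) ^ (count K v I % 2)) * J ^ 2 := by
  classical
  have hfin : {v : HeightOneSpectrum R | count K v I ≠ 0}.Finite := by
    have := finite_factors I
    rwa [Filter.eventually_cofinite] at this
  have hv0 : ∀ v : HeightOneSpectrum R, (v.asIdeal : FractionalIdeal R⁰ K) ≠ 0 := fun v =>
    coeIdeal_ne_zero.mpr v.ne_bot
  refine ⟨∏ v ∈ hfin.toFinset, (v.asIdeal : FractionalIdeal R⁰ K) ^ (count K v I / 2), ?_, ?_⟩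
  · exact Finset.prod_ne_zero_iff.mpr fun v _ => zpow_ne_zero _ (hv0 v)
  · have h1 := finprod_heightOneSpectrum_factorization' K hI
    rw [finprod_eq_prod_of_mulSupport_subset (s := hfin.toFinset ∪ hS.toFinset)] at h1
    · rw [← Finset.prod_pow]
      have h2 : ∏ v ∈ hS.toFinset, (v.asIdeal : FractionalIdeal R⁰ K) ^ (count K v I % 2) =
          ∏ v ∈ hfin.toFinset ∪ hS.toFinset,
            (v.asIdeal : FractionalIdeal R⁰ K) ^ (count K v I % 2) := by
        apply Finset.prod_subset Finset.subset_union_right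
        intro v _ hv
        rw [Set.Finite.mem_toFinset] at hv
        rw [Int.even_iff.mp (hev v hv), zpow_zero]
      have h3 : ∏ v ∈ hfin.toFinset, ((v.asIdeal : FractionalIdeal R⁰ K) ^ (count K v I / 2)) ^ 2 =
          ∏ v ∈ hfin.toFinset ∪ hS.toFinset,
            ((v.asIdeal : FractionalIdeal R⁰ K) ^ (count K v I / 2)) ^ 2 := by
        apply Finset.prod_subset Finset.subset_union_left
        intro v _ hv
        rw [Set.Finite.mem_toFinset] at hv
        simp only [ne_eq, Set.mem_ofPred_eq, not_not] at hv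
        rw [hv]; simp
      rw [h2, h3, ← Finset.prod_mul_distrib]
      conv_lhs => rw [← h1]
      apply Finset.prod_congr rfl
      intro v _
      rw [← zpow_natCast ((v.asIdeal : FractionalIdeal R⁰ K) ^ (count K v I / 2)) 2,
        ← zpow_mul, ← zpow_add₀ (hv0 v)]
      congr 1
      push_cast
      omega
    · intro v hv
      rw [Function.mem_mulSupport] at hv
      rw [Finset.coe_union, Set.mem_union]
      left
      simp only [Set.Finite.coe_toFinset, Set.mem_ofPred_eq]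
      intro h0
      apply hv
      rw [h0, zpow_zero]

variable (R)

/-- **Finiteness of the 2-Selmer group.** -/
theorem finite_selmer [Finite (ClassGroup R)] {U : Set Rˣ} (hUf : U.Finite)
    (hU : ∀ u : Rˣ, ∃ u₀ ∈ U, ∃ w : Rˣ, u = u₀ * w ^ 2)
    {S : Set (HeightOneSpectrum R)} (hS : S.Finite) :
    ∃ F : Set K, F.Finite ∧ (∀ f ∈ F, f ≠ 0) ∧ ∀ α : K, α ≠ 0 →
      (∀ v ∉ S, IsSquare (v.valuation K α)) → ∃ f ∈ F, ∃ β : K, β ≠ 0 ∧ α = f * β ^ 2 := by
  classical
  have : Finite S := hS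
  let A : Set K := {α | α ≠ 0 ∧ ∀ v ∉ S, IsSquare (v.valuation K α)}
  have hsp : ∀ {α : K}, α ≠ 0 → spanSingleton R⁰ α ≠ 0 := fun h => by
    rw [ne_eq, spanSingleton_eq_zero_iff]; exact h
  have hJ : ∀ α : K, ∃ J : FractionalIdeal R⁰ K, J ≠ 0 ∧ (α ∈ A → spanSingleton R⁰ α =
      (∏ v ∈ hS.toFinset, (v.asIdeal : FractionalIdeal R⁰ K) ^
        (count K v (spanSingleton R⁰ α) % 2)) * J ^ 2) := by
    intro α
    by_cases hα : α ∈ A
    · obtain ⟨J, h0, h1⟩ := exists_sq K hS (hsp hα.1)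
        (fun v hv => even_of_isSquare K v hα.1 (hα.2 v hv))
      exact ⟨J, h0, fun _ => h1⟩
    · exact ⟨1, one_ne_zero, fun h => absurd h hα⟩
  choose J hJ0 hJ1 using hJ
  let lab : K → Set S × ClassGroup R := fun α =>
    ({v | Odd (count K v.1 (spanSingleton R⁰ α))}, ClassGroup.mk K (Units.mk0 (J α) (hJ0 α)))
  let rep : Set S × ClassGroup R → K := fun t =>
    if h : ∃ α ∈ A, lab α = t then h.choose else 1
  refine ⟨(fun p : Rˣ × (Set S × ClassGroup R) => algebraMap R K p.1 * rep p.2) ''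
    (U ×ˢ Set.univ), Set.Finite.image _ (hUf.prod Set.finite_univ), ?_, ?_⟩
  · rintro f ⟨⟨u, t⟩, -, rfl⟩
    apply mul_ne_zero
    · rw [ne_eq, FaithfulSMul.algebraMap_eq_zero_iff]
      exact u.ne_zero
    · by_cases h : ∃ α ∈ A, lab α = t
      · simp only [rep, dif_pos h]
        exact h.choose_spec.1.1
      · simp only [rep, dif_neg h]
        exact one_ne_zero
  · intro α hα0 hαS
    have hα : α ∈ A := ⟨hα0, hαS⟩
    have hex : ∃ α' ∈ A, lab α' = lab α := ⟨α, hα, rfl⟩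
    obtain ⟨hα', hlab⟩ := hex.choose_spec
    have hrep : rep (lab α) = hex.choose := by simp only [rep, dif_pos hex]
    rw [← hrep] at hα' hlab
    obtain ⟨α', hα'e⟩ : ∃ α', α' = rep (lab α) := ⟨_, rfl⟩
    rw [← hα'e] at hα' hlab
    have hpar : ∀ v ∈ hS.toFinset, count K v (spanSingleton R⁰ α') % 2 =
        count K v (spanSingleton R⁰ α) % 2 := by
      intro v hv
      rw [Set.Finite.mem_toFinset] at hv
      have h1 := congrArg Prod.fst hlab
      have h2 : Odd (count K v (spanSingleton R⁰ α')) ↔ Odd (count K v (spanSingleton R⁰ α)) := by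
        have := Set.ext_iff.mp h1 ⟨v, hv⟩
        exact this
      rw [Int.odd_iff, Int.odd_iff] at h2
      omega
    have hcl : ClassGroup.mk K (Units.mk0 (J α) (hJ0 α) * (Units.mk0 (J α') (hJ0 α'))⁻¹) = 1 := by
      have h1 := congrArg Prod.snd hlab
      rw [map_mul, map_inv, mul_inv_eq_one]
      exact h1.symm
    rw [ClassGroup.mk_eq_one_iff] at hcl
    obtain ⟨γ, hγ⟩ := @Submodule.IsPrincipal.principal _ _ _ _ _ _ hcl
    have hγ' : J α * (J α')⁻¹ = spanSingleton R⁰ γ := by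
      apply Subtype.coe_injective
      simpa using hγ
    have hγ0 : γ ≠ 0 := by
      rintro rfl
      rw [spanSingleton_zero] at hγ'
      exact mul_ne_zero (hJ0 α) (inv_ne_zero (hJ0 α')) hγ'
    have hJγ : J α = spanSingleton R⁰ γ * J α' := by
      rw [← hγ', mul_assoc, inv_mul_cancel₀ (hJ0 α'), mul_one]
    have hmain : spanSingleton R⁰ (α' * γ ^ 2) = spanSingleton R⁰ α := by
      rw [hJ1 α hα, ← spanSingleton_mul_spanSingleton, hJ1 α' hα', hJγ, mul_pow,
        ← spanSingleton_pow, Finset.prod_congr rfl (fun v hv => by rw [hpar v hv])]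
      ring
    rw [spanSingleton_eq_spanSingleton] at hmain
    obtain ⟨u, hu⟩ := hmain
    obtain ⟨u₀, hu₀, w, rfl⟩ := hU u
    refine ⟨algebraMap R K u₀ * α', ⟨(u₀, lab α), ⟨hu₀, Set.mem_univ _⟩, by rw [hα'e]⟩,
      algebraMap R K w * γ, ?_, ?_⟩
    · apply mul_ne_zero _ hγ0
      rw [ne_eq, FaithfulSMul.algebraMap_eq_zero_iff]
      exact w.ne_zero
    · rw [← hu, Units.smul_def, Algebra.smul_def, Units.val_mul, Units.val_pow_eq_pow_val,
        map_mul, map_pow]
      ring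

end dedekind

section numberfield

variable (K : Type*) [Field K] [NumberField K]

open NumberField

/-- Units modulo squares are finite. -/
lemma units_mod_sq : ∃ U : Set (𝓞 K)ˣ, U.Finite ∧
    ∀ u : (𝓞 K)ˣ, ∃ u₀ ∈ U, ∃ w : (𝓞 K)ˣ, u = u₀ * w ^ 2 := by
  have hfin : Finite ((𝓞 K)ˣ ⧸ (powMonoidHom (α := (𝓞 K)ˣ) 2).range) := by
    have : Group.FG (𝓞 K)ˣ := Group.fg_iff_monoid_fg.mpr inferInstance
    apply CommGroup.finite_of_fg_isMulTorsion
    intro x
    rw [isOfFinOrder_iff_pow_eq_one]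
    refine ⟨2, by norm_num, ?_⟩
    obtain ⟨u, rfl⟩ := QuotientGroup.mk_surjective x
    rw [← QuotientGroup.mk_pow, QuotientGroup.eq_one_iff]
    exact ⟨u, rfl⟩
  refine ⟨Set.range (Quotient.out : ((𝓞 K)ˣ ⧸ (powMonoidHom (α := (𝓞 K)ˣ) 2).range) → (𝓞 K)ˣ),
    Set.finite_range _, ?_⟩
  intro u
  refine ⟨_, ⟨(u : (𝓞 K)ˣ ⧸ (powMonoidHom (α := (𝓞 K)ˣ) 2).range), rfl⟩, ?_⟩
  have h1 : (((Quotient.out (u : (𝓞 K)ˣ ⧸ (powMonoidHom (α := (𝓞 K)ˣ) 2).range)) : (𝓞 K)ˣ) :
      (𝓞 K)ˣ ⧸ (powMonoidHom (α := (𝓞 K)ˣ) 2).range) = u := QuotientGroup.out_eq' _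
  rw [QuotientGroup.eq] at h1
  obtain ⟨w, hw⟩ := h1
  refine ⟨w, ?_⟩
  rw [powMonoidHom_apply] at hw
  rw [hw]
  group

/-- **Finiteness of the 2-Selmer group of a number field.** -/
theorem selmer {S : Set (HeightOneSpectrum (𝓞 K))} (hS : S.Finite) :
    ∃ F : Set K, F.Finite ∧ (∀ f ∈ F, f ≠ 0) ∧ ∀ α : K, α ≠ 0 →
      (∀ v ∉ S, IsSquare (v.valuation K α)) → ∃ f ∈ F, ∃ β : K, β ≠ 0 ∧ α = f * β ^ 2 := by
  obtain ⟨U, hU, hU'⟩ := units_mod_sq K
  exact finite_selmer (𝓞 K) K hU hU' hS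

end numberfield

end Pool.Agent.Helper51.Selmer
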