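import Pool.Agent.Helper51.Par
import Pool.Agent.Helper51.Selmer

/-!
# The Mordell–Weil theorem over number fields: curves with full 2-torsion
-/

open WeierstrassCurve WeierstrassCurve.Affine WeierstrassCurve.Affine.Point

namespace Pool.Agent.Helper51.MW

section field

variable {K : Type*} [Field K] (W : WeierstrassCurve.Affine K)

/-- `4x³+b₂x²+2b₄x+b₆ = 4(x-e₁)(x-e₂)(x-e₃)`. -/
structure Full (e : Fin 3 → K) : Prop where
  h2 : W.b₂ = -4 * (e 0 + e 1 + e 2)
  h4 : W.b₄ = 2 * (e 0 * e 1 + e 0 * e 2 + e 1 * e 2)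
  h6 : W.b₆ = -4 * (e 0 * e 1 * e 2)

variable {W}

lemma Full.disc {e : Fin 3 → K} (h : Full W e) :
    4 * W.Δ = 64 * ((e 0 - e 1) * (e 0 - e 2) * (e 1 - e 2)) ^ 2 := by
  have h8 := W.b_relation
  have : 4 * W.Δ = -W.b₂ ^ 2 * (4 * W.b₈) - 32 * W.b₄ ^ 3 - 108 * W.b₆ ^ 2 +
      36 * W.b₂ * W.b₄ * W.b₆ := by rw [Δ]; ring
  rw [this, h8, h.h2, h.h4, h.h6]
  ring

lemma Full.root {e : Fin 3 → K} (h : Full W e) (i : Fin 3) :
    4 * e i ^ 3 + W.b₂ * e i ^ 2 + 2 * W.b₄ * e i + W.b₆ = 0 := by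
  rw [h.h2, h.h4, h.h6]
  fin_cases i <;> simp <;> ring

lemma Full.ne [CharZero K] [W.IsElliptic] {e : Fin 3 → K} (h : Full W e) :
    e 0 ≠ e 1 ∧ e 0 ≠ e 2 ∧ e 1 ≠ e 2 := by
  have h1 := h.disc
  have h2 : W.Δ ≠ 0 := W.isUnit_Δ.ne_zero
  have h3 : ((e 0 - e 1) * (e 0 - e 2) * (e 1 - e 2)) ^ 2 ≠ 0 := by
    intro h0
    rw [h0, mul_zero] at h1
    apply h2
    have : (4 : K) ≠ 0 := by norm_num
    exact (mul_eq_zero.mp h1).resolve_left this
  have h4 := pow_ne_zero_iff (two_ne_zero) |>.mp h3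
  rw [mul_ne_zero_iff, mul_ne_zero_iff, sub_ne_zero, sub_ne_zero, sub_ne_zero] at h4
  exact ⟨h4.1.1, h4.1.2, h4.2⟩

/-- the square of `y + (a₁x+a₃)/2`. -/
lemma Full.sq [CharZero K] {e : Fin 3 → K} (h : Full W e) {x y : K} (hxy : W.Equation x y) :
    (x - e 0) * (x - e 1) * (x - e 2) = (y + (W.a₁ * x + W.a₃) / 2) ^ 2 := by
  have e1 := (W.equation_iff x y).mp hxy
  have h2 := h.h2
  have h4 := h.h4
  have h6 := h.h6
  rw [b₂] at h2
  rw [b₄] at h4
  rw [b₆] at h6
  linear_combination -e1 - x ^ 2 / 4 * h2 - x / 2 * h4 - h6 / 4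

variable [DecidableEq K]

/-- the product formula on a line. -/
lemma line [CharZero K] {e : K} (he : 4 * e ^ 3 + W.b₂ * e ^ 2 + 2 * W.b₄ * e + W.b₆ = 0)
    {x₁ y₁ x₂ y₂ : K} (h₁ : W.Nonsingular x₁ y₁) (h₂ : W.Nonsingular x₂ y₂) (hx : x₁ ≠ x₂) :
    (x₁ - e) * (x₂ - e) * (W.addX x₁ x₂ (W.slope x₁ x₂ y₁ y₂) - e) =
      (W.slope x₁ x₂ y₁ y₂ * (e - x₁) + y₁ + (W.a₁ * e + W.a₃) / 2) ^ 2 := by
  have h := addPolynomial_slope h₁.1 h₂.1 (fun hh => hx hh.1)
  have h' := congrArg (Polynomial.eval e) h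
  rw [addPolynomial_eq] at h'
  simp [Cubic.toPoly] at h'
  rw [b₂, b₄, b₆] at he
  rw [addX]
  linear_combination -h' - he / 4

/-- **Halving**: a point all of whose `x - eᵢ` are squares is a double. -/
lemma halving [CharZero K] [W.IsElliptic] {e : Fin 3 → K} (h : Full W e) {x y : K}
    (hxy : W.Nonsingular x y) (hs : ∀ i, IsSquare (x - e i)) :
    ∃ H : W.Point, H + H = some x y hxy := by
  obtain ⟨s0, s1, s2, h0, h1, h2, hη⟩ : ∃ s0 s1 s2 : K, x - e 0 = s0 ^ 2 ∧ x - e 1 = s1 ^ 2 ∧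
      x - e 2 = s2 ^ 2 ∧ y + (W.a₁ * x + W.a₃) / 2 = s0 * s1 * s2 := by
    obtain ⟨s0, h0⟩ := hs 0
    obtain ⟨s1, h1⟩ := hs 1
    obtain ⟨s2, h2⟩ := hs 2
    have h3 := h.sq hxy.1
    rw [h0, h1, h2] at h3
    have h4 : (y + (W.a₁ * x + W.a₃) / 2 - s0 * s1 * s2) *
        (y + (W.a₁ * x + W.a₃) / 2 + s0 * s1 * s2) = 0 := by linear_combination -h3
    rcases mul_eq_zero.mp h4 with h5 | h5
    · exact ⟨s0, s1, s2, by rw [h0]; ring, by rw [h1]; ring, by rw [h2]; ring,
        by linear_combination h5⟩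
    · exact ⟨-s0, s1, s2, by rw [h0]; ring, by rw [h1]; ring, by rw [h2]; ring,
        by linear_combination h5⟩
  obtain ⟨ne01, ne02, ne12⟩ := h.ne
  have p01 : s0 + s1 ≠ 0 := by
    intro hh
    apply ne01
    linear_combination h1 - h0 - (s0 - s1) * hh
  have p02 : s0 + s2 ≠ 0 := by
    intro hh
    apply ne02
    linear_combination h2 - h0 - (s0 - s2) * hh
  have p12 : s1 + s2 ≠ 0 := by
    intro hh
    apply ne12
    linear_combination h2 - h1 - (s1 - s2) * hh
  obtain ⟨X, hX⟩ : ∃ X, X = x + s0 * s1 + s0 * s2 + s1 * s2 := ⟨_, rfl⟩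
  obtain ⟨Y, hY⟩ : ∃ Y, Y = (s0 + s1) * (s0 + s2) * (s1 + s2) - (W.a₁ * X + W.a₃) / 2 := ⟨_, rfl⟩
  have q0 : e 0 = x - s0 ^ 2 := by linear_combination -h0
  have q1 : e 1 = x - s1 ^ 2 := by linear_combination -h1
  have q2 : e 2 = x - s2 ^ 2 := by linear_combination -h2
  have k2 := h.h2
  have k4 := h.h4
  have k6 := h.h6
  rw [b₂, q0, q1, q2] at k2
  rw [b₄, q0, q1, q2] at k4
  rw [b₆, q0, q1, q2] at k6
  have hE : W.Equation X Y := by
    rw [equation_iff, hY, hX]
    linear_combination (-(x + s0 * s1 + s0 * s2 + s1 * s2) ^ 2 / 4) * k2 -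
      (x + s0 * s1 + s0 * s2 + s1 * s2) / 2 * k4 - k6 / 4
  have hN : W.Nonsingular X Y := (equation_iff_nonsingular).mp hE
  have hYn : Y - W.negY X Y = 2 * ((s0 + s1) * (s0 + s2) * (s1 + s2)) := by
    rw [negY, hY]; ring
  have hYn0 : Y - W.negY X Y ≠ 0 := by
    rw [hYn]
    exact mul_ne_zero two_ne_zero (mul_ne_zero (mul_ne_zero p01 p02) p12)
  have hYne : Y ≠ W.negY X Y := sub_ne_zero.mp hYn0
  refine ⟨some X Y hN, ?_⟩
  have hsl : W.slope X X Y Y = s0 + s1 + s2 - W.a₁ / 2 := by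
    rw [slope_of_Y_ne rfl hYne, div_eq_iff hYn0, hYn, hY, hX]
    linear_combination ((x + s0 * s1 + s0 * s2 + s1 * s2) / 2) * k2 + k4 / 2
  rw [add_self_of_Y_ne hYne]
  simp only [Point.some.injEq]
  have hx' : W.addX X X (W.slope X X Y Y) = x := by
    rw [hsl, addX, hX]
    linear_combination -k2 / 4
  refine ⟨hx', ?_⟩
  rw [addY, negAddY, hx', negY, hsl, hY, hX]
  linear_combination -hη

/-- If the classes agree, the sum is a double. -/
lemma add_double [CharZero K] [W.IsElliptic] {e : Fin 3 → K} (h : Full W e) {x₁ y₁ x₂ y₂ : K}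
    (h₁ : W.Nonsingular x₁ y₁) (h₂ : W.Nonsingular x₂ y₂) (hx : x₁ ≠ x₂)
    (hc : ∀ i, x₂ - e i ≠ 0 ∧ ∃ t, t ≠ 0 ∧ x₁ - e i = (x₂ - e i) * t ^ 2) :
    ∃ H : W.Point, H + H = some x₁ y₁ h₁ + some x₂ y₂ h₂ := by
  rw [add_of_X_ne hx]
  apply halving h
  intro i
  obtain ⟨hn, t, ht, he⟩ := hc i
  have hl := line (h.root i) h₁ h₂ hx
  refine ⟨(W.slope x₁ x₂ y₁ y₂ * (e i - x₁) + y₁ + (W.a₁ * e i + W.a₃) / 2) /
    ((x₂ - e i) * t), ?_⟩
  rw [he] at hl
  field_simp
  linear_combination 4 * hl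

end field

section valuation

/-- A square class computation. -/
lemma isSquare_val {K Γ : Type*} [Field K] [LinearOrderedCommGroupWithZero Γ] (v : Valuation K Γ)
    {a b c η : K} (hab : v (a - b) = 1) (hac : v (a - c) = 1) (h : a * b * c = η ^ 2) :
    IsSquare (v a) := by
  have h' : v a * v b * v c = v η ^ 2 := by rw [← map_mul, ← map_mul, h, map_pow]
  rcases lt_trichotomy (v a) 1 with h1 | h1 | h1
  · have hb : v b = 1 := by
      have : v (a - (a - b)) = v (a - b) := Valuation.map_sub_eq_of_lt_right v (by rw [hab]; exact h1)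
      rwa [sub_sub_cancel, hab] at this
    have hc : v c = 1 := by
      have : v (a - (a - c)) = v (a - c) := Valuation.map_sub_eq_of_lt_right v (by rw [hac]; exact h1)
      rwa [sub_sub_cancel, hac] at this
    rw [hb, hc, mul_one, mul_one] at h'
    exact ⟨v η, by rw [h', sq]⟩
  · exact ⟨1, by rw [h1, one_mul]⟩
  · have hb : v b = v a := by
      have : v (a - (a - b)) = v a := Valuation.map_sub_eq_of_lt_left v (by rw [hab]; exact h1)
      rwa [sub_sub_cancel] at this
    have hc : v c = v a := by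
      have : v (a - (a - c)) = v a := Valuation.map_sub_eq_of_lt_left v (by rw [hac]; exact h1)
      rwa [sub_sub_cancel] at this
    rw [hb, hc] at h'
    have h0 : v a ≠ 0 := (zero_lt_one.trans h1).ne'
    refine ⟨v η / v a, ?_⟩
    rw [div_mul_div_comm, ← sq, ← h', eq_div_iff (mul_ne_zero h0 h0), ← mul_assoc]

end valuation

section numberfield

open IsDedekindDomain NumberField

variable {K : Type*} [Field K] [NumberField K]

lemma finite_val_ne_one {α : K} (hα : α ≠ 0) :
    {v : HeightOneSpectrum (𝓞 K) | v.valuation K α ≠ 1}.Finite := by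
  have h := FractionalIdeal.finite_factors (FractionalIdeal.spanSingleton (nonZeroDivisors (𝓞 K)) α)
  rw [Filter.eventually_cofinite] at h
  refine h.subset ?_
  intro v hv h0
  apply hv
  rw [Selmer.valuation_eq K v hα, h0, _root_.neg_zero, WithZero.exp_zero]

variable {W : WeierstrassCurve.Affine K} [W.IsElliptic] [DecidableEq K]

/-- **Weak Mordell–Weil** for curves with full 2-torsion. -/
theorem weak {e : Fin 3 → K} (h : Full W e) :
    (nsmulAddMonoidHom (α := W.Point) 2).range.FiniteIndex := by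
  classical
  obtain ⟨n01, n02, n12⟩ := h.ne
  let S : Set (HeightOneSpectrum (𝓞 K)) := {v | v.valuation K (e 0 - e 1) ≠ 1} ∪
    {v | v.valuation K (e 0 - e 2) ≠ 1} ∪ {v | v.valuation K (e 1 - e 2) ≠ 1}
  have hS : S.Finite := ((finite_val_ne_one (sub_ne_zero.mpr n01)).union
    (finite_val_ne_one (sub_ne_zero.mpr n02))).union (finite_val_ne_one (sub_ne_zero.mpr n12))
  obtain ⟨F, hF, hF0, hFs⟩ := Selmer.selmer K hS
  have hFf : Finite F := hF
  -- the class map
  have hcls : ∀ α : K, ∃ o : Option F, (α = 0 → o = none) ∧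
      (α ≠ 0 → (∀ v ∉ S, IsSquare (v.valuation K α)) → ∃ f : F, o = Option.some f ∧
        ∃ β : K, β ≠ 0 ∧ α = f * β ^ 2) := by
    intro α
    by_cases hα : α ≠ 0 ∧ ∀ v ∉ S, IsSquare (v.valuation K α)
    · obtain ⟨f, hf, β, hβ, he⟩ := hFs α hα.1 hα.2
      exact ⟨Option.some ⟨f, hf⟩, fun h0 => absurd h0 hα.1, fun _ _ => ⟨⟨f, hf⟩, rfl, β, hβ, he⟩⟩
    · exact ⟨none, fun _ => rfl, fun h1 h2 => absurd ⟨h1, h2⟩ hα⟩
  choose cls hcls0 hcls1 using hcls
  have hsq : ∀ {x y : K}, W.Equation x y → ∀ i, ∀ v ∉ S, IsSquare (v.valuation K (x - e i)) := by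
    intro x y hxy i v hv
    have h01 : v.valuation K (e 0 - e 1) = 1 := by
      by_contra hh; exact hv (Or.inl (Or.inl hh))
    have h02 : v.valuation K (e 0 - e 2) = 1 := by
      by_contra hh; exact hv (Or.inl (Or.inr hh))
    have h12 : v.valuation K (e 1 - e 2) = 1 := by
      by_contra hh; exact hv (Or.inr hh)
    have h10 : v.valuation K (e 1 - e 0) = 1 := by rw [Valuation.map_sub_swap]; exact h01
    have h20 : v.valuation K (e 2 - e 0) = 1 := by rw [Valuation.map_sub_swap]; exact h02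
    have h21 : v.valuation K (e 2 - e 1) = 1 := by rw [Valuation.map_sub_swap]; exact h12
    have hs := h.sq hxy
    fin_cases i
    · exact isSquare_val (v.valuation K) (b := x - e 1) (c := x - e 2)
        (η := y + (W.a₁ * x + W.a₃) / 2) (by simpa using h10) (by simpa using h20) hs
    · exact isSquare_val (v.valuation K) (b := x - e 0) (c := x - e 2)
        (η := y + (W.a₁ * x + W.a₃) / 2) (by simpa using h01) (by simpa using h21)
        (by simp only [Fin.mk_one]; linear_combination hs)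
    · exact isSquare_val (v.valuation K) (b := x - e 0) (c := x - e 1)
        (η := y + (W.a₁ * x + W.a₃) / 2) (by simpa using h02) (by simpa using h12)
        (by simp only [Fin.reduceFinMk]; linear_combination hs)
  let lab : W.Point → Option (Fin 3 → Option F) := fun P => match P with
    | .zero => none
    | .some x _ _ => Option.some (fun i => cls (x - e i))
  have key : ∀ P Q : W.Point, lab P = lab Q → ∃ H : W.Point, H + H = P + Q := by
    intro P Q hPQ
    match P, Q with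
    | .zero, .zero => exact ⟨0, by rw [← zero_def]⟩
    | .zero, .some _ _ _ => simp [lab] at hPQ
    | .some _ _ _, .zero => simp [lab] at hPQ
    | .some x₁ y₁ h₁, .some x₂ y₂ h₂ =>
      by_cases hx : x₁ = x₂
      · rcases X_eq_iff (h₁ := h₁) (h₂ := h₂) |>.mp hx with he | he
        · exact ⟨some x₁ y₁ h₁, by rw [← he]⟩
        · exact ⟨0, by rw [he, neg_add_cancel, add_zero]⟩
      · apply add_double h h₁ h₂ hx
        intro i
        simp only [lab, Option.some.injEq] at hPQ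
        have hi : cls (x₁ - e i) = cls (x₂ - e i) := congrFun hPQ i
        by_cases hz : x₂ - e i = 0
        · exfalso
          rw [hcls0 _ hz] at hi
          by_cases hz1 : x₁ - e i = 0
          · exact hx (by linear_combination hz1 - hz)
          · obtain ⟨f, hf, -⟩ := hcls1 _ hz1 (hsq h₁.1 i)
            rw [hf] at hi
            exact absurd hi (by simp)
        · refine ⟨hz, ?_⟩
          obtain ⟨f, hf, β, hβ, he⟩ := hcls1 _ hz (hsq h₂.1 i)
          have hz1 : x₁ - e i ≠ 0 := by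
            intro hz1
            rw [hcls0 _ hz1, hf] at hi
            exact absurd hi (by simp)
          obtain ⟨f', hf', β', hβ', he'⟩ := hcls1 _ hz1 (hsq h₁.1 i)
          have hff : f' = f := by
            rw [hf, hf'] at hi
            exact Option.some.inj hi
          refine ⟨β' / β, div_ne_zero hβ' hβ, ?_⟩
          rw [he', he, hff]
          field_simp
  have hfin : Finite (W.Point ⧸ (nsmulAddMonoidHom (α := W.Point) 2).range) := by
    apply Finite.of_injective
      (fun q : W.Point ⧸ (nsmulAddMonoidHom (α := W.Point) 2).range => lab (Quotient.out q))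
    intro q q' hq
    obtain ⟨H, hH⟩ := key _ _ hq
    have h1 : ((Quotient.out q : W.Point) : W.Point ⧸ (nsmulAddMonoidHom (α := W.Point) 2).range)
      = q := QuotientAddGroup.out_eq' q
    have h2 : ((Quotient.out q' : W.Point) : W.Point ⧸ (nsmulAddMonoidHom (α := W.Point) 2).range)
      = q' := QuotientAddGroup.out_eq' q'
    rw [← h1, ← h2, QuotientAddGroup.eq]
    refine ⟨Quotient.out q' - H + (Quotient.out q' - Quotient.out q) - (Quotient.out q' -
      Quotient.out q) , ?_⟩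
    rw [nsmulAddMonoidHom_apply, two_nsmul]
    have : Quotient.out q = H + H - Quotient.out q' := by rw [hH]; abel
    rw [this]
    abel
  exact AddSubgroup.finiteIndex_of_finite_quotient

/-- **Mordell–Weil** for curves with full 2-torsion. -/
theorem fg_full {e : Fin 3 → K} (h : Full W e) : AddGroup.FG W.Point := by
  obtain ⟨C, hC⟩ := Par.parallelogram W
  have : Northcott (Par.hx (W := W)) := ⟨Par.northcott W⟩
  refine AddCommGroup.fg_of_descent' (h := Par.hx) (C := C) (weak h) Par.hx_nonneg ?_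
  intro P Q
  have := hC P Q
  convert this using 2
  ring

end numberfield

end Pool.Agent.Helper51.MW
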