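import Mathlib

/-!
# The approximate parallelogram law for naive heights
-/

open WeierstrassCurve WeierstrassCurve.Affine WeierstrassCurve.Affine.Point MvPolynomial

namespace Pool.Agent.Helper51.Par

section algebra

variable {K : Type*} [Field K] (W : WeierstrassCurve.Affine K)

/-- evaluation of `addSubMap`. -/
lemma addSubMap_eval (v : Fin 3 → K) :
    (fun i => (addSubMap W i).eval v) =
      ![v 0 ^ 2 - W.b₄ * v 0 * v 2 - W.b₆ * v 1 * v 2 - W.b₈ * v 2 ^ 2,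
        2 * v 1 * v 0 + W.b₂ * v 0 * v 2 + W.b₄ * v 1 * v 2 + W.b₆ * v 2 ^ 2,
        v 1 ^ 2 - 4 * v 0 * v 2] := by
  ext i
  fin_cases i <;> simp [addSubMap]

variable [DecidableEq K]

/-- two affine points with different abscissae. -/
lemma aff {x₁ y₁ x₂ y₂ : K} (h₁ : W.Nonsingular x₁ y₁) (h₂ : W.Nonsingular x₂ y₂) (hx : x₁ ≠ x₂) :
    (fun i => (addSubMap W i).eval ((some x₁ y₁ h₁).sym2x (some x₂ y₂ h₂))) =
      (x₁ - x₂) ^ 2 • ((some x₁ y₁ h₁ + some x₂ y₂ h₂).sym2x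
        (some x₁ y₁ h₁ - some x₂ y₂ h₂)) := by
  have hx' : x₁ - x₂ ≠ 0 := sub_ne_zero.mpr hx
  rw [sub_eq_add_neg (some x₁ y₁ h₁), neg_some, add_of_X_ne hx, add_of_X_ne hx, sym2x_some_some,
    sym2x_some_some, addSubMap_eval]
  have e1 := (W.equation_iff x₁ y₁).mp h₁.1
  have e2 := (W.equation_iff x₂ y₂).mp h₂.1
  simp only [slope_of_X_ne hx]
  obtain ⟨L, hL⟩ : ∃ L, L = (y₁ - y₂) / (x₁ - x₂) := ⟨_, rfl⟩
  obtain ⟨M, hM⟩ : ∃ M, M = (y₁ - W.negY x₂ y₂) / (x₁ - x₂) := ⟨_, rfl⟩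
  rw [← hL, ← hM]
  have hL' : L * (x₁ - x₂) = y₁ - y₂ := by rw [hL]; field_simp
  have hM' : M * (x₁ - x₂) = y₁ + y₂ + W.a₁ * x₂ + W.a₃ := by
    rw [hM, negY]; field_simp; ring
  have hN3 : W.addX x₁ x₂ L * (x₁ - x₂) ^ 2 = (y₁ - y₂) ^ 2 + W.a₁ * (x₁ - x₂) * (y₁ - y₂) -
      (W.a₂ + x₁ + x₂) * (x₁ - x₂) ^ 2 := by
    rw [addX]
    linear_combination (L * (x₁ - x₂) + (y₁ - y₂) + W.a₁ * (x₁ - x₂)) * hL'
  have hN4 : W.addX x₁ x₂ M * (x₁ - x₂) ^ 2 = (y₁ + y₂ + W.a₁ * x₂ + W.a₃) ^ 2 +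
      W.a₁ * (x₁ - x₂) * (y₁ + y₂ + W.a₁ * x₂ + W.a₃) -
      (W.a₂ + x₁ + x₂) * (x₁ - x₂) ^ 2 := by
    rw [addX]
    linear_combination (L * 0 + M * (x₁ - x₂) + (y₁ + y₂ + W.a₁ * x₂ + W.a₃) +
      W.a₁ * (x₁ - x₂)) * hM'
  ext i
  fin_cases i
  · simp only [Fin.zero_eta, Matrix.cons_val_zero, Matrix.cons_val_one, Matrix.cons_val,
      Pi.smul_apply, smul_eq_mul]
    apply mul_left_cancel₀ (pow_ne_zero 2 hx')
    have h34 : W.addX x₁ x₂ L * (x₁ - x₂) ^ 2 * (W.addX x₁ x₂ M * (x₁ - x₂) ^ 2) =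
      ((y₁ - y₂) ^ 2 + W.a₁ * (x₁ - x₂) * (y₁ - y₂) - (W.a₂ + x₁ + x₂) * (x₁ - x₂) ^ 2) *
      ((y₁ + y₂ + W.a₁ * x₂ + W.a₃) ^ 2 + W.a₁ * (x₁ - x₂) * (y₁ + y₂ + W.a₁ * x₂ + W.a₃) -
      (W.a₂ + x₁ + x₂) * (x₁ - x₂) ^ 2) := by rw [hN3, hN4]
    obtain ⟨E1, hE1⟩ : ∃ E, E = y₁ ^ 2 + W.a₁ * x₁ * y₁ + W.a₃ * y₁ -
      (x₁ ^ 3 + W.a₂ * x₁ ^ 2 + W.a₄ * x₁ + W.a₆) := ⟨_, rfl⟩
    obtain ⟨E2, hE2⟩ : ∃ E, E = y₂ ^ 2 + W.a₁ * x₂ * y₂ + W.a₃ * y₂ -
      (x₂ ^ 3 + W.a₂ * x₂ ^ 2 + W.a₄ * x₂ + W.a₆) := ⟨_, rfl⟩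
    have hE1' : E1 = 0 := by rw [hE1, e1]; ring
    have hE2' : E2 = 0 := by rw [hE2, e2]; ring
    obtain ⟨R, hR⟩ : ∃ R, R = 2 * (x₁ ^ 3 + W.a₂ * x₁ ^ 2 + W.a₄ * x₁ + W.a₆) +
      2 * (x₂ ^ 3 + W.a₂ * x₂ ^ 2 + W.a₄ * x₂ + W.a₆) +
      (W.a₁ * x₁ + W.a₃) * (W.a₁ * x₂ + W.a₃) -
      2 * (W.a₂ + x₁ + x₂) * (x₁ - x₂) ^ 2 := ⟨_, rfl⟩
    have key : ((y₁ - y₂) ^ 2 + W.a₁ * (x₁ - x₂) * (y₁ - y₂) -
          (W.a₂ + x₁ + x₂) * (x₁ - x₂) ^ 2) *
      ((y₁ + y₂ + W.a₁ * x₂ + W.a₃) ^ 2 + W.a₁ * (x₁ - x₂) * (y₁ + y₂ + W.a₁ * x₂ + W.a₃) -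
      (W.a₂ + x₁ + x₂) * (x₁ - x₂) ^ 2) - (x₁ - x₂) ^ 2 * ((x₁ * x₂) ^ 2 -
        W.b₄ * (x₁ * x₂) * 1 - W.b₆ * (x₁ + x₂) * 1 - W.b₈ * 1 ^ 2) =
      E1 * (E1 - 2 * E2 + R - (4 * x₂ ^ 3 + W.b₂ * x₂ ^ 2 + 2 * W.b₄ * x₂ + W.b₆)) +
      E2 * (E2 + R - (4 * x₁ ^ 3 + W.b₂ * x₁ ^ 2 + 2 * W.b₄ * x₁ + W.b₆)) := by
      rw [hE1, hE2, hR, b₂, b₄, b₆, b₈]
      ring
    rw [hE1', hE2'] at key
    linear_combination -h34 - key
  · simp only [Fin.mk_one, Matrix.cons_val_zero, Matrix.cons_val_one, Matrix.cons_val,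
      Pi.smul_apply, smul_eq_mul]
    rw [b₂, b₄, b₆]
    linear_combination -hN3 - hN4 - 2 * e1 - 2 * e2
  · simp
    ring

/-- the diagonal case. -/
lemma diag [W.IsElliptic] {x y : K} (h : W.Nonsingular x y) :
    ∃ c : K, c ≠ 0 ∧ (fun i => (addSubMap W i).eval ((some x y h).sym2x (some x y h))) =
      c • ((some x y h + some x y h).sym2x 0) := by
  have e1 := (W.equation_iff x y).mp h.1
  have hne := addSubMap_ne_zero W (sym2x_ne_zero (some x y h) (some x y h))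
  by_cases hy : y = W.negY x y
  · rw [add_self_of_Y_eq hy]
    rw [addSubMap_eval, sym2x_some_some] at hne ⊢
    have hy' : 2 * y + W.a₁ * x + W.a₃ = 0 := by
      rw [negY] at hy
      linear_combination hy
    have h1 : 4 * x ^ 3 + W.b₂ * x ^ 2 + 2 * W.b₄ * x + W.b₆ = 0 := by
      rw [b₂, b₄, b₆]
      linear_combination (2 * y + W.a₁ * x + W.a₃) * hy' - 4 * e1
    refine ⟨(x * x) ^ 2 - W.b₄ * (x * x) * 1 - W.b₆ * (x + x) * 1 - W.b₈ * 1 ^ 2, ?_, ?_⟩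
    · intro h0
      apply hne
      ext i
      fin_cases i
      · simpa using h0
      · simp
        linear_combination h1
      · simp
        ring
    · ext i
      fin_cases i
      · simp
      · simp
        linear_combination h1
      · simp
        ring
  · rw [add_self_of_Y_ne hy, sym2x_some_zero, addSubMap_eval, sym2x_some_some]
    have hy' : y - W.negY x y ≠ 0 := sub_ne_zero.mpr hy
    rw [slope_of_Y_ne rfl hy]
    obtain ⟨L, hL⟩ : ∃ L, L = (3 * x ^ 2 + 2 * W.a₂ * x + W.a₄ - W.a₁ * y) / (y - W.negY x y) :=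
      ⟨_, rfl⟩
    rw [← hL]
    have hL' : L * (y - W.negY x y) = 3 * x ^ 2 + 2 * W.a₂ * x + W.a₄ - W.a₁ * y := by
      rw [hL]; field_simp
    refine ⟨(y - W.negY x y) ^ 2, pow_ne_zero 2 hy', ?_⟩
    have hψ : (y - W.negY x y) ^ 2 = 4 * x ^ 3 + W.b₂ * x ^ 2 + 2 * W.b₄ * x + W.b₆ := by
      rw [b₂, b₄, b₆, negY]
      linear_combination 4 * e1
    ext i
    fin_cases i
    · simp only [Fin.zero_eta, Matrix.cons_val_zero, Matrix.cons_val_one, Matrix.cons_val,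
        Pi.smul_apply, smul_eq_mul]
      have h1 : (y - W.negY x y) ^ 2 * W.addX x x L =
          (3 * x ^ 2 + 2 * W.a₂ * x + W.a₄ - W.a₁ * y) ^ 2 +
          W.a₁ * (3 * x ^ 2 + 2 * W.a₂ * x + W.a₄ - W.a₁ * y) * (y - W.negY x y) -
          (W.a₂ + 2 * x) * (y - W.negY x y) ^ 2 := by
        rw [addX]
        linear_combination (L * (y - W.negY x y) + (3 * x ^ 2 + 2 * W.a₂ * x + W.a₄ - W.a₁ * y) +
          W.a₁ * (y - W.negY x y)) * hL'
      rw [h1, b₄, b₆, b₈, negY]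
      linear_combination (8 * x + 4 * W.a₂ + W.a₁ ^ 2) * e1
    · simp only [Fin.mk_one, Matrix.cons_val_zero, Matrix.cons_val_one, Matrix.cons_val,
        Pi.smul_apply, smul_eq_mul]
      rw [hψ]
      ring
    · simp
      ring

/-- `addSubMap` does what it is claimed to do. -/
theorem addSubMap_sym2x [W.IsElliptic] (P Q : W.Point) :
    ∃ c : K, c ≠ 0 ∧ (fun i => (addSubMap W i).eval (P.sym2x Q)) =
      c • ((P + Q).sym2x (P - Q)) := by
  match P, Q with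
  | 0, 0 =>
    refine ⟨1, one_ne_zero, ?_⟩
    rw [addSubMap_eval, add_zero, sub_zero, sym2x_zero_zero]
    ext i
    fin_cases i <;> simp
  | 0, Point.some x y h =>
    refine ⟨1, one_ne_zero, ?_⟩
    rw [addSubMap_eval, zero_add, zero_sub, sym2x_neg_right, sym2x_zero_some, sym2x_some_some]
    ext i
    fin_cases i <;> simp <;> ring
  | Point.some x y h, 0 =>
    refine ⟨1, one_ne_zero, ?_⟩
    rw [addSubMap_eval, add_zero, sub_zero, sym2x_some_zero, sym2x_some_some]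
    ext i
    fin_cases i <;> simp <;> ring
  | Point.some x₁ y₁ h₁, Point.some x₂ y₂ h₂ =>
    by_cases hx : x₁ = x₂
    · rcases X_eq_iff (h₁ := h₁) (h₂ := h₂) |>.mp hx with he | he
      · rw [← he, sub_self]
        exact diag W h₁
      · have he' : some x₂ y₂ h₂ = -some x₁ y₁ h₁ := by rw [he, neg_neg]
        rw [he', sym2x_neg_right, add_neg_cancel, sub_neg_eq_add, sym2x_comm 0]
        exact diag W h₁
    · exact ⟨(x₁ - x₂) ^ 2, pow_ne_zero 2 (sub_ne_zero.mpr hx), aff W h₁ h₂ hx⟩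

end algebra

section height

variable {K : Type*} [Field K] [Height.AdmissibleAbsValues K] [DecidableEq K]
  (W : WeierstrassCurve.Affine K)

/-- The naive logarithmic height of a point. -/
noncomputable def hx {W : WeierstrassCurve.Affine K} (P : W.Point) : ℝ := Height.logHeight P.xRep

omit [DecidableEq K] in
lemma hx_nonneg {W : WeierstrassCurve.Affine K} (P : W.Point) : 0 ≤ hx P :=
  Height.logHeight_nonneg _

omit [DecidableEq K] in
@[simp] lemma hx_neg {W : WeierstrassCurve.Affine K} (P : W.Point) : hx (-P) = hx P := by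
  rw [hx, hx, xRep_neg]

omit [DecidableEq K] in
@[simp] lemma hx_zero {W : WeierstrassCurve.Affine K} : hx (0 : W.Point) = 0 := by
  rw [hx, xRep_zero, ← Height.logHeight₁_div_eq_logHeight]
  simp

omit [DecidableEq K] in
lemma hx_some {W : WeierstrassCurve.Affine K} {x y : K} (h : W.Nonsingular x y) :
    hx (some x y h) = Height.logHeight₁ x := by
  rw [hx, xRep_some, Height.logHeight₁_eq_logHeight]

variable [W.IsElliptic]

/-- **The approximate parallelogram law.** -/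
theorem parallelogram : ∃ C : ℝ, ∀ P Q : W.Point,
    |hx (P + Q) + hx (P - Q) - 2 * hx P - 2 * hx Q| ≤ C := by
  obtain ⟨C₁, h1⟩ := abs_logHeight_addSubMap_sub_two_mul_logHeight_le W
  obtain ⟨C₂, h2⟩ := Height.abs_logHeight_sym2_sub_le K
  refine ⟨C₁ + 3 * C₂, fun P Q => ?_⟩
  have hs : ∀ R S : W.Point, |Height.logHeight (R.sym2x S) - (hx R + hx S)| ≤ C₂ := by
    intro R S
    have e : ∀ T : W.Point, ![T.xRep 0, T.xRep 1] = T.xRep := by
      intro T; ext i; fin_cases i <;> rfl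
    have := @h2 (R.xRep 0) (R.xRep 1) (S.xRep 0) (S.xRep 1) (by rw [e]; exact xRep_ne_zero R)
      (by rw [e]; exact xRep_ne_zero S)
    rw [e, e] at this
    exact this
  obtain ⟨c, hc, he⟩ := addSubMap_sym2x W P Q
  have h3 := h1 (P.sym2x Q)
  rw [he, Height.logHeight_smul_eq_logHeight _ hc] at h3
  have h4 := hs (P + Q) (P - Q)
  have h5 := hs P Q
  rw [abs_le] at *
  constructor <;> linarith [h3.1, h3.2, h4.1, h4.2, h5.1, h5.2]

/-- Heights of doubles. -/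
theorem hx_two : ∃ C : ℝ, ∀ P : W.Point, |hx (2 • P) - 4 * hx P| ≤ C := by
  obtain ⟨C, hC⟩ := parallelogram W
  refine ⟨C, fun P => ?_⟩
  have := hC P P
  rw [sub_self, hx_zero, ← two_nsmul] at this
  rw [abs_le] at *
  constructor <;> linarith [this.1, this.2]

/-- Heights of triples. -/
theorem hx_three : ∃ C : ℝ, ∀ P : W.Point, |hx (3 • P) - 9 * hx P| ≤ C := by
  obtain ⟨C, hC⟩ := parallelogram W
  obtain ⟨D, hD⟩ := hx_two W
  refine ⟨C + 2 * D, fun P => ?_⟩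
  have h1 := hC (2 • P) P
  have e1 : 2 • P + P = 3 • P := by rw [← succ_nsmul]
  have e2 : 2 • P - P = P := by rw [two_nsmul, add_sub_cancel_right]
  rw [e1, e2] at h1
  have h2 := hD P
  rw [abs_le] at *
  constructor <;> linarith [h1.1, h1.2, h2.1, h2.2]

end height

section northcott

variable {K : Type*} [Field K] [NumberField K] (W : WeierstrassCurve.Affine K)

/-- **Northcott property** for points on a curve over a number field. -/
theorem northcott (B : ℝ) : {P : W.Point | hx P ≤ B}.Finite := by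
  classical
  have hfin : {x : K | Height.logHeight₁ x ≤ B}.Finite := NumberField.finite_setOfPred_logHeight₁_le K B
  have hsub : {P : W.Point | hx P ≤ B} ⊆ {0} ∪
      ⋃ x ∈ {x : K | Height.logHeight₁ x ≤ B}, {P : W.Point | P.xRep = ![x, 1]} := by
    intro P hP
    cases P with
    | zero => left; rfl
    | some x y h =>
      right
      simp only [Set.mem_iUnion]
      refine ⟨x, ?_, ?_⟩
      · rw [Set.mem_ofPred_eq, hx_some] at hP
        exact hP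
      · rfl
  refine Set.Finite.subset (Set.Finite.union (Set.finite_singleton _)
    (Set.Finite.biUnion hfin fun x _ => ?_)) hsub
  by_cases hne : ∃ P : W.Point, P.xRep = ![x, 1]
  · obtain ⟨P, hP⟩ := hne
    refine Set.Finite.subset (Set.toFinite {P, -P}) ?_
    intro Q hQ
    have : Q.xRep = P.xRep := by rw [hP]; exact hQ
    exact eq_or_eq_neg_of_xRep_eq_xRep this
  · have : {P : W.Point | P.xRep = ![x, 1]} = ∅ := by
      ext P
      simp only [Set.mem_ofPred_eq, Set.mem_empty_iff_false, iff_false]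
      exact fun h => hne ⟨P, h⟩
    rw [this]
    exact Set.finite_empty

end northcott

section rat

variable (W : WeierstrassCurve.Affine ℚ)

/-- The naive height over the rationals. -/
theorem hx_rat {W : WeierstrassCurve.Affine ℚ} {x y : ℚ} (h : W.Nonsingular x y) :
    hx (some x y h) = Real.log ((max x.num.natAbs x.den : ℕ) : ℝ) := by
  rw [hx_some, Rat.logHeight₁_eq_log_max]

end rat

end Pool.Agent.Helper51.Par
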